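import Pool.Agent.Helper22_DEN.Main

open scoped BigOperators

namespace Pool.Agent.DEN.H22

open Pool.Agent.DEN

/-- The final statement, from the assembly statements. -/
theorem final (hBir : BirStmt) (hVan : VanStmt) (hBdg : BdgStmt) (hCnt : CntStmt)
    (hThi : ThiStmt) (hThf : ThfStmt) (hTrf : TrfStmt) (hKer : KerStmt)
    {r : ℕ} (hr : 0 < r) (C : Matrix (Fin r) (Fin r) ℤ) (hC : SimplyLaced C)
    (K : Type) [Field K] [Finite K] (N : Polynomial K) (hN : N ≠ 0)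
    (n : ℕ) (f : Fin n → XX C K → ℂ) (hcusp : ∀ j, IsCusp N (f j))
    (horth : ∀ i j, petersson N (f i) (f j) = if i = j then 1 else 0)
    (lam : Fin n → ℂ) (R : ℕ) (hR : 0 < R) :
    (∀ κ : grp C K → ℂ, HeckeInf κ R → (∀ j, EigenInf κ (lam j) (f j)) →
      (2 * R < N.natDegree →
        ∑ j, ‖lam j‖ ^ 2 ≤
          (N.natDegree : ℝ) ^ r * (cong C K 1 N).relIndex (arith C K 1) *
            normSq (maxK C K) κ) ∧
      (∀ τ σ : ℝ, 0 < τ → 0 ≤ σ → NormLE (maxK C K) κ τ →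
        (∀ j, (Nat.card K : ℝ) ^ (σ * R) * τ ≤ ‖lam j‖) →
        (n : ℝ) ≤ (N.natDegree : ℝ) ^ r * (cong C K 1 N).relIndex (arith C K 1) *
          (Nat.card K : ℝ) ^ (-(σ * ((N.natDegree : ℝ) - 2 * R))))) ∧
    (∀ P : Polynomial K, 0 < P.natDegree → IsCoprime P N → ∀ κ : arith C K P → ℂ,
      HeckeFin P κ R → (∀ j, EigenFin P N κ (lam j) (f j)) →
      (2 * (R * P.natDegree) < N.natDegree →
        ∑ j, ‖lam j‖ ^ 2 ≤
          (N.natDegree : ℝ) ^ r * (cong C K 1 N).relIndex (arith C K 1) *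
            normSq ((arith C K 1).subgroupOf (arith C K P)) κ) ∧
      (∀ τ σ : ℝ, 0 < τ → 0 ≤ σ → NormLE ((arith C K 1).subgroupOf (arith C K P)) κ τ →
        (∀ j, (Nat.card K : ℝ) ^ (σ * (R * P.natDegree : ℕ)) * τ ≤ ‖lam j‖) →
        (n : ℝ) ≤ (N.natDegree : ℝ) ^ r * (cong C K 1 N).relIndex (arith C K 1) *
          (Nat.card K : ℝ) ^ (-(σ * ((N.natDegree : ℝ) - 2 * (R * P.natDegree : ℕ)))))) := by
  refine ⟨fun κ hκ hlam => ?_, fun P hP hPN κ hκ hlam => ?_⟩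
  · exact inf_part hBir hVan hBdg hCnt hThi hKer hr hC N hN n f hcusp horth lam R hR κ hκ hlam
  · exact fin_part hBir hVan hCnt hThf hTrf hKer hr hC N hN n f hcusp horth lam R hR P hP hPN κ
      hκ hlam

end Pool.Agent.DEN.H22
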