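import Pool.Agent.Helper22_DEN.Tor

open scoped BigOperators

namespace Pool.Agent.DEN.H22

open Pool.Agent.DEN

section
variable {r : ℕ} {C : Matrix (Fin r) (Fin r) ℤ} {R : Type} [CommRing R]

theorem crd_mem {S : Subring R} {v : LieV C R} (hv : Cd (S : Set R) v) (x : Fin r → ℤ) :
    crd v x ∈ S := by
  unfold crd
  split_ifs with h
  · exact hv.2 _
  · exact S.zero_mem

theorem pr_mem {S : Subring R} {v : LieV C R} (hv : Cd (S : Set R) v) (x : Fin r → ℤ) :
    pr v x ∈ S := by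
  unfold pr
  exact S.sum_mem fun i _ => S.sum_mem fun j _ =>
    S.mul_mem (S.mul_mem (hv.1 i) (intCast_mem S _)) (intCast_mem S _)

/-- Root elements with entries in a subring preserve the Chevalley order over it. -/
theorem rootMap_subring {S : Subring R} (β : Rt C) {a : R} (ha : a ∈ S) {v : LieV C R}
    (hv : Cd (S : Set R) v) : Cd (S : Set R) (rootMap β a v) := by
  refine ⟨fun i => ?_, fun γ => ?_⟩
  · rw [fst_eq]
    exact S.sub_mem (hv.1 i) (S.mul_mem (S.mul_mem ha (crd_mem hv _)) (intCast_mem S _))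
  · by_cases h1 : γ = β
    · subst h1
      rw [rootMap_snd_self]
      exact S.add_mem (S.sub_mem (hv.2 _) (S.mul_mem ha (pr_mem hv _)))
        (S.mul_mem (S.pow_mem ha 2) (hv.2 _))
    · by_cases h2 : ip C β.1 γ.1 = 1
      · rw [rootMap_snd_one _ _ _ _ h2]
        exact S.add_mem (hv.2 _) (S.mul_mem (S.mul_mem ha (intCast_mem S _)) (crd_mem hv _))
      · rw [rootMap_snd_other _ _ _ _ h1 h2]
        exact hv.2 _

end

section
variable {r : ℕ} {C : Matrix (Fin r) (Fin r) ℤ} {K : Type} [Field K]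

/-- The valuation ring. -/
def OO (hF : Fld1Stmt) (K : Type) [Field K] : Subring (FF K) where
  carrier := Bd K 0
  mul_mem' := by
    intro a b ha hb
    have := (hF K).2.2.2.1 0 0 a b ha hb
    simpa using this
  one_mem' := by
    have := (hF K).2.2.2.2.2.1 1
    simpa using this
  add_mem' := by
    intro a b ha hb
    exact (hF K).2.1 0 a b ha hb
  zero_mem' := (hF K).1 0
  neg_mem' := by
    intro a ha
    exact (hF K).2.2.1 0 a ha

theorem xg_maxK (hF : Fld1Stmt) (hC : SimplyLaced C) (β : Rt C) {a : FF K} (ha : a ∈ Bd K 0) :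
    xg hC β a ∈ maxK C K := by
  have key : ∀ b : FF K, b ∈ Bd K 0 → ∀ v : LieV C (FF K), Cd (Bd K 0) v →
      Cd (Bd K 0) (rootMap β b v) := by
    intro b hb v hv
    exact rootMap_subring (S := OO hF K) β hb hv
  intro v
  constructor
  · intro h
    have h1 := key (-a) ((hF K).2.2.1 0 a ha) _ h
    rw [xg_apply, rootMap_rootMap hC, neg_add_cancel, rootMap_zero] at h1
    exact h1
  · intro h
    exact key a ha v h

theorem wg_maxK (hF : Fld1Stmt) (hC : SimplyLaced C) (β : Rt C) {u : FF K} (hu : u ∈ Bd K 0)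
    (hu' : u⁻¹ ∈ Bd K 0) : wg hC β u ∈ maxK C K :=
  mul_mem (mul_mem (xg_maxK hF hC β hu) (xg_maxK hF hC β.neg hu')) (xg_maxK hF hC β hu)

theorem one_Bd (hF : Fld1Stmt) : (1 : FF K) ∈ Bd K 0 := (OO hF K).one_mem

theorem fix_pt (hF : Fld1Stmt) (hC : SimplyLaced C) {l : Fin r → ℤ} {g : grp C K}
    (h : IsTor l g) (β : Rt C) {a : FF K} (ha : a ∈ Bd K (ip C β.1 l)) :
    xg hC β a • pt g = pt g := by
  have h1 := isTor_conj hC (isTor_inv h) β a
  rw [inv_inv] at h1
  have h2 : tt K ^ ip C β.1 (-l) * a ∈ Bd K 0 := by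
    have := (hF K).2.2.2.2.2.2.2.1 (ip C β.1 l) (tt K ^ ip C β.1 (-l) * a)
    rw [← this, ← mul_assoc, ip_neg_right, zpow_neg,
      mul_inv_cancel₀ (zpow_ne_zero _ tt_ne), one_mul]
    exact ha
  have h3 : g⁻¹ * xg hC β a * g ∈ maxK C K := by
    rw [h1]
    exact xg_maxK hF hC β h2
  show (QuotientGroup.mk (xg hC β a * g) : XX C K) = QuotientGroup.mk g
  rw [QuotientGroup.eq]
  have h4 := (maxK C K).inv_mem h3
  have h5 : (xg hC β a * g)⁻¹ * g = (g⁻¹ * xg hC β a * g)⁻¹ := by group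
  rw [h5]
  exact h4

end

theorem max (hF : Fld1Stmt) : MaxStmt := by
  intro r C hC K _
  refine ⟨fun β a ha => xg_maxK hF hC β ha, fun β => ⟨?_, ?_⟩, fun β u _ hu hu' => ?_,
    fun l g h β a ha => fix_pt hF hC h β ha⟩
  · exact wg_maxK hF hC β (one_Bd hF) (by rw [inv_one]; exact one_Bd hF)
  · have h1 : (1 : FF K) ∈ ringA K 1 := (ringA K 1).one_mem
    have h2 : (1 : FF K)⁻¹ ∈ ringA K 1 := by rw [inv_one]; exact h1
    exact mul_mem (mul_mem (xg_mem_arith hC 1 β h1) (xg_mem_arith hC 1 β.neg h2))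
      (xg_mem_arith hC 1 β h1)
  · exact mul_mem (wg_maxK hF hC β hu hu') (inv_mem
      (wg_maxK hF hC β (one_Bd hF) (by rw [inv_one]; exact one_Bd hF)))

end Pool.Agent.DEN.H22
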