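import Pool.Agent.Helper22_DEN.Car
import Pool.Agent.Helper22_DEN.Final
import Pool.Agent.Helper22_DEN.Max
import Pool.Agent.Helper26_DEN.Bes
import Pool.Agent.Helper26_DEN.Ker
import Pool.Agent.Helper26_DEN.Mas
import Pool.Agent.Helper26_DEN.Scs
import Pool.Agent.Helper26_DEN.Sct
import Pool.Agent.Helper26_DEN.Thi
import Pool.Agent.Helper38_DEN.Fsp
import Pool.Agent.Helper38_DEN.Stl
import Pool.Agent.Helper42_DEN.Trf
import Pool.Agent.Helper59_DEN.Roots
import Pool.Agent.Helper63_DEN.Fin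
import Pool.Agent.Helper63_DEN.Nrm
import Pool.Agent.Helper64_DEN.Lev
import Pool.Agent.Helper64_DEN.Rk1
import Pool.Agent.Helper64_DEN.Rootd
import Pool.Agent.Helper67_DEN.Bir
import Pool.Agent.Helper67_DEN.Bru
import Pool.Agent.Helper67_DEN.Iwa
import Pool.Agent.Helper67_DEN.Ups
import Pool.Agent.Helper67_DEN.Van
import Pool.Agent.Helper75_DEN.Bdg
import Pool.Agent.Helper76_DEN.Bnd
import Pool.Agent.Helper76_DEN.Cnt
import Pool.Agent.Helper99_DEN.Fld

namespace Pool.Agent.DEN.H22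

open Pool.Agent.DEN

theorem hRF : RootFinStmt := H59.rootFin
theorem hRS : RootSignStmt := H59.rootSign
theorem hRD : RootDescStmt := H64.rootd hRS hRF
theorem hF1 : Fld1Stmt := H99.fld1
theorem hF2 : Fld2Stmt := H99.fld2
theorem hF3 : Fld3Stmt := H99.fld3
theorem hMax : MaxStmt := max hF1
theorem hUps : UpsStmt := H67.ups relA relB relC hRD
theorem hGen : GenStmt := H67.gen hRD hRS relC
theorem hRk1 : Rk1Stmt := H64.rk1 tor relC relH hMax hF1
theorem hIwa : IwaStmt := H67.iwa hGen hUps hRk1 relH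
theorem hBru : BruStmt := H67.bru hGen hUps relC relW hRS relH
theorem hLev : LevStmt := H64.lev hBru relA relB hRF hRS
theorem hNrm : NrmStmt := H63.nrm hRF hF2 hF3
theorem hVan : VanStmt := H67.van relA relB hRS hRF hF1 hF2 hMax
theorem hTrf : TrfStmt := H42.trf hNrm
theorem hBdg : BdgStmt := H75.bdg hF1
theorem hFin : FinStmt := H63.fin hRF hF1 hF2 hBdg

theorem hCar : CarStmt := car hRS hRF
theorem hBnd : BndStmt := H76.bnd_proof H59.minor hF1 hF2 hBdg hRF tor hNrm

theorem hSct : SctStmt := H26.sct hCar hRF hRS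
theorem hScs : ScsStmt := H26.scs hLev hSct hF1 hF2 hF3 hRF
theorem hStl : StlStmt := H38.stl hCar hMax hF1 hF2 hFin hRF hRS
theorem hBir : BirStmt := H67.bir hIwa hBnd hUps hRk1 hF1 hF2 hRD hRS hRF relA relB hMax
theorem hFsp : FspStmt := H38.fsp hRS hBir hVan hFin hNrm
theorem hThi : ThiStmt := H26.thi H26.bes hScs hBdg hNrm hFin hFsp
theorem hThf : ThfStmt := H26.thf H26.bes hScs hBdg hNrm hFin hFsp
theorem hCnt : CntStmt := H76.cnt hBir hVan hStl H26.mas hFin hFsp hRS hNrm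

end Pool.Agent.DEN.H22
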