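import Mathlib

/-!
# Definitions: the Chevalley order of a simply laced Cartan matrix, and the field `𝔽_q((1/t))`

`C` is a simply laced Cartan matrix of finite type, `ℤ^r` its root lattice, `Rt C` its roots,
`LieV C R` the Chevalley order, over the commutative ring `R`, of the split Lie algebra of type `C`,
with basis the simple coroots `h_i` and the root vectors `e_γ`.
-/

open scoped BigOperators

namespace Pool.Agent.DEN

/-! ## Root data -/

/-- `C` is a simply laced Cartan matrix of finite type (types `A`, `D`, `E` and their sums). -/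
structure SimplyLaced {r : ℕ} (C : Matrix (Fin r) (Fin r) ℤ) : Prop where
  symm : ∀ i j, C i j = C j i
  diag : ∀ i, C i i = 2
  off : ∀ i j, i ≠ j → C i j = 0 ∨ C i j = -1
  pos : ∀ x : Fin r → ℝ, x ≠ 0 → 0 < ∑ i, ∑ j, x i * (C i j : ℝ) * x j

section
variable {r : ℕ} (C : Matrix (Fin r) (Fin r) ℤ)

/-- The invariant bilinear form on the root lattice `ℤ^r`. -/
def ip (x y : Fin r → ℤ) : ℤ := ∑ i, ∑ j, x i * C i j * y j

/-- The roots: the vectors of norm `2` of the root lattice. -/
abbrev Rt : Type := {β : Fin r → ℤ // ip C β β = 2}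

/-- The exponent of the usual sign cocycle: `cexp x x = (x, x) / 2` and
`cexp x y + cexp y x = (x, y)`. -/
def cexp (x y : Fin r → ℤ) : ℤ :=
  ∑ i, x i * y i + ∑ i, ∑ j, if i < j then x i * C i j * y j else 0

/-- The sign cocycle `ε : Q × Q → {1, -1}`. -/
def eps (x y : Fin r → ℤ) : ℤ := if Even (cexp C x y) then 1 else -1

/-- The Chevalley order over `R`: coordinates on the simple coroots and on the root vectors. -/
abbrev LieV (R : Type) : Type := (Fin r → R) × (Rt C → R)

end

section
variable {r : ℕ} {C : Matrix (Fin r) (Fin r) ℤ} {R : Type} [CommRing R]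

/-- The coordinate of `v` on the root vector `e_x`, which is `0` if `x` is not a root. -/
def crd (v : LieV C R) (x : Fin r → ℤ) : R := if h : ip C x x = 2 then v.2 ⟨x, h⟩ else 0

/-- The root element `x_β(a) = exp (a ad e_β)`:
`h ↦ h - a (h, β) e_β`, `e_{-β} ↦ e_{-β} - a h_β + a ^ 2 e_β`,
`e_γ ↦ e_γ + a ε(β, γ) e_{β + γ}` if `(β, γ) = -1`, and `e_γ ↦ e_γ` for the other roots. -/
def rootMap (β : Rt C) (a : R) (v : LieV C R) : LieV C R :=
  (fun i => v.1 i - a * crd v (-β.1) * ((β.1 i : ℤ) : R),
   fun γ => v.2 γ +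
    if γ = β then -a * (∑ i, ∑ j, v.1 i * ((C i j : ℤ) : R) * ((β.1 j : ℤ) : R))
        + a ^ 2 * crd v (-β.1)
    else if ip C β.1 γ.1 = 1 then a * ((eps C β.1 (γ.1 - β.1) : ℤ) : R) * crd v (γ.1 - β.1)
    else 0)

/-- All coordinates of `v` lie in the set `S`. -/
def Cd (S : Set R) (v : LieV C R) : Prop := (∀ i, v.1 i ∈ S) ∧ (∀ γ, v.2 γ ∈ S)

end

/-! ## The field `F = 𝔽_q((1/t))` -/

section
variable (K : Type) [Field K]

/-- The completion `F` of `K(t)` at the place `∞`, with uniformizer `T = 1/t`. -/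
abbrev FF : Type := LaurentSeries K

/-- The variable `t = 1/T`. -/
noncomputable def tt : FF K := HahnSeries.single (-1) 1

/-- The inclusion of the polynomial ring `K[t]` in `F`. -/
noncomputable def polyL : Polynomial K →+* FF K :=
  Polynomial.eval₂RingHom (HahnSeries.C) (tt K)

/-- The ring `A[1/P]`, where `A = K[t]`; it is `A` for `P = 1`. -/
noncomputable def ringA (P : Polynomial K) : Subring (FF K) :=
  Subring.closure (Set.range (polyL K) ∪ {(polyL K P)⁻¹})

/-- `Bd m = t^m 𝒪`: the elements of `F` of degree at most `m`. -/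
def Bd (m : ℤ) : Set (FF K) := {a | ∀ j : ℤ, j < -m → HahnSeries.coeff a j = 0}

end

end Pool.Agent.DEN
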