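import Pool.Agent.Helper22_DEN.Max
import Pool.Agent.Helper67_DEN.Filt
import Pool.Agent.Helper38_DEN.Stl

open scoped BigOperators

namespace Pool.Agent.DEN.H22

open Pool.Agent.DEN

section
variable {r : ℕ} {C : Matrix (Fin r) (Fin r) ℤ} {K : Type} [Field K]

/-- Combinations of root vectors of positive height. -/
def PosV (v : LieV C (FF K)) : Prop := v.1 = 0 ∧ ∀ γ : Rt C, ht γ ≤ 0 → v.2 γ = 0

theorem PosV.add {v w : LieV C (FF K)} (hv : PosV v) (hw : PosV w) : PosV (v + w) :=
  ⟨by rw [Prod.fst_add, hv.1, hw.1, add_zero],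
    fun γ h => by rw [Prod.snd_add, Pi.add_apply, hv.2 γ h, hw.2 γ h, add_zero]⟩

theorem PosV.neg {v : LieV C (FF K)} (hv : PosV v) : PosV (-v) :=
  ⟨by rw [Prod.fst_neg, hv.1, neg_zero],
    fun γ h => by rw [Prod.snd_neg, Pi.neg_apply, hv.2 γ h, neg_zero]⟩

theorem PosV.sub {v w : LieV C (FF K)} (hv : PosV v) (hw : PosV w) : PosV (v - w) := by
  rw [sub_eq_add_neg]; exact hv.add hw.neg

theorem crd_pos {v : LieV C (FF K)} (hv : PosV v) (x : Fin r → ℤ) (hx : ∑ i, x i ≤ 0) :
    crd v x = 0 := by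
  unfold crd
  split_ifs with h
  · exact hv.2 ⟨x, h⟩ hx
  · rfl

/-- Root elements of positive height act well on positive vectors and on Cartan vectors. -/
theorem x_pos (β : Rt C) (hβ : 0 < ht β) (a : FF K) {v : LieV C (FF K)} (hv : PosV v) :
    PosV (rootMap β a v) := by
  have h0 : crd v (-β.1) = 0 := by
    apply crd_pos hv
    have : ∑ i, (-β.1) i = - ht β := by simp [ht]
    rw [this]; omega
  refine ⟨funext fun i => ?_, fun γ hγ => ?_⟩
  · rw [fst_eq, h0, hv.1]
    simp
  · have h1 : γ ≠ β := by rintro rfl; omega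
    by_cases h2 : ip C β.1 γ.1 = 1
    · rw [rootMap_snd_one _ _ _ _ h2, hv.2 γ hγ, crd_pos hv]
      · ring
      · have : ∑ i, (γ.1 - β.1) i = ht γ - ht β := by simp [ht]
        rw [this]; omega
    · rw [rootMap_snd_other _ _ _ _ h1 h2, hv.2 γ hγ]

theorem x_cartan (β : Rt C) (hβ : 0 < ht β) (a : FF K) {v : LieV C (FF K)} (hv : v.2 = 0) :
    PosV (rootMap β a v - v) := by
  have h0 : ∀ x, crd v x = 0 := by
    intro x
    unfold crd
    split_ifs with h
    · rw [hv]; rfl
    · rfl
  refine ⟨funext fun i => ?_, fun γ hγ => ?_⟩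
  · rw [Prod.fst_sub, Pi.sub_apply, fst_eq, h0]
    simp
  · have h1 : γ ≠ β := by rintro rfl; omega
    rw [Prod.snd_sub, Pi.sub_apply]
    by_cases h2 : ip C β.1 γ.1 = 1
    · rw [rootMap_snd_one _ _ _ _ h2, h0]
      ring
    · rw [rootMap_snd_other _ _ _ _ h1 h2]
      ring

theorem ht_ne_zero (hRS : RootSignStmt) (hC : SimplyLaced C) (γ : Rt C) : ht γ ≠ 0 := by
  obtain ⟨hs, -⟩ := hRS r C hC
  intro h
  have h0 : γ.1 = 0 := by
    rcases hs γ with h1 | h1
    · have h2 := (Finset.sum_eq_zero_iff_of_nonneg (fun i _ => h1 i)).mp h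
      funext i
      exact h2 i (Finset.mem_univ i)
    · have h3 : ∑ i, (-γ.1) i = 0 := by
        have : ∑ i, (-γ.1) i = - ht γ := by simp [ht]
        rw [this, h, neg_zero]
      have h2 := (Finset.sum_eq_zero_iff_of_nonneg (fun i _ => h1 i)).mp h3
      funext i
      have := h2 i (Finset.mem_univ i)
      simpa using this
  have := γ.2
  rw [h0, ip_zero_left] at this
  norm_num at this

/-- The Cartan vector `c • β`. -/
noncomputable def cv (β : Rt C) (c : FF K) : LieV C (FF K) :=
  (fun i => -(c * ((β.1 i : ℤ) : FF K)), 0)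

theorem cv_zero (β : Rt C) : cv β (0 : FF K) = 0 := by
  unfold cv
  refine Prod.ext (funext fun i => ?_) rfl
  show -((0 : FF K) * _) = 0
  simp

theorem cv_add (β : Rt C) (c d : FF K) : cv β (c + d) = cv β c + cv β d := by
  unfold cv
  refine Prod.ext (funext fun i => ?_) ?_
  · show -((c + d) * _) = -(c * _) + -(d * _)
    ring
  · show (0 : Rt C → FF K) = 0 + 0
    rw [add_zero]

/-- `x_γ(a) e_{-β} = e_{-β} + (a if γ = β) + positive` when `ht γ ≥ ht β > 0`. -/
theorem x_EE (hRS : RootSignStmt) (hC : SimplyLaced C) (β γ : Rt C) (hβ : 0 < ht β)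
    (hγ : ht β ≤ ht γ) (a : FF K) :
    ∃ c : FF K, PosV (rootMap γ a (EE β.neg) - EE β.neg - cv β c) ∧ (γ ≠ β → c = 0) ∧
      (γ = β → c = a) := by
  classical
  have hE1 : (EE β.neg : LieV C (FF K)).1 = 0 := rfl
  have hE2 : ∀ δ : Rt C, (EE β.neg : LieV C (FF K)).2 δ = if δ = β.neg then 1 else 0 := by
    intro δ
    rfl
  have hcrd : ∀ x, crd (EE β.neg : LieV C (FF K)) x = if x = -β.1 then 1 else 0 := by
    intro x
    unfold crd
    split_ifs with h1 h2 h2
    · rw [hE2, if_pos (Subtype.ext h2)]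
    · rw [hE2, if_neg (fun h => h2 (congrArg Subtype.val h))]
    · exfalso
      apply h1
      rw [h2]
      exact β.neg.2
    · rfl
  refine ⟨if γ = β then a else 0, ⟨funext fun i => ?_, fun δ hδ => ?_⟩, fun h => if_neg h,
    fun h => if_pos h⟩
  · show (rootMap γ a (EE β.neg)).1 i - (EE β.neg : LieV C (FF K)).1 i - (cv β _).1 i = 0
    rw [fst_eq, hE1, hcrd]
    show (0 : FF K) - _ - 0 - (-(_ * _)) = 0
    by_cases h : γ = β
    · subst h
      simp
    · have h' : ¬ (-γ.1 = -β.1) := fun h' => h (Subtype.ext (neg_injective h'))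
      rw [if_neg h', if_neg h]
      ring
  · show (rootMap γ a (EE β.neg)).2 δ - (EE β.neg : LieV C (FF K)).2 δ - (cv β _).2 δ = 0
    have h1 : δ ≠ γ := by rintro rfl; omega
    have h0 : (cv β (if γ = β then a else 0)).2 δ = 0 := rfl
    rw [h0]
    by_cases h2 : ip C γ.1 δ.1 = 1
    · rw [rootMap_snd_one _ _ _ _ h2, hcrd, if_neg]
      · ring
      · intro h3
        have h4 : ht δ - ht γ = - ht β := by
          have e1 : ∑ i, (δ.1 - γ.1) i = ht δ - ht γ := by simp [ht]
          have e2 : ∑ i, (-β.1) i = - ht β := by simp [ht]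
          rw [← e1, ← e2, h3]
        have h5 := ht_ne_zero hRS hC δ
        omega
    · rw [rootMap_snd_other _ _ _ _ h1 h2]
      ring

/-- The good behaviour of `u`. -/
def Good (k : ℕ) (u : grp C K) : Prop :=
  (∀ v : LieV C (FF K), PosV v → PosV (u.1 v)) ∧
  (∀ v : LieV C (FF K), v.2 = 0 → PosV (u.1 v - v)) ∧
  (∀ β : Rt C, 0 < ht β → ht β ≤ k → ∃ c : FF K, PosV (u.1 (EE β.neg) - EE β.neg - cv β c))

theorem Good.mul {k : ℕ} {u w : grp C K} (hu : Good k u) (hw : Good k w) : Good k (u * w) := by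
  refine ⟨fun v hv => hu.1 _ (hw.1 v hv), fun v hv => ?_, fun β h1 h2 => ?_⟩
  · have e : (u * w).1 v - v = u.1 (w.1 v - v) + (u.1 v - v) := by
      rw [mul_app, map_sub]; abel
    rw [e]
    exact (hu.1 _ (hw.2.1 v hv)).add (hu.2.1 v hv)
  · obtain ⟨c, hc⟩ := hu.2.2 β h1 h2
    obtain ⟨d, hd⟩ := hw.2.2 β h1 h2
    refine ⟨c + d, ?_⟩
    have e : (u * w).1 (EE β.neg) - EE β.neg - cv β (c + d) =
        u.1 (w.1 (EE β.neg) - EE β.neg - cv β d) + (u.1 (EE β.neg) - EE β.neg - cv β c)
          + (u.1 (cv β d) - cv β d) := by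
      rw [mul_app, map_sub, map_sub, cv_add]; abel
    rw [e]
    exact ((hu.1 _ hd).add hc).add (hu.2.1 _ rfl)

theorem Good.one (k : ℕ) : Good k (1 : grp C K) := by
  refine ⟨fun v hv => hv, fun v _ => ?_, fun β _ _ => ⟨0, ?_⟩⟩
  · have : (1 : grp C K).1 v - v = 0 := sub_self v
    rw [this]
    exact ⟨rfl, fun _ _ => rfl⟩
  · have : (1 : grp C K).1 (EE β.neg) - EE β.neg - cv β 0 = 0 := by
      rw [cv_zero]
      show EE β.neg - EE β.neg - 0 = 0
      simp
    rw [this]
    exact ⟨rfl, fun _ _ => rfl⟩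

theorem good_x (hRS : RootSignStmt) (hC : SimplyLaced C) (k : ℕ) (γ : Rt C)
    (hγ : (k : ℤ) ≤ ht γ) (hγ0 : 0 < ht γ) (a : FF K) : Good k (xg hC γ a) := by
  refine ⟨fun v hv => x_pos γ hγ0 a hv, fun v hv => x_cartan γ hγ0 a hv, fun β h1 h2 => ?_⟩
  obtain ⟨c, hc, -⟩ := x_EE hRS hC β γ h1 (by omega) a
  exact ⟨c, hc⟩

theorem ht_pos_of (hRS : RootSignStmt) (hC : SimplyLaced C) {l : Fin r → ℤ} (hl : IsDom C l)
    (β : Rt C) (h : 0 < ip C β.1 l) : 0 < ht β := by
  obtain ⟨hs, -, -, hd⟩ := hRS r C hC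
  have h0 := ht_ne_zero hRS hC β
  rcases hs β with h1 | h1
  · have : 0 ≤ ht β := Finset.sum_nonneg fun i _ => h1 i
    omega
  · exfalso
    rcases Nat.eq_zero_or_pos r with hr | hr
    · subst hr
      have : ip C β.1 l = 0 := by simp [ip]
      omega
    · have h2 := hd (-β.1) l hl h1 ⟨0, hr⟩
      have h3 : 0 ≤ (-β.1) ⟨0, hr⟩ * ip C (al ⟨0, hr⟩) l := mul_nonneg (h1 _) (hl _)
      rw [ip_neg_left] at h2
      omega

theorem Ul_eq (hC : SimplyLaced C) (l : Fin r → ℤ) (k : ℕ) :
    Ul C K l k = Subgroup.closure (H67.SS K hC {β | 0 < ip C β.1 l} k) := by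
  unfold Ul H67.SS
  congr 1
  ext g
  constructor
  · rintro ⟨β, a, h1, h2, h3⟩
    exact ⟨β, h1, h2, a, eq_xg hC β a g h3⟩
  · rintro ⟨β, h1, h2, a, rfl⟩
    exact ⟨β, a, h1, h2, fun v => rfl⟩

theorem good_Ul (hRS : RootSignStmt) (hC : SimplyLaced C) {l : Fin r → ℤ} (hl : IsDom C l)
    (k : ℕ) (u : grp C K) (hu : u ∈ Ul C K l k) : Good k u := by
  have key : Good k u ∧ Good k u⁻¹ := by
    unfold Ul at hu
    induction hu using Subgroup.closure_induction with
    | mem g hg =>
      obtain ⟨β, a, h1, h2, h3⟩ := hg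
      have h4 := eq_xg hC β a g h3
      subst h4
      rw [xg_inv]
      exact ⟨good_x hRS hC k β h2 (ht_pos_of hRS hC hl β h1) a,
        good_x hRS hC k β h2 (ht_pos_of hRS hC hl β h1) (-a)⟩
    | one =>
      rw [inv_one]
      exact ⟨Good.one k, Good.one k⟩
    | mul x y _ _ hx hy =>
      rw [mul_inv_rev]
      exact ⟨hx.1.mul hy.1, hy.2.mul hx.2⟩
    | inv x _ hx =>
      rw [inv_inv]
      exact ⟨hx.2, hx.1⟩
  exact key.1

theorem good_fst {u : grp C K} {β : Rt C} {c : FF K}
    (h : PosV (u.1 (EE β.neg) - EE β.neg - cv β c)) :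
    (u.1 (EE β.neg)).1 = fun i => -(c * ((β.1 i : ℤ) : FF K)) := by
  have h1 := h.1
  funext i
  have h2 := congrFun h1 i
  have h3 : (u.1 (EE β.neg)).1 i - (0 : FF K) - (-(c * ((β.1 i : ℤ) : FF K))) = 0 := h2
  have h4 : (u.1 (EE β.neg)).1 i = -(c * ((β.1 i : ℤ) : FF K)) := by
    linear_combination h3
  exact h4

theorem car_add (hRS : RootSignStmt) (hC : SimplyLaced C) {l : Fin r → ℤ} (hl : IsDom C l)
    (k : ℕ) (s u : grp C K) (hs : s ∈ Ul C K l 0) (hu : u ∈ Ul C K l k) (β : Rt C)
    (hβ : 0 < ip C β.1 l) (hk : ht β = k) :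
    ((s * u).1 (EE β.neg)).1 = (s.1 (EE β.neg)).1 + (u.1 (EE β.neg)).1 := by
  have hgs := good_Ul hRS hC hl 0 s hs
  have hgu := good_Ul hRS hC hl k u hu
  have hβ0 := ht_pos_of hRS hC hl β hβ
  obtain ⟨c, hc⟩ := hgu.2.2 β hβ0 hk.le
  have e : (s * u).1 (EE β.neg) = s.1 (EE β.neg) + cv β c +
      (s.1 (u.1 (EE β.neg) - EE β.neg - cv β c) + (s.1 (cv β c) - cv β c)) := by
    rw [mul_app, map_sub, map_sub]; abel
  have h1 := ((hgs.1 _ hc).add (hgs.2.1 (cv β c) rfl)).1
  rw [e, Prod.fst_add, h1, add_zero, Prod.fst_add, good_fst hc]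
  rfl

end

section
variable {r : ℕ} {C : Matrix (Fin r) (Fin r) ℤ} {K : Type} [Field K]

theorem car : RootSignStmt → RootFinStmt → CarStmt := by
  intro hRS hRF r C hC K _ l hl k
  have hadd : ∀ s ∈ Ul C K l 0, ∀ u ∈ Ul C K l k, ∀ β : Rt C, 0 < ip C β.1 l → ht β = k →
      ((s * u).1 (EE β.neg)).1 = (s.1 (EE β.neg)).1 + (u.1 (EE β.neg)).1 :=
    fun s hs u hu β hβ hk => car_add (K := K) hRS hC hl k s u hs hu β hβ hk
  refine ⟨?_, ?_, hadd⟩
  · intro u hu β hβ hk
    have hgu := good_Ul hRS hC hl k u hu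
    have hβ0 := ht_pos_of hRS hC hl β hβ
    obtain ⟨c, hc⟩ := hgu.2.2 β hβ0 hk.le
    exact ⟨c, good_fst hc⟩
  · intro u hu hzero
    classical
    have := hRF r C hC
    have := Fintype.ofFinite (Rt C)
    have hle : ∀ j : ℕ, Ul C K l j ≤ Ul C K l 0 := by
      intro j
      rw [Ul_eq hC, Ul_eq hC]
      exact H67.SS_mono hC _ (Nat.zero_le j)
    by_cases hk0 : k = 0
    · -- every generator has height at least one
      subst hk0
      have : Ul C K l 0 = Ul C K l (0 + 1) := by
        rw [Ul_eq hC, Ul_eq hC]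
        congr 1
        ext g
        constructor
        · rintro ⟨β, h1, h2, a, rfl⟩
          have := ht_pos_of hRS hC hl β h1
          exact ⟨β, h1, by push_cast; omega, a, rfl⟩
        · rintro ⟨β, h1, h2, a, rfl⟩
          have := ht_pos_of hRS hC hl β h1
          exact ⟨β, h1, by push_cast; omega, a, rfl⟩
      rw [← this]
      exact hu
    have hk1 : 1 ≤ k := Nat.one_le_iff_ne_zero.mpr hk0
    set Φ : Set (Rt C) := {β | 0 < ip C β.1 l} with hΦ
    have hΦc : ∀ β ∈ Φ, ∀ γ ∈ Φ, ∀ δ : Rt C, δ.1 = β.1 + γ.1 → δ ∈ Φ := by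
      intro β hβ γ hγ δ hδ
      show 0 < ip C δ.1 l
      rw [hδ, ip_add_left]
      exact add_pos hβ hγ
    -- the intermediate groups
    let B : Finset (Rt C) := Finset.univ.filter (fun β => 0 < ip C β.1 l ∧ ht β = k)
    let GT : Finset (Rt C) → Set (grp C K) := fun T =>
      {g | ∃ β ∈ T, ∃ a : FF K, g = xg hC β a} ∪ H67.SS K hC Φ (k + 1)
    have hGT : ∀ T ⊆ B, Subgroup.closure (GT T) ≤ Ul C K l k := by
      intro T hT
      rw [Subgroup.closure_le]
      rintro g (⟨β, hβ, a, rfl⟩ | hg)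
      · have := (Finset.mem_filter.mp (hT hβ)).2
        exact Subgroup.subset_closure ⟨β, a, this.1, this.2.ge, fun v => rfl⟩
      · rw [Ul_eq hC]
        exact H67.SS_mono hC Φ (Nat.le_succ k) (Subgroup.subset_closure hg)
    have key : ∀ T : Finset (Rt C), T ⊆ B → ∀ u ∈ Subgroup.closure (GT T),
        (∀ β : Rt C, 0 < ip C β.1 l → ht β = k → (u.1 (EE β.neg)).1 = 0) →
        u ∈ Ul C K l (k + 1) := by
      intro T
      induction T using Finset.induction_on with
      | empty =>
        intro _ u hu _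
        rw [Ul_eq hC]
        refine Subgroup.closure_mono ?_ hu
        rintro g (⟨β, hβ, -⟩ | hg)
        · exact absurd hβ (Finset.notMem_empty β)
        · exact hg
      | insert β T hβT ih =>
        intro hT u hu hz
        have hTB : T ⊆ B := fun x hx => hT (Finset.mem_insert_of_mem hx)
        have hβB := (Finset.mem_filter.mp (hT (Finset.mem_insert_self β T))).2
        -- decomposition
        have hdec : ∀ u ∈ Subgroup.closure (GT (insert β T)),
            ∃ s ∈ Subgroup.closure (GT T), ∃ c : FF K, u = s * xg hC β c := by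
          intro u hu
          have hnorm : ∀ a : FF K, ∀ s ∈ Subgroup.closure (GT T),
              xg hC β a * s * (xg hC β a)⁻¹ ∈ Subgroup.closure (GT T) := by
            intro a s hs
            induction hs using Subgroup.closure_induction with
            | mem g hg =>
              have hsub : Subgroup.closure (H67.SS K hC Φ (k + 1)) ≤ Subgroup.closure (GT T) :=
                Subgroup.closure_mono (fun x hx => Or.inr hx)
              have hcomm : xg hC β a * g * (xg hC β a)⁻¹ * g⁻¹ ∈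
                  Subgroup.closure (H67.SS K hC Φ (k + 1)) := by
                rcases hg with ⟨γ, hγ, b, rfl⟩ | ⟨γ, hγ, hγk, b, rfl⟩
                · have hγB := (Finset.mem_filter.mp (hTB hγ)).2
                  exact H67.SS_mono hC Φ (by omega) (H67.comm_x relA relB hC Φ hΦc hk1 hk1
                    hβB.1 hγB.1 hβB.2.ge hγB.2.ge a b)
                · exact H67.SS_mono hC Φ (by omega) (H67.comm_x relA relB hC Φ hΦc hk1
                    (Nat.le_add_left 1 k) hβB.1 hγ hβB.2.ge hγk a b)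
              have e : xg hC β a * g * (xg hC β a)⁻¹ =
                  (xg hC β a * g * (xg hC β a)⁻¹ * g⁻¹) * g := by group
              rw [e]
              exact mul_mem (hsub hcomm) (Subgroup.subset_closure hg)
            | one => simp
            | mul x y _ _ hx hy =>
              have e : xg hC β a * (x * y) * (xg hC β a)⁻¹ =
                  (xg hC β a * x * (xg hC β a)⁻¹) * (xg hC β a * y * (xg hC β a)⁻¹) := by group
              rw [e]
              exact mul_mem hx hy
            | inv x _ hx =>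
              have e : xg hC β a * x⁻¹ * (xg hC β a)⁻¹ = (xg hC β a * x * (xg hC β a)⁻¹)⁻¹ := by
                group
              rw [e]
              exact inv_mem hx
          induction hu using Subgroup.closure_induction with
          | mem g hg =>
            rcases hg with ⟨γ, hγ, b, rfl⟩ | hg
            · rcases Finset.mem_insert.mp hγ with rfl | hγ
              · exact ⟨1, one_mem _, b, by rw [one_mul]⟩
              · exact ⟨_, Subgroup.subset_closure (Or.inl ⟨γ, hγ, b, rfl⟩), 0,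
                  by rw [xg_zero, mul_one]⟩
            · exact ⟨g, Subgroup.subset_closure (Or.inr hg), 0, by rw [xg_zero, mul_one]⟩
          | one => exact ⟨1, one_mem _, 0, by rw [xg_zero, mul_one]⟩
          | mul x y _ _ hx hy =>
            obtain ⟨s, hs, c, rfl⟩ := hx
            obtain ⟨s', hs', c', rfl⟩ := hy
            refine ⟨s * (xg hC β c * s' * (xg hC β c)⁻¹), mul_mem hs (hnorm c s' hs'), c + c', ?_⟩
            rw [xg_add]
            group
          | inv x _ hx =>
            obtain ⟨s, hs, c, rfl⟩ := hx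
            refine ⟨xg hC β (-c) * s⁻¹ * (xg hC β (-c))⁻¹, hnorm (-c) _ (inv_mem hs), -c, ?_⟩
            rw [← xg_inv]
            group
        obtain ⟨s, hs, c, rfl⟩ := hdec u hu
        have hsU : s ∈ Ul C K l k := hGT T hTB hs
        have hxU : xg hC β c ∈ Ul C K l k :=
          Subgroup.subset_closure ⟨β, c, hβB.1, hβB.2.ge, fun v => rfl⟩
        -- the component of `s` at `β` vanishes
        have hsβ : (s.1 (EE β.neg)).1 = 0 := by
          have gen : ∀ g ∈ GT T, (g.1 (EE β.neg)).1 = 0 := by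
            rintro g (⟨γ, hγ, b, rfl⟩ | ⟨γ, hγ, hγk, b, rfl⟩)
            · have hγβ : γ ≠ β := by rintro rfl; exact hβT hγ
              funext i
              rw [H38.xg_EE, if_neg hγβ]
              rfl
            · have hγβ : γ ≠ β := by
                rintro rfl
                have := hβB.2
                push_cast at hγk
                omega
              funext i
              rw [H38.xg_EE, if_neg hγβ]
              rfl
          have hk' : ∀ g, g ∈ Ul C K l k → (g.1 (EE β.neg)).1 = 0 →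
              ((g⁻¹).1 (EE β.neg)).1 = 0 := by
            intro g hg h0
            have h1 := hadd g (hle k hg) g⁻¹ (inv_mem hg) β hβB.1 hβB.2
            rw [mul_inv_cancel, h0, zero_add] at h1
            rw [← h1]
            rfl
          have hall : ∀ s ∈ Subgroup.closure (GT T), (s.1 (EE β.neg)).1 = 0 := by
            intro s hs
            induction hs using Subgroup.closure_induction with
            | mem g hg => exact gen g hg
            | one => rfl
            | mul x y hx hy h1 h2 =>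
              rw [hadd x (hle k (hGT T hTB hx)) y (hGT T hTB hy) β hβB.1 hβB.2, h1, h2, add_zero]
            | inv x hx h1 => exact hk' x (hGT T hTB hx) h1
          exact hall s hs
        have h1 := hz β hβB.1 hβB.2
        rw [hadd s (hle k hsU) _ hxU β hβB.1 hβB.2, hsβ, zero_add] at h1
        have hc0 : c = 0 := by
          obtain ⟨i, hi⟩ := H38.root_ne_zero (K := K) hRS hC β
          have h2 := congrFun h1 i
          rw [H38.xg_EE, if_pos rfl] at h2
          have h3 : c * ((β.1 i : ℤ) : FF K) = 0 := neg_eq_zero.mp h2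
          exact (mul_eq_zero.mp h3).resolve_right hi
        subst hc0
        rw [xg_zero, mul_one] at hz ⊢
        exact ih hTB s hs hz
    refine key B (Finset.Subset.refl B) u ?_ hzero
    rw [Ul_eq hC] at hu
    refine Subgroup.closure_mono ?_ hu
    rintro g ⟨β, hβ, hβk, a, rfl⟩
    by_cases h : ht β = k
    · exact Or.inl ⟨β, Finset.mem_filter.mpr ⟨Finset.mem_univ β, hβ, h⟩, a, rfl⟩
    · exact Or.inr ⟨β, hβ, by push_cast; omega, a, rfl⟩

end

end Pool.Agent.DEN.H22
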