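import Pool.Agent.Helper22_DEN.Base

/-!
# Definitions: simply laced Chevalley groups over `𝔽_q((1/t))`, cusp forms and Hecke operators
(the working version; the public version, in which the types are given names, is in `Pub.lean`)
-/

open scoped BigOperators

namespace Pool.Agent.DEN

/-! ## The groups -/

section
variable {r : ℕ} (C : Matrix (Fin r) (Fin r) ℤ) (K : Type) [Field K]

/-- The (adjoint, elementary) Chevalley group `G` over `F`: the group generated by the root
elements, that is the image of `G_sc(F)` in its adjoint representation. -/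
noncomputable def grp : Subgroup (LieV C (FF K) ≃ₗ[FF K] LieV C (FF K)) :=
  Subgroup.closure {g | ∃ (β : Rt C) (a : FF K), ∀ v, g v = rootMap β a v}

/-- The arithmetic group generated by the root elements with entries in the ring `A[1/P]`. -/
noncomputable def arith (P : Polynomial K) : Subgroup (grp C K) :=
  Subgroup.closure {g | ∃ (β : Rt C) (a : FF K), a ∈ ringA K P ∧ ∀ v, g.1 v = rootMap β a v}

/-- `g` acts trivially on the Chevalley order over `A[1/P]` modulo `N`. -/
def TrivMod (P N : Polynomial K) (g : grp C K) : Prop :=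
  ∀ v : LieV C (FF K), Cd (ringA K P) v →
    Cd {a | ∃ b ∈ ringA K P, a = polyL K N * b} (g.1 v - v)

variable {C K} in
theorem TrivMod.mul {P N : Polynomial K} {g h : grp C K} (hg : TrivMod C K P N g)
    (hh : TrivMod C K P N h) : TrivMod C K P N (g * h) := by
  intro v hv
  have h1 := hh v hv
  have hN : polyL K N ∈ ringA K P :=
    Subring.subset_closure (Or.inl ⟨N, rfl⟩)
  have h2 : Cd (ringA K P) (h.1 v) := by
    constructor
    · intro i
      obtain ⟨b, hb, hb'⟩ := h1.1 i
      have : (h.1 v).1 i = v.1 i + polyL K N * b := by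
        rw [← hb']; simp
      rw [this]
      exact (ringA K P).add_mem (hv.1 i) ((ringA K P).mul_mem hN hb)
    · intro γ
      obtain ⟨b, hb, hb'⟩ := h1.2 γ
      have : (h.1 v).2 γ = v.2 γ + polyL K N * b := by
        rw [← hb']; simp
      rw [this]
      exact (ringA K P).add_mem (hv.2 γ) ((ringA K P).mul_mem hN hb)
  have h3 := hg _ h2
  constructor
  · intro i
    obtain ⟨b, hb, hb'⟩ := h1.1 i
    obtain ⟨c, hc, hc'⟩ := h3.1 i
    refine ⟨c + b, (ringA K P).add_mem hc hb, ?_⟩
    rw [mul_add, ← hb', ← hc']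
    simp
  · intro γ
    obtain ⟨b, hb, hb'⟩ := h1.2 γ
    obtain ⟨c, hc, hc'⟩ := h3.2 γ
    refine ⟨c + b, (ringA K P).add_mem hc hb, ?_⟩
    rw [mul_add, ← hb', ← hc']
    simp

/-- The principal congruence subgroup of level `N` of `arith C K P`. -/
noncomputable def cong (P N : Polynomial K) : Subgroup (grp C K) where
  carrier := {g | g ∈ arith C K P ∧ TrivMod C K P N g ∧ TrivMod C K P N g⁻¹}
  mul_mem' := by
    rintro a b ⟨ha, ha1, ha2⟩ ⟨hb, hb1, hb2⟩
    refine ⟨mul_mem ha hb, ha1.mul hb1, ?_⟩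
    rw [mul_inv_rev]
    exact hb2.mul ha2
  one_mem' := by
    have h : TrivMod C K P N 1 := by
      intro v _
      have h0 : ∃ b ∈ ringA K P, (0 : FF K) = polyL K N * b := ⟨0, zero_mem _, by simp⟩
      constructor
      · intro i
        simpa using h0
      · intro γ
        simpa using h0
    exact ⟨one_mem _, h, by simpa using h⟩
  inv_mem' := by
    rintro a ⟨ha, ha1, ha2⟩
    exact ⟨inv_mem ha, ha2, by simpa using ha1⟩

/-- The maximal compact subgroup: the stabilizer in `G` of the Chevalley order over `𝒪`. -/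
def maxK : Subgroup (grp C K) where
  carrier := {g | ∀ v : LieV C (FF K), Cd (Bd K 0) (g.1 v) ↔ Cd (Bd K 0) v}
  mul_mem' := by
    intro a b ha hb v
    exact (ha (b.1 v)).trans (hb v)
  one_mem' := by
    intro v
    exact Iff.rfl
  inv_mem' := by
    intro a ha v
    have h1 := ha ((a⁻¹).1 v)
    have h2 : a.1 ((a⁻¹).1 v) = v := by
      have h : (a * a⁻¹).1 v = v := by simp
      exact h
    rw [h2] at h1
    exact h1.symm

/-- The space `X = G / K`: one class of special vertices of the Bruhat-Tits building of `G`. -/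
abbrev XX : Type := grp C K ⧸ maxK C K

/-- The `F`-points of the unipotent radical of the standard maximal parabolic subgroup `P_i`. -/
noncomputable def rad (i : Fin r) : Subgroup (grp C K) :=
  Subgroup.closure {g | ∃ (β : Rt C) (a : FF K), 0 < β.1 i ∧ ∀ v, g.1 v = rootMap β a v}

variable {C K}

/-- `f` is a cusp form of level `N` on `X`: it is invariant under the principal congruence subgroup
`Γ(N)` of `Γ = arith C K 1` and all its constant terms along the maximal parabolic subgroups
vanish.  At the cusp `γ P_i γ⁻¹` and the point `x` the constant term is the mean value of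
`y ↦ f (γ y)` over the finite orbit of `x` under any subgroup `V` of the unipotent radical such that
`V` and `rad ∩ Γ(N)` together fill the unipotent radical. -/
def IsCusp (N : Polynomial K) (f : XX C K → ℂ) : Prop :=
  (∀ γ ∈ cong C K 1 N, ∀ x, f (γ • x) = f x) ∧
  ∀ (i : Fin r), ∀ γ ∈ arith C K 1, ∀ (x : XX C K) (V : Subgroup (grp C K)),
    V ≤ rad C K i → (∀ u ∈ rad C K i, ∃ v ∈ V, ∃ n ∈ rad C K i ⊓ cong C K 1 N, u = v * n) →
    {y | ∃ v ∈ V, y = v • x}.Finite → ∑ᶠ y ∈ {y | ∃ v ∈ V, y = v • x}, f (γ • y) = 0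

/-- The Petersson inner product of two functions of level `N` on `X`: the sum over the orbits of
`Γ(N)`, weighted by the inverse of the order of the stabilizer. -/
noncomputable def petersson (N : Polynomial K) (f g : XX C K → ℂ) : ℂ :=
  ∑ᶠ o : MulAction.orbitRel.Quotient (cong C K 1 N) (XX C K),
    (starRingEnd ℂ) (f o.out) * g o.out / Nat.card (MulAction.stabilizer (cong C K 1 N) o.out)

end

/-! ## Hecke operators -/

/-- For a subgroup `L` of `H` and an `L`-bi-invariant function `κ` on `H`: the operator with kernel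
`κ(x⁻¹ y)` on `ℓ²(H / L)` has norm at most `τ` (tested on finitely supported functions). -/
def NormLE {H : Type} [Group H] (L : Subgroup H) (κ : H → ℂ) (τ : ℝ) : Prop :=
  ∀ (S T : Finset (H ⧸ L)) (φ : H ⧸ L → ℂ),
    ∑ x ∈ S, ‖∑ y ∈ T, κ (x.out⁻¹ * y.out) * φ y‖ ^ 2 ≤ τ ^ 2 * ∑ y ∈ T, ‖φ y‖ ^ 2

/-- The squared norm of `κ` in `ℓ²(H / L)`. -/
noncomputable def normSq {H : Type} [Group H] (L : Subgroup H) (κ : H → ℂ) : ℝ :=
  ∑ᶠ y : H ⧸ L, ‖κ y.out‖ ^ 2

section
variable {r : ℕ} {C : Matrix (Fin r) (Fin r) ℤ} {K : Type} [Field K]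

/-- `κ` is a spherical Hecke function of radius `R` at the place `∞`: it is `K`-bi-invariant with
finite support modulo `K`, supported on the `g` such that `g` and `g⁻¹` have entries of degree at
most `R` in the adjoint representation. -/
def HeckeInf (κ : grp C K → ℂ) (R : ℕ) : Prop :=
  (∀ k ∈ maxK C K, ∀ g, κ (k * g) = κ g ∧ κ (g * k) = κ g) ∧
  {y : XX C K | κ y.out ≠ 0}.Finite ∧
  (∀ g, κ g ≠ 0 → ∀ v : LieV C (FF K), Cd (Bd K 0) v →
    Cd (Bd K R) (g.1 v) ∧ Cd (Bd K R) ((g⁻¹).1 v))

/-- `T_κ f = lam f` for the Hecke function `κ` at the place `∞`. -/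
def EigenInf (κ : grp C K → ℂ) (lam : ℂ) (f : XX C K → ℂ) : Prop :=
  ∀ x, ∑ᶠ y : XX C K, κ (x.out⁻¹ * y.out) * f y = lam * f x

/-- `κ` is a spherical Hecke function of radius `R` at the place `P`: with `Γ = arith C K 1` and
`Γ_P = arith C K P`, so that `Γ_P / Γ = G(F_P) / G(𝒪_P)`, it is a `Γ`-bi-invariant function on
`Γ_P` with finite support modulo `Γ`, supported on the `g` such that `P ^ R g` and `P ^ R g⁻¹` are
integral in the adjoint representation. -/
def HeckeFin (P : Polynomial K) (κ : arith C K P → ℂ) (R : ℕ) : Prop :=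
  (∀ k ∈ (arith C K 1).subgroupOf (arith C K P), ∀ g, κ (k * g) = κ g ∧ κ (g * k) = κ g) ∧
  {y : (arith C K P) ⧸ (arith C K 1).subgroupOf (arith C K P) | κ y.out ≠ 0}.Finite ∧
  (∀ g, κ g ≠ 0 → ∀ v : LieV C (FF K), Cd (ringA K 1) v →
    Cd (ringA K 1) (polyL K P ^ R • (g.1.1 v)) ∧
    Cd (ringA K 1) (polyL K P ^ R • ((g⁻¹).1.1 v)))

/-- `T_κ f = lam f` for the Hecke function `κ` at the place `P`, acting on the functions of level
`N` on `X` through `Γ_P(N) / Γ(N) = Γ_P / Γ`. -/
def EigenFin (P N : Polynomial K) (κ : arith C K P → ℂ) (lam : ℂ) (f : XX C K → ℂ) : Prop :=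
  ∀ x, ∑ᶠ δ : (cong C K P N) ⧸ (cong C K 1 N).subgroupOf (cong C K P N),
    κ ⟨δ.out.1, δ.out.2.1⟩ * f ((δ.out.1)⁻¹ • x) = lam * f x

end

end Pool.Agent.DEN
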