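import Pool.Agent.Helper22_DEN.Stmt

open scoped BigOperators

namespace Pool.Agent.DEN.H22

open Pool.Agent.DEN

theorem dens (q D W r n : ℕ) (ind τ σ : ℝ) (hq : 1 < q) (hW : 0 < W) (hD : 0 < D) (hτ : 0 < τ)
    (hσ : 0 ≤ σ) (lam : Fin n → ℂ)
    (hl : ∀ j, (q : ℝ) ^ (σ * W) * τ ≤ ‖lam j‖)
    (H : ∀ m : ℕ, 2 * (m * W) < D →
      ∑ j, ‖lam j ^ m‖ ^ 2 ≤ (D : ℝ) ^ r * ind * τ ^ (2 * m)) :
    (n : ℝ) ≤ (D : ℝ) ^ r * ind * (q : ℝ) ^ (-(σ * ((D : ℝ) - 2 * W))) := by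
  have hq0 : (0 : ℝ) < q := by exact_mod_cast (by omega : 0 < q)
  have hq1 : (1 : ℝ) ≤ q := by exact_mod_cast hq.le
  set m := (D - 1) / (2 * W) with hm
  have h1 : 2 * (m * W) < D := by
    have : 2 * W * m ≤ D - 1 := Nat.mul_div_le (D - 1) (2 * W)
    have h' : 2 * (m * W) = 2 * W * m := by ring
    omega
  have h2 : D ≤ 2 * W * m + 2 * W := by
    have := Nat.lt_mul_div_succ (D - 1) (show 0 < 2 * W by omega)
    rw [← hm] at this
    have h' : 2 * W * (m + 1) = 2 * W * m + 2 * W := by ring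
    omega
  have h3 := H m h1
  have h4 : ∀ j : Fin n, ((q : ℝ) ^ (σ * W) * τ) ^ (2 * m) ≤ ‖lam j ^ m‖ ^ 2 := by
    intro j
    rw [norm_pow, ← pow_mul, mul_comm m 2]
    exact pow_le_pow_left₀ (by positivity) (hl j) _
  have h5 : (n : ℝ) * ((q : ℝ) ^ (σ * W) * τ) ^ (2 * m) ≤ (D : ℝ) ^ r * ind * τ ^ (2 * m) := by
    refine le_trans ?_ h3
    calc (n : ℝ) * ((q : ℝ) ^ (σ * W) * τ) ^ (2 * m)
        = ∑ _j : Fin n, ((q : ℝ) ^ (σ * W) * τ) ^ (2 * m) := by simp
      _ ≤ _ := Finset.sum_le_sum fun j _ => h4 j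
  rw [mul_pow, ← mul_assoc] at h5
  have h6 : (n : ℝ) * ((q : ℝ) ^ (σ * W)) ^ (2 * m) ≤ (D : ℝ) ^ r * ind :=
    le_of_mul_le_mul_right h5 (pow_pos hτ _)
  have h7 : ((q : ℝ) ^ (σ * W)) ^ (2 * m) = (q : ℝ) ^ (σ * (2 * W * m)) := by
    rw [← Real.rpow_natCast, ← Real.rpow_mul hq0.le]
    congr 1
    push_cast
    ring
  rw [h7] at h6
  have h8 : (q : ℝ) ^ (σ * ((D : ℝ) - 2 * W)) ≤ (q : ℝ) ^ (σ * (2 * W * m)) := by
    apply Real.rpow_le_rpow_of_exponent_le hq1
    apply mul_le_mul_of_nonneg_left _ hσ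
    have : (D : ℝ) ≤ 2 * W * m + 2 * W := by exact_mod_cast h2
    linarith
  have h9 : (n : ℝ) * (q : ℝ) ^ (σ * ((D : ℝ) - 2 * W)) ≤ (D : ℝ) ^ r * ind :=
    le_trans (mul_le_mul_of_nonneg_left h8 (Nat.cast_nonneg n)) h6
  rw [Real.rpow_neg hq0.le, ← div_eq_mul_inv, le_div_iff₀ (Real.rpow_pos_of_pos hq0 _)]
  exact h9

section
variable {r : ℕ} {C : Matrix (Fin r) (Fin r) ℤ} {K : Type} [Field K]

theorem card_gt [Finite K] : 1 < Nat.card K := Finite.one_lt_card

/-- There are no nonzero cusp forms if `deg N = 0`. -/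
theorem zero_case (hBir : BirStmt) (hVan : VanStmt) (hr : 0 < r) (hC : SimplyLaced C)
    (N : Polynomial K) (hN : N ≠ 0) (h0 : N.natDegree = 0) (f : XX C K → ℂ) (hf : IsCusp N f)
    (x : XX C K) : f x = 0 := by
  obtain ⟨γ, hγ, l, g, hg, hl, rfl⟩ := hBir r C hC K x
  refine hVan r C hC K N hN f hf γ hγ l g hg hl ⟨0, hr⟩ ?_
  rw [h0]
  have := hl ⟨0, hr⟩
  push_cast
  linarith

theorem n_zero (hBir : BirStmt) (hVan : VanStmt) (hr : 0 < r) (hC : SimplyLaced C)
    (N : Polynomial K) (hN : N ≠ 0) (h0 : N.natDegree = 0) (n : ℕ) (f : Fin n → XX C K → ℂ)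
    (hf : ∀ j, IsCusp N (f j)) (h1 : ∀ j, petersson N (f j) (f j) = 1) : n = 0 := by
  by_contra hn
  have hj : (0 : ℕ) < n := Nat.pos_of_ne_zero hn
  have h2 := h1 ⟨0, hj⟩
  have h3 : petersson N (f ⟨0, hj⟩) (f ⟨0, hj⟩) = 0 := by
    unfold petersson
    have : ∀ o : MulAction.orbitRel.Quotient (cong C K 1 N) (XX C K),
        (starRingEnd ℂ) (f ⟨0, hj⟩ o.out) * f ⟨0, hj⟩ o.out /
          Nat.card (MulAction.stabilizer (cong C K 1 N) o.out) = 0 := by
      intro o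
      rw [zero_case hBir hVan hr hC N hN h0 _ (hf _) o.out]
      simp
    simp only [this, finsum_zero]
  rw [h3] at h2
  exact zero_ne_one h2

theorem out_mul_inv_mem {H : Type} [Group H] (L : Subgroup H) (g : H) :
    ((QuotientGroup.mk g : H ⧸ L).out)⁻¹ * g ∈ L :=
  QuotientGroup.eq.mp (QuotientGroup.out_eq' (QuotientGroup.mk g : H ⧸ L))

theorem kap_inv {H : Type} [Group H] {L : Subgroup H} {κ : H → ℂ}
    (hκ : ∀ k ∈ L, ∀ g, κ (k * g) = κ g ∧ κ (g * k) = κ g) {g h : H}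
    (hgh : g⁻¹ * h ∈ L) : κ g = κ h := by
  have := (hκ _ hgh g).2
  rw [← this]; congr 1; group

theorem kap_inv' {H : Type} [Group H] {L : Subgroup H} {κ : H → ℂ}
    (hκ : ∀ k ∈ L, ∀ g, κ (k * g) = κ g ∧ κ (g * k) = κ g) {a b c d : H}
    (hac : a⁻¹ * c ∈ L) (hbd : b⁻¹ * d ∈ L) : κ (a⁻¹ * b) = κ (c⁻¹ * d) := by
  have h1 : κ (a⁻¹ * b) = κ (a⁻¹ * b * (b⁻¹ * d)) := ((hκ _ hbd _).2).symm
  have h2 : κ (c⁻¹ * d) = κ ((a⁻¹ * c) * (c⁻¹ * d)) := ((hκ _ hac _).1).symm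
  rw [h1, h2]; congr 1; group

/-- The eigenvalue equation at the vertex `g K` in terms of the kernel from the base point. -/
theorem eigen_pt {κ : grp C K → ℂ}
    (hκ : ∀ k ∈ maxK C K, ∀ g, κ (k * g) = κ g ∧ κ (g * k) = κ g) {lam : ℂ} {f : XX C K → ℂ}
    (h : EigenInf κ lam f) (g : grp C K) :
    ∀ x : XX C K, ∑ᶠ y : XX C K, κ (x.out⁻¹ * y.out) * f (g • y) = lam * f (g • x) := by
  intro x
  rw [← h (g • x)]
  refine finsum_eq_of_bijective (fun y => g • y) (MulAction.bijective g) fun y => ?_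
  congr 1
  have key : ∀ z : XX C K, (g * z.out)⁻¹ * (g • z).out ∈ maxK C K := by
    intro z
    have h1 : (QuotientGroup.mk (g * z.out) : XX C K) = g • z := by
      conv_rhs => rw [← QuotientGroup.out_eq' z]
      rfl
    have h2 : (QuotientGroup.mk (g • z).out : XX C K) = g • z := QuotientGroup.out_eq' _
    exact QuotientGroup.eq.mp (h1.trans h2.symm)
  have := kap_inv' hκ (key x) (key y)
  rw [← this]
  congr 1
  group

/-- The eigenvalue equation for a Hecke function acting through a quotient `H / L`. -/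
theorem eigen_fin {H : Type} [Group H] (L : Subgroup H) (κ : H → ℂ)
    (hκ : ∀ k ∈ L, ∀ g, κ (k * g) = κ g ∧ κ (g * k) = κ g) {X : Type} [MulAction H X]
    (f : X → ℂ) (hf : ∀ l ∈ L, ∀ x, f (l • x) = f x) (lam : ℂ)
    (h : ∀ x, ∑ᶠ δ : H ⧸ L, κ δ.out * f ((δ.out)⁻¹ • x) = lam * f x) (x : X) :
    ∀ x' : H ⧸ L, ∑ᶠ y : H ⧸ L, κ (x'.out⁻¹ * y.out) * f ((y.out)⁻¹ • x) =
      lam * f ((x'.out)⁻¹ • x) := by
  intro x'
  have hout : ∀ h : H, f (((QuotientGroup.mk h : H ⧸ L).out)⁻¹ • x) = f (h⁻¹ • x) := by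
    intro h
    have h1 := out_mul_inv_mem L h
    have h2 := hf _ h1 (h⁻¹ • x)
    rw [← h2, smul_smul]
    congr 2
    group
  rw [← h ((x'.out)⁻¹ • x)]
  refine (finsum_eq_of_bijective (fun y => x'.out • y)
    (MulAction.bijective x'.out) fun y => ?_).symm
  have h2 : (QuotientGroup.mk (x'.out * y.out) : H ⧸ L) = x'.out • y := by
    conv_rhs => rw [← QuotientGroup.out_eq' y]
    rfl
  have h3 := out_mul_inv_mem L (x'.out * y.out)
  rw [h2] at h3
  have h4 := kap_inv' hκ (a := x'.out) (b := (x'.out • y).out) (c := x'.out)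
    (d := x'.out * y.out) (by simp) h3
  have h5 := hout (x'.out * y.out)
  rw [h2] at h5
  rw [h5, h4]
  congr 2
  · group
  · rw [smul_smul, mul_inv_rev]

theorem eigen_fin_pow {H : Type} [Group H] (L : Subgroup H) (κ : H → ℂ)
    (hκ : ∀ k ∈ L, ∀ g, κ (k * g) = κ g ∧ κ (g * k) = κ g) {X : Type} [MulAction H X]
    (f : X → ℂ) (hf : ∀ l ∈ L, ∀ x, f (l • x) = f x) (lam : ℂ)
    (h : ∀ x, ∑ᶠ δ : H ⧸ L, κ δ.out * f ((δ.out)⁻¹ • x) = lam * f x) (m : ℕ) (c : H ⧸ L → ℂ)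
    (hc : ∀ F : H ⧸ L → ℂ, (∀ x, ∑ᶠ y, κ (x.out⁻¹ * y.out) * F y = lam * F x) →
      ∑ᶠ y, c y * F y = lam ^ m * F (QuotientGroup.mk 1)) (x : X) :
    ∑ᶠ δ : H ⧸ L, c δ * f ((δ.out)⁻¹ • x) = lam ^ m * f x := by
  have h1 := hc (fun y => f ((y.out)⁻¹ • x)) (eigen_fin L κ hκ f hf lam h x)
  rw [h1]
  congr 1
  have h2 := out_mul_inv_mem L (1 : H)
  rw [mul_one] at h2
  exact hf _ h2 x

theorem bnd_prod (hBdg : BdgStmt) (hC : SimplyLaced C) (R : ℕ) (gs : List (grp C K))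
    (h : ∀ g ∈ gs, bnd (R : ℤ) g ∧ bnd (R : ℤ) g⁻¹) :
    bnd ((gs.length * R : ℕ) : ℤ) gs.prod ∧ bnd ((gs.length * R : ℕ) : ℤ) gs.prod⁻¹ := by
  induction gs with
  | nil =>
    have h1 := ((hBdg r C hC K).2.2 (1 : grp C K)).mp (one_mem _)
    simpa using h1
  | cons g gs ih =>
    have h1 := ih (fun g' hg' => h g' (List.mem_cons_of_mem _ hg'))
    have h2 := h g List.mem_cons_self
    have hm := (hBdg r C hC K).2.1
    have e1 : (((g :: gs).length * R : ℕ) : ℤ) = (R : ℤ) + ((gs.length * R : ℕ) : ℤ) := by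
      push_cast [List.length_cons]; ring
    have e2 : (((g :: gs).length * R : ℕ) : ℤ) = ((gs.length * R : ℕ) : ℤ) + (R : ℤ) := by
      push_cast [List.length_cons]; ring
    constructor
    · rw [List.prod_cons, e1]
      exact hm _ _ _ _ h2.1 h1.1
    · rw [List.prod_cons, mul_inv_rev, e2]
      exact hm _ _ _ _ h1.2 h2.2

/-- The integrality of the powers of the denominator. -/
def itg (P : Polynomial K) (ρ : ℕ) (g : grp C K) : Prop :=
  ∀ v : LieV C (FF K), Cd (ringA K 1) v → Cd (ringA K 1) (polyL K P ^ ρ • (g.1 v))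

theorem itg_mul {P : Polynomial K} {a b : ℕ} {g h : grp C K} (hg : itg P a g) (hh : itg P b h) :
    itg P (a + b) (g * h) := by
  intro v hv
  have h1 := hg _ (hh v hv)
  have h2 : polyL K P ^ a • g.1 (polyL K P ^ b • h.1 v) = polyL K P ^ (a + b) • (g * h).1 v := by
    rw [map_smul, smul_smul, pow_add]
    rfl
  rwa [h2] at h1

theorem itg_one (P : Polynomial K) : itg P 0 (1 : grp C K) := by
  intro v hv
  simpa using hv

theorem itg_prod (P : Polynomial K) (R : ℕ) {D : Subgroup (grp C K)} (gs : List D)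
    (h : ∀ g ∈ gs, itg P R g.1 ∧ itg P R (g.1)⁻¹) :
    itg P (gs.length * R) gs.prod.1 ∧ itg P (gs.length * R) (gs.prod.1)⁻¹ := by
  induction gs with
  | nil =>
    have h1 := itg_one (C := C) P
    simpa using h1
  | cons g gs ih =>
    have h1 := ih (fun g' hg' => h g' (List.mem_cons_of_mem _ hg'))
    have h2 := h g List.mem_cons_self
    have e1 : (g :: gs).length * R = R + gs.length * R := by
      rw [List.length_cons]; ring
    have e2 : (g :: gs).length * R = gs.length * R + R := by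
      rw [List.length_cons]; ring
    constructor
    · rw [List.prod_cons, e1]
      exact itg_mul h2.1 h1.1
    · rw [List.prod_cons, e2]
      have : ((g * gs.prod).1)⁻¹ = (gs.prod.1)⁻¹ * (g.1)⁻¹ := by
        rw [Subgroup.coe_mul, mul_inv_rev]
      rw [this]
      exact itg_mul h1.2 h2.2

theorem inf_part (hBir : BirStmt) (hVan : VanStmt) (hBdg : BdgStmt) (hCnt : CntStmt)
    (hThi : ThiStmt) (hKer : KerStmt) [Finite K] (hr : 0 < r) (hC : SimplyLaced C)
    (N : Polynomial K) (hN : N ≠ 0) (n : ℕ) (f : Fin n → XX C K → ℂ)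
    (hcusp : ∀ j, IsCusp N (f j))
    (horth : ∀ i j, petersson N (f i) (f j) = if i = j then 1 else 0) (lam : Fin n → ℂ)
    (R : ℕ) (hR : 0 < R) (κ : grp C K → ℂ) (hκ : HeckeInf κ R)
    (hlam : ∀ j, EigenInf κ (lam j) (f j)) :
    (2 * R < N.natDegree → ∑ j, ‖lam j‖ ^ 2 ≤
      (N.natDegree : ℝ) ^ r * (cong C K 1 N).relIndex (arith C K 1) * normSq (maxK C K) κ) ∧
    (∀ τ σ : ℝ, 0 < τ → 0 ≤ σ → NormLE (maxK C K) κ τ →
      (∀ j, (Nat.card K : ℝ) ^ (σ * R) * τ ≤ ‖lam j‖) →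
      (n : ℝ) ≤ (N.natDegree : ℝ) ^ r * (cong C K 1 N).relIndex (arith C K 1) *
        (Nat.card K : ℝ) ^ (-(σ * ((N.natDegree : ℝ) - 2 * R)))) := by
  obtain ⟨hκ1, hκ2, hκ3⟩ := hκ
  have hone : ∀ j, petersson N (f j) (f j) = 1 := fun j => by rw [horth, if_pos rfl]
  have hbd : ∀ g, κ g ≠ 0 → bnd (R : ℤ) g ∧ bnd (R : ℤ) g⁻¹ := fun g hg =>
    ⟨fun v hv => (hκ3 g hg v hv).1, fun v hv => (hκ3 g hg v hv).2⟩
  constructor
  · intro hRN
    refine hCnt r C hC K hr N hN n f hcusp hone (fun j => ‖lam j‖ ^ 2) (fun j => by positivity)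
      (normSq (maxK C K) κ) ?_ ?_
    · exact finsum_nonneg fun y => by positivity
    · intro γ hγ l g hg hl
      refine hThi r C hC K N hN n f hcusp horth R hRN (fun y => κ y.out) ?_ ?_ lam ?_ γ hγ l g hg hl
      · exact hκ2
      · intro y hy
        exact ⟨y.out, (QuotientGroup.out_eq' y).symm, hbd _ hy⟩
      · intro j g'
        have h1 := eigen_pt hκ1 (hlam j) g' (QuotientGroup.mk 1)
        have h2 : (g' • (QuotientGroup.mk 1 : XX C K)) = pt g' := by
          show (QuotientGroup.mk (g' * 1) : XX C K) = QuotientGroup.mk g'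
          rw [mul_one]
        rw [h2] at h1
        rw [← h1]
        refine finsum_congr fun y => ?_
        congr 1
        have h3 := kap_inv' hκ1 (a := (1 : grp C K)) (b := y.out)
          (c := (QuotientGroup.mk (1 : grp C K) : XX C K).out) (d := y.out)
          (by
            have := out_mul_inv_mem (maxK C K) 1
            have h4 := (maxK C K).inv_mem this
            simpa using h4) (by simp)
        rw [← h3]
        simp
  · intro τ σ hτ hσ hnorm hl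
    by_cases hD : N.natDegree = 0
    · have := n_zero hBir hVan hr hC N hN hD n f hcusp hone
      subst this
      simp only [Nat.cast_zero]
      positivity
    · refine dens (Nat.card K) N.natDegree R r n _ τ σ card_gt hR (Nat.pos_of_ne_zero hD) hτ hσ
        lam hl ?_
      intro m hm
      obtain ⟨c, hc1, hc2, hc3, hc4⟩ := hKer (grp C K) (maxK C K) κ τ hτ.le hκ1 hκ2 hnorm m
      refine hCnt r C hC K hr N hN n f hcusp hone (fun j => ‖lam j ^ m‖ ^ 2)
        (fun j => by positivity) (τ ^ (2 * m)) (by positivity) ?_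
      intro γ hγ l g hg hl'
      refine le_trans (hThi r C hC K N hN n f hcusp horth (m * R) hm c hc1 ?_
        (fun j => lam j ^ m) ?_ γ hγ l g hg hl') ?_
      · intro y hy
        obtain ⟨gs, hgs1, hgs2, hgs3⟩ := hc2 y hy
        refine ⟨gs.prod, hgs3, ?_⟩
        have := bnd_prod hBdg hC R gs (fun g hg => hbd g (hgs2 g hg))
        rwa [hgs1] at this
      · intro j g'
        have h2 : (g' • (QuotientGroup.mk 1 : XX C K)) = pt g' := by
          show (QuotientGroup.mk (g' * 1) : XX C K) = QuotientGroup.mk g'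
          rw [mul_one]
        have := hc4 (fun y => f j (g' • y)) (lam j) (eigen_pt hκ1 (hlam j) g')
        rw [this, h2]
      · exact mul_le_mul_of_nonneg_right hc3 (by positivity)

theorem fin_part (hBir : BirStmt) (hVan : VanStmt) (hCnt : CntStmt)
    (hThf : ThfStmt) (hTrf : TrfStmt) (hKer : KerStmt) [Finite K] (hr : 0 < r)
    (hC : SimplyLaced C)
    (N : Polynomial K) (hN : N ≠ 0) (n : ℕ) (f : Fin n → XX C K → ℂ)
    (hcusp : ∀ j, IsCusp N (f j))
    (horth : ∀ i j, petersson N (f i) (f j) = if i = j then 1 else 0) (lam : Fin n → ℂ)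
    (R : ℕ) (hR : 0 < R) (P : Polynomial K) (hP : 0 < P.natDegree) (hPN : IsCoprime P N)
    (κ : arith C K P → ℂ) (hκ : HeckeFin P κ R)
    (hlam : ∀ j, EigenFin P N κ (lam j) (f j)) :
    (2 * (R * P.natDegree) < N.natDegree → ∑ j, ‖lam j‖ ^ 2 ≤
      (N.natDegree : ℝ) ^ r * (cong C K 1 N).relIndex (arith C K 1) *
        normSq ((arith C K 1).subgroupOf (arith C K P)) κ) ∧
    (∀ τ σ : ℝ, 0 < τ → 0 ≤ σ → NormLE ((arith C K 1).subgroupOf (arith C K P)) κ τ →
      (∀ j, (Nat.card K : ℝ) ^ (σ * (R * P.natDegree : ℕ)) * τ ≤ ‖lam j‖) →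
      (n : ℝ) ≤ (N.natDegree : ℝ) ^ r * (cong C K 1 N).relIndex (arith C K 1) *
        (Nat.card K : ℝ) ^ (-(σ * ((N.natDegree : ℝ) - 2 * (R * P.natDegree : ℕ))))) := by
  have hP0 : P ≠ 0 := by
    rintro rfl
    simp at hP
  obtain ⟨t1, t2, t3, t4⟩ := hTrf r C hC K P N hP0 hN hPN κ R hκ
  have hone : ∀ j, petersson N (f j) (f j) = 1 := fun j => by rw [horth, if_pos rfl]
  have hbd : ∀ a : cong C K P N, κ ⟨a.1, a.2.1⟩ ≠ 0 → itg P R a.1 ∧ itg P R (a.1)⁻¹ :=
    fun a ha => ⟨fun v hv => (hκ.2.2 ⟨a.1, a.2.1⟩ ha v hv).1,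
      fun v hv => (hκ.2.2 ⟨a.1, a.2.1⟩ ha v hv).2⟩
  constructor
  · intro hRN
    refine hCnt r C hC K hr N hN n f hcusp hone (fun j => ‖lam j‖ ^ 2) (fun j => by positivity)
      _ ?_ ?_
    · exact finsum_nonneg fun y => by positivity
    · intro γ hγ l g hg hl
      rw [← t3]
      refine hThf r C hC K N hN n f hcusp horth P hP0 hPN R (by rw [mul_assoc]; exact hRN)
        (fun y => κ ⟨y.out.1, y.out.2.1⟩) ?_ ?_ lam ?_ γ hγ l g hg hl
      · exact t2
      · intro y hy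
        refine ⟨y.out, (QuotientGroup.out_eq' y).symm, fun v hv => ?_⟩
        exact ⟨(hbd _ hy).1 v hv, (hbd _ hy).2 v hv⟩
      · intro j x
        exact hlam j x
  · intro τ σ hτ hσ hnorm hl
    by_cases hD : N.natDegree = 0
    · have := n_zero hBir hVan hr hC N hN hD n f hcusp hone
      subst this
      simp only [Nat.cast_zero]
      positivity
    · refine dens (Nat.card K) N.natDegree (R * P.natDegree) r n _ τ σ card_gt
        (Nat.mul_pos hR hP) (Nat.pos_of_ne_zero hD) hτ hσ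
        lam hl ?_
      intro m hm
      obtain ⟨c, hc1, hc2, hc3, hc4⟩ := hKer (cong C K P N)
        ((cong C K 1 N).subgroupOf (cong C K P N)) (fun δ : cong C K P N => κ ⟨δ.1, δ.2.1⟩) τ
        hτ.le t1 t2 (t4 τ hnorm) m
      refine hCnt r C hC K hr N hN n f hcusp hone (fun j => ‖lam j ^ m‖ ^ 2)
        (fun j => by positivity) (τ ^ (2 * m)) (by positivity) ?_
      intro γ hγ l g hg hl'
      refine le_trans (hThf r C hC K N hN n f hcusp horth P hP0 hPN (m * R)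
        (by
          have : 2 * (m * R) * P.natDegree = 2 * (m * (R * P.natDegree)) := by ring
          rw [this]; exact hm) c hc1 ?_
        (fun j => lam j ^ m) ?_ γ hγ l g hg hl') ?_
      · intro y hy
        obtain ⟨gs, hgs1, hgs2, hgs3⟩ := hc2 y hy
        have := itg_prod P R gs (fun g hg => hbd g (hgs2 g hg))
        rw [hgs1] at this
        exact ⟨gs.prod, hgs3, fun v hv => ⟨this.1 v hv, this.2 v hv⟩⟩
      · intro j x
        exact eigen_fin_pow (H := cong C K P N) ((cong C K 1 N).subgroupOf (cong C K P N))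
          (fun δ : cong C K P N => κ ⟨δ.1, δ.2.1⟩) t1 (f j)
          (fun l hl y => (hcusp j).1 l.1 hl y) (lam j)
          (fun y => hlam j y) m c (fun F hF => hc4 F (lam j) hF) x
      · exact mul_le_mul_of_nonneg_right hc3 (by positivity)

end

end Pool.Agent.DEN.H22
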