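import Pool.Agent.Helper22_DEN.Stmt

open scoped BigOperators

namespace Pool.Agent.DEN.H22

open Pool.Agent.DEN

section
variable {r : ℕ} {C : Matrix (Fin r) (Fin r) ℤ} {R : Type} [CommRing R]

theorem crd_self (β : Rt C) (a : R) (v : LieV C R) :
    crd (rootMap β a v) β.1 = crd v β.1 - a * pr v β.1 + a ^ 2 * crd v (-β.1) := by
  rw [crd_root, rootMap_snd_self, crd_root, ← Rt.neg_val, crd_root]

theorem crd_one (β : Rt C) (a : R) (v : LieV C R) (x : Fin r → ℤ) (hx : ip C x x = 2)
    (h : ip C β.1 x = 1) :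
    crd (rootMap β a v) x = crd v x + a * ((eps C β.1 (x - β.1) : ℤ) : R) * crd v (x - β.1) := by
  rw [crd_of _ hx, crd_of _ hx]
  exact rootMap_snd_one β a v ⟨x, hx⟩ h

theorem crd_le (β : Rt C) (a : R) (v : LieV C R) (x : Fin r → ℤ)
    (h : ip C β.1 x ≤ 0) :
    crd (rootMap β a v) x = crd v x := by
  by_cases hx : ip C x x = 2
  · rw [crd_of _ hx, crd_of _ hx]
    refine rootMap_snd_other β a v ⟨x, hx⟩ ?_ ?_
    · rintro rfl
      simp only at h
      omega
    · simp only
      omega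
  · unfold crd
    rw [dif_neg hx, dif_neg hx]

theorem fst_eq (β : Rt C) (a : R) (v : LieV C R) (i : Fin r) :
    (rootMap β a v).1 i = v.1 i - a * crd v (-β.1) * ((β.1 i : ℤ) : R) := rfl

theorem pr_rootMap (β : Rt C) (a : R) (v : LieV C R) (x : Fin r → ℤ) :
    pr (rootMap β a v) x = pr v x - a * crd v (-β.1) * ((ip C β.1 x : ℤ) : R) := by
  simp only [pr, fst_eq, sub_mul, Finset.sum_sub_distrib, ip, Int.cast_sum, Int.cast_mul,
    Finset.mul_sum, mul_assoc]

/-- Equality of two vectors from the coordinates. -/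
theorem vec_ext {v w : LieV C R} (h1 : ∀ i, v.1 i = w.1 i)
    (h2 : ∀ x, ip C x x = 2 → crd v x = crd w x) : v = w := by
  refine Prod.ext (funext h1) (funext fun γ => ?_)
  have := h2 γ.1 γ.2
  rwa [crd_root, crd_root] at this

theorem nsub'' (hC : SimplyLaced C) (α : Rt C) {x : Fin r → ℤ} (hx : ip C x x = 2)
    (hα : ip C α.1 x = 1) : ip C (x - α.1) (x - α.1) = 2 := by
  simp only [ip_sub_left, ip_sub_right, hC.ip_comm x α.1, hx, α.2, hα]; norm_num

theorem ip_eq_two' (hC : SimplyLaced C) {β : Rt C} {x : Fin r → ℤ} (hx : ip C x x = 2)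
    (h : ip C β.1 x = 2) : x = β.1 := by
  have := hC.ip_eq_two (β := β) (γ := ⟨x, hx⟩) h
  exact (congrArg Subtype.val this).symm

theorem bound' (hC : SimplyLaced C) (β : Rt C) {x : Fin r → ℤ} (hx : ip C x x = 2) :
    -2 ≤ ip C β.1 x ∧ ip C β.1 x ≤ 2 := hC.ip_bound β ⟨x, hx⟩

/-- The case `(β, γ) = 0` of the commutation. -/
theorem comm_zero (hC : SimplyLaced C) (β γ : Rt C) (a b : R) (h : ip C β.1 γ.1 = 0)
    (v : LieV C R) : rootMap β a (rootMap γ b v) = rootMap γ b (rootMap β a v) := by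
  have h' : ip C γ.1 β.1 = 0 := by rw [hC.ip_comm]; exact h
  have hsw : eps C γ.1 β.1 = eps C β.1 γ.1 := by
    have := hC.eps_swap β.1 γ.1
    rw [h, if_pos (by simp)] at this
    rcases eps_cases (C := C) β.1 γ.1 with h1 | h1 <;>
      rcases eps_cases (C := C) γ.1 β.1 with h2 | h2 <;> rw [h1, h2] at this ⊢ <;> simp at this
  have g1 : ip C γ.1 (-β.1) ≤ 0 := by rw [ip_neg_right, h']; simp
  have g2 : ip C β.1 (-γ.1) ≤ 0 := by rw [ip_neg_right, h]; simp
  refine vec_ext ?_ ?_
  · intro i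
    rw [fst_eq, fst_eq, fst_eq, fst_eq, crd_le γ b v _ g1, crd_le β a v _ g2]
    ring
  · intro x hx
    have hp := bound' hC β hx
    have hq := bound' hC γ hx
    -- symmetric cases
    have key : ∀ (β γ : Rt C) (a b : R), ip C β.1 γ.1 = 0 → ip C γ.1 β.1 = 0 →
        ip C β.1 x = 2 → crd (rootMap β a (rootMap γ b v)) x =
          crd (rootMap γ b (rootMap β a v)) x := by
      intro β γ a b h h' h2
      have hxβ := ip_eq_two' hC hx h2
      subst hxβ
      have g1 : ip C γ.1 (-β.1) ≤ 0 := by rw [ip_neg_right, h']; simp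
      rw [crd_self, crd_le γ b v _ h'.le, pr_rootMap, crd_le γ b v _ g1, h', crd_le γ b _ _ h'.le,
        crd_self]
      simp
    have key1 : ∀ (β γ : Rt C) (a b : R), ip C β.1 γ.1 = 0 → ip C γ.1 β.1 = 0 →
        ip C β.1 x = 1 → ip C γ.1 x ≤ 0 → crd (rootMap β a (rootMap γ b v)) x =
          crd (rootMap γ b (rootMap β a v)) x := by
      intro β γ a b h h' h2 h3
      have g1 : ip C γ.1 (x - β.1) ≤ 0 := by rw [ip_sub_right, h']; simpa using h3
      rw [crd_one β a _ x hx h2, crd_le γ b v _ h3, crd_le γ b v _ g1, crd_le γ b _ _ h3,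
        crd_one β a _ x hx h2]
    by_cases hp2 : ip C β.1 x = 2
    · exact key β γ a b h h' hp2
    by_cases hq2 : ip C γ.1 x = 2
    · exact (key γ β b a h' h hq2).symm
    by_cases hp1 : ip C β.1 x = 1
    · by_cases hq1 : ip C γ.1 x = 1
      · have e1 : ip C (x - β.1) (x - β.1) = 2 := by
          simp only [ip_sub_left, ip_sub_right, hC.ip_comm x β.1, hx, β.2, hp1]; norm_num
        have e2 : ip C (x - γ.1) (x - γ.1) = 2 := by
          simp only [ip_sub_left, ip_sub_right, hC.ip_comm x γ.1, hx, γ.2, hq1]; norm_num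
        have g3 : ip C γ.1 (x - β.1) = 1 := by rw [ip_sub_right, h', hq1]; norm_num
        have g4 : ip C β.1 (x - γ.1) = 1 := by rw [ip_sub_right, h, hp1]; norm_num
        rw [crd_one β a _ x hx hp1, crd_one γ b _ x hx hq1, crd_one γ b _ _ e1 g3,
          crd_one γ b _ x hx hq1, crd_one β a _ x hx hp1, crd_one β a _ _ e2 g4]
        have e3 : x - β.1 - γ.1 = x - γ.1 - β.1 := by abel
        rw [e3]
        simp only [eps_sub_right, hsw]
        push_cast
        ring
      · exact key1 β γ a b h h' hp1 (by omega)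
    · by_cases hq1 : ip C γ.1 x = 1
      · exact (key1 γ β b a h' h hq1 (by omega)).symm
      · rw [crd_le β a _ _ (by omega), crd_le γ b _ _ (by omega), crd_le γ b _ _ (by omega),
          crd_le β a _ _ (by omega)]

/-- The case `(β, γ) = 1` of the commutation. -/
theorem comm_one (hC : SimplyLaced C) (β γ : Rt C) (a b : R) (h : ip C β.1 γ.1 = 1)
    (v : LieV C R) : rootMap β a (rootMap γ b v) = rootMap γ b (rootMap β a v) := by
  have h' : ip C γ.1 β.1 = 1 := by rw [hC.ip_comm]; exact h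
  have hsw : eps C γ.1 β.1 = - eps C β.1 γ.1 := by
    have := hC.eps_swap β.1 γ.1
    rw [h, if_neg (by decide)] at this
    rcases eps_cases (C := C) β.1 γ.1 with h1 | h1 <;>
      rcases eps_cases (C := C) γ.1 β.1 with h2 | h2 <;> rw [h1, h2] at this ⊢ <;> simp at this ⊢
  have g1 : ip C γ.1 (-β.1) ≤ 0 := by rw [ip_neg_right, h']; simp
  have g2 : ip C β.1 (-γ.1) ≤ 0 := by rw [ip_neg_right, h]; simp
  refine vec_ext ?_ ?_
  · intro i
    rw [fst_eq, fst_eq, fst_eq, fst_eq, crd_le γ b v _ g1, crd_le β a v _ g2]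
    ring
  · intro x hx
    have hp := bound' hC β hx
    have hq := bound' hC γ hx
    -- `x = β`
    have key : ∀ (β γ : Rt C) (a b : R), ip C β.1 γ.1 = 1 → ip C γ.1 β.1 = 1 →
        eps C γ.1 β.1 = - eps C β.1 γ.1 →
        ip C β.1 x = 2 → crd (rootMap β a (rootMap γ b v)) x =
          crd (rootMap γ b (rootMap β a v)) x := by
      intro β γ a b h h' hsw h2
      have hxβ := ip_eq_two' hC hx h2
      subst hxβ
      have g1 : ip C γ.1 (-β.1) ≤ 0 := by rw [ip_neg_right, h']; simp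
      have g2 : ip C β.1 (-γ.1) ≤ 0 := by rw [ip_neg_right, h]; simp
      have g3 : ip C β.1 (β.1 - γ.1) = 1 := by rw [ip_sub_right, h, h2]; norm_num
      have e1 : ip C (β.1 - γ.1) (β.1 - γ.1) = 2 := by
        simp only [ip_sub_left, ip_sub_right, hx, γ.2, h', h]; norm_num
      have e2 : β.1 - γ.1 - β.1 = -γ.1 := by abel
      rw [crd_self, crd_one γ b v _ hx h', pr_rootMap, crd_le γ b v _ g1, h',
        crd_one γ b _ _ hx h', crd_self, crd_one β a v _ e1 g3, e2]
      simp only [eps_sub_right, eps_neg_right, hsw, hC.eps_self]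
      push_cast
      rcases eps_cases (C := C) β.1 γ.1 with h1 | h1 <;> rw [h1] <;> push_cast <;> ring
    have key1 : ∀ (β γ : Rt C) (a b : R), ip C β.1 γ.1 = 1 → ip C γ.1 β.1 = 1 →
        ip C β.1 x = 1 → ip C γ.1 x ≤ 0 → crd (rootMap β a (rootMap γ b v)) x =
          crd (rootMap γ b (rootMap β a v)) x := by
      intro β γ a b h h' h2 h3
      have g1 : ip C γ.1 (x - β.1) ≤ 0 := by rw [ip_sub_right, h']; omega
      rw [crd_one β a _ x hx h2, crd_le γ b v _ h3, crd_le γ b v _ g1, crd_le γ b _ _ h3,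
        crd_one β a _ x hx h2]
    by_cases hp2 : ip C β.1 x = 2
    · exact key β γ a b h h' hsw hp2
    by_cases hq2 : ip C γ.1 x = 2
    · exact (key γ β b a h' h (by rw [hsw]; ring) hq2).symm
    by_cases hp1 : ip C β.1 x = 1
    · by_cases hq1 : ip C γ.1 x = 1
      · have g3 : ip C γ.1 (x - β.1) ≤ 0 := by rw [ip_sub_right, h', hq1]; norm_num
        have g4 : ip C β.1 (x - γ.1) ≤ 0 := by rw [ip_sub_right, h, hp1]; norm_num
        rw [crd_one β a _ x hx hp1, crd_one γ b _ x hx hq1, crd_le γ b _ _ g3,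
          crd_one γ b _ x hx hq1, crd_one β a _ x hx hp1, crd_le β a _ _ g4]
        ring
      · exact key1 β γ a b h h' hp1 (by omega)
    · by_cases hq1 : ip C γ.1 x = 1
      · exact (key1 γ β b a h' h hq1 (by omega)).symm
      · rw [crd_le β a _ _ (by omega), crd_le γ b _ _ (by omega), crd_le γ b _ _ (by omega),
          crd_le β a _ _ (by omega)]

theorem relA : RelAStmt := by
  intro r C hC R _ β γ a b h
  have hb := hC.ip_bound β γ
  obtain h2 | h2 | h2 : ip C β.1 γ.1 = 2 ∨ ip C β.1 γ.1 = 1 ∨ ip C β.1 γ.1 = 0 := by omega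
  · have := hC.ip_eq_two h2
    subst this
    rw [← xr_add, ← xr_add, add_comm]
  · ext1 v
    exact comm_one hC β γ a b h2 v
  · ext1 v
    exact comm_zero hC β γ a b h2 v

end

end Pool.Agent.DEN.H22
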