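import Pool.Agent.Helper22_DEN.Rel

open scoped BigOperators

namespace Pool.Agent.DEN.H22

open Pool.Agent.DEN

section
variable {r : ℕ} {C : Matrix (Fin r) (Fin r) ℤ} {R : Type} [CommRing R]

theorem swap_neg (hC : SimplyLaced C) (β γ : Rt C) (h : ip C β.1 γ.1 = -1) :
    eps C γ.1 β.1 = - eps C β.1 γ.1 := by
  have := hC.eps_swap β.1 γ.1
  rw [h, if_neg (by decide)] at this
  rcases eps_cases (C := C) β.1 γ.1 with h1 | h1 <;>
    rcases eps_cases (C := C) γ.1 β.1 with h2 | h2 <;> rw [h1, h2] at this ⊢ <;> simp at this ⊢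

theorem nsub' (hC : SimplyLaced C) (α : Rt C) {x : Fin r → ℤ} (hx : ip C x x = 2)
    (hα : ip C α.1 x = 1) : ip C (x - α.1) (x - α.1) = 2 := by
  simp only [ip_sub_left, ip_sub_right, hC.ip_comm x α.1, hx, α.2, hα]; norm_num

/-- The statement of the commutator formula on the coordinate `x`. -/
def CF (β γ δ : Rt C) (a b : R) (v : LieV C R) (x : Fin r → ℤ) : Prop :=
  crd (rootMap β a (rootMap γ b v)) x =
    crd (rootMap γ b (rootMap δ (((eps C β.1 γ.1 : ℤ) : R) * a * b) (rootMap β a v))) x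

theorem relB_fst (hC : SimplyLaced C) (β γ δ : Rt C) (a b : R) (h : ip C β.1 γ.1 = -1)
    (hδ : δ.1 = β.1 + γ.1) (v : LieV C R) (i : Fin r) :
    (rootMap β a (rootMap γ b v)).1 i =
      (rootMap γ b (rootMap δ (((eps C β.1 γ.1 : ℤ) : R) * a * b) (rootMap β a v))).1 i := by
  have h' : ip C γ.1 β.1 = -1 := by rw [hC.ip_comm]; exact h
  have hsw := swap_neg hC β γ h
  have iδ : ∀ x, ip C δ.1 x = ip C β.1 x + ip C γ.1 x := fun x => by rw [hδ, ip_add_left]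
  have g1 : ip C γ.1 (-β.1) = 1 := by rw [ip_neg_right, h']; norm_num
  have n1 : ip C (-β.1) (-β.1) = 2 := by rw [ip_neg_left, ip_neg_right, neg_neg, β.2]
  have n2 : ip C (-γ.1) (-γ.1) = 2 := by rw [ip_neg_left, ip_neg_right, neg_neg, γ.2]
  have g2 : ip C β.1 (-γ.1) = 1 := by rw [ip_neg_right, h]; norm_num
  have g3 : ip C δ.1 (-γ.1) ≤ 0 := by rw [iδ, ip_neg_right, ip_neg_right, h, γ.2]; norm_num
  have g4 : ip C β.1 (-δ.1) ≤ 0 := by rw [ip_neg_right, hδ, ip_add_right, h, β.2]; norm_num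
  have e1 : -β.1 - γ.1 = -δ.1 := by rw [hδ]; abel
  have e2 : -γ.1 - β.1 = -δ.1 := by rw [hδ]; abel
  rw [fst_eq, fst_eq, fst_eq, fst_eq, fst_eq, crd_one γ b v _ n1 g1, crd_le δ _ _ _ g3,
    crd_one β a v _ n2 g2, crd_le β a v _ g4, e1, e2]
  have hδi : (δ.1 i : R) = (β.1 i : R) + (γ.1 i : R) := by
    have := congrFun hδ i
    rw [Pi.add_apply] at this
    rw [this]; push_cast; ring
  rw [hδi]
  simp only [hδ, eps_neg_right, eps_add_right, hC.eps_self, hsw]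
  rcases eps_cases (C := C) β.1 γ.1 with h1 | h1 <;> rw [h1] <;> push_cast <;> ring

theorem relB_10 (hC : SimplyLaced C) (β γ δ : Rt C) (a b : R) (h : ip C β.1 γ.1 = -1)
    (hδ : δ.1 = β.1 + γ.1) (v : LieV C R) (x : Fin r → ℤ) (hx : ip C x x = 2)
    (h1 : ip C β.1 x = 1) (h2 : ip C γ.1 x = 0) : CF β γ δ a b v x := by
  have h' : ip C γ.1 β.1 = -1 := by rw [hC.ip_comm]; exact h
  have hsw := swap_neg hC β γ h
  have iδ : ∀ x, ip C δ.1 x = ip C β.1 x + ip C γ.1 x := fun x => by rw [hδ, ip_add_left]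
  have e1 : ip C γ.1 (x - β.1) = 1 := by rw [ip_sub_right, h2, h']; norm_num
  have n1 := nsub' hC β hx h1
  have d1 : ip C δ.1 x = 1 := by rw [iδ, h1, h2]; norm_num
  have n2 := nsub' hC δ hx d1
  have b1 : ip C β.1 (x - δ.1) ≤ 0 := by
    rw [ip_sub_right, hδ, ip_add_right, β.2, h, h1]; norm_num
  have x1 : x - β.1 - γ.1 = x - δ.1 := by rw [hδ]; abel
  unfold CF
  rw [crd_one β a _ x hx h1, crd_le γ b v x h2.le, crd_one γ b v _ n1 e1, x1,
    crd_le γ b _ x h2.le, crd_one δ _ _ x hx d1, crd_one β a v x hx h1, crd_le β a v _ b1]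
  simp only [eps_sub_right, hδ, eps_add_right, eps_add_left, hC.eps_self, hsw]
  rcases eps_cases (C := C) β.1 γ.1 with h3 | h3 <;> rw [h3] <;> push_cast <;> ring

theorem relB_01 (hC : SimplyLaced C) (β γ δ : Rt C) (a b : R) (h : ip C β.1 γ.1 = -1)
    (hδ : δ.1 = β.1 + γ.1) (v : LieV C R) (x : Fin r → ℤ) (hx : ip C x x = 2)
    (h1 : ip C β.1 x = 0) (h2 : ip C γ.1 x = 1) : CF β γ δ a b v x := by
  have h' : ip C γ.1 β.1 = -1 := by rw [hC.ip_comm]; exact h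
  have hsw := swap_neg hC β γ h
  have iδ : ∀ x, ip C δ.1 x = ip C β.1 x + ip C γ.1 x := fun x => by rw [hδ, ip_add_left]
  have n1 := nsub' hC γ hx h2
  have d1 : ip C δ.1 x = 1 := by rw [iδ, h1, h2]; norm_num
  have b1 : ip C β.1 (x - δ.1) ≤ 0 := by
    rw [ip_sub_right, hδ, ip_add_right, β.2, h, h1]; norm_num
  have b2 : ip C β.1 (x - γ.1) = 1 := by
    rw [ip_sub_right, h, h1]; norm_num
  have d2 : ip C δ.1 (x - γ.1) ≤ 0 := by
    rw [iδ, ip_sub_right, ip_sub_right, h, γ.2, h1, h2]; norm_num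
  have x1 : x - γ.1 - β.1 = x - δ.1 := by rw [hδ]; abel
  unfold CF
  rw [crd_le β a _ x h1.le, crd_one γ b v x hx h2, crd_one γ b _ x hx h2, crd_one δ _ _ x hx d1,
    crd_le δ _ _ _ d2, crd_le β a v x h1.le, crd_le β a v _ b1, crd_one β a v _ n1 b2, x1]
  simp only [eps_sub_right, hδ, eps_add_right, eps_add_left, hC.eps_self, hsw]
  rcases eps_cases (C := C) β.1 γ.1 with h3 | h3 <;> rw [h3] <;> push_cast <;> ring

theorem relB_1m (hC : SimplyLaced C) (β γ δ : Rt C) (a b : R) (h : ip C β.1 γ.1 = -1)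
    (hδ : δ.1 = β.1 + γ.1) (v : LieV C R) (x : Fin r → ℤ) (hx : ip C x x = 2)
    (h1 : ip C β.1 x = 1) (h2 : ip C γ.1 x = -1) : CF β γ δ a b v x := by
  have h' : ip C γ.1 β.1 = -1 := by rw [hC.ip_comm]; exact h
  have iδ : ∀ x, ip C δ.1 x = ip C β.1 x + ip C γ.1 x := fun x => by rw [hδ, ip_add_left]
  have e1 : ip C γ.1 (x - β.1) ≤ 0 := by rw [ip_sub_right, h2, h']; norm_num
  have d1 : ip C δ.1 x ≤ 0 := by rw [iδ, h1, h2]; norm_num
  unfold CF
  rw [crd_one β a _ x hx h1, crd_le γ b v x (by omega), crd_le γ b v _ e1,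
    crd_le γ b _ x (by omega), crd_le δ _ _ x d1, crd_one β a v x hx h1]

theorem relB_m1 (hC : SimplyLaced C) (β γ δ : Rt C) (a b : R) (h : ip C β.1 γ.1 = -1)
    (hδ : δ.1 = β.1 + γ.1) (v : LieV C R) (x : Fin r → ℤ) (hx : ip C x x = 2)
    (h1 : ip C β.1 x = -1) (h2 : ip C γ.1 x = 1) : CF β γ δ a b v x := by
  have h' : ip C γ.1 β.1 = -1 := by rw [hC.ip_comm]; exact h
  have iδ : ∀ x, ip C δ.1 x = ip C β.1 x + ip C γ.1 x := fun x => by rw [hδ, ip_add_left]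
  have d1 : ip C δ.1 x ≤ 0 := by rw [iδ, h1, h2]; norm_num
  have b2 : ip C β.1 (x - γ.1) ≤ 0 := by rw [ip_sub_right, h, h1]; norm_num
  have d2 : ip C δ.1 (x - γ.1) ≤ 0 := by
    rw [iδ, ip_sub_right, ip_sub_right, h, γ.2, h1, h2]; norm_num
  unfold CF
  rw [crd_le β a _ x (by omega), crd_one γ b v x hx h2, crd_one γ b _ x hx h2,
    crd_le δ _ _ x d1, crd_le δ _ _ _ d2, crd_le β a v x (by omega), crd_le β a v _ b2]

/-- `x = β`. -/
theorem relB_b (hC : SimplyLaced C) (β γ δ : Rt C) (a b : R) (h : ip C β.1 γ.1 = -1)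
    (hδ : δ.1 = β.1 + γ.1) (v : LieV C R) : CF β γ δ a b v β.1 := by
  have h' : ip C γ.1 β.1 = -1 := by rw [hC.ip_comm]; exact h
  have hsw := swap_neg hC β γ h
  have iδ : ∀ x, ip C δ.1 x = ip C β.1 x + ip C γ.1 x := fun x => by rw [hδ, ip_add_left]
  have g1 : ip C γ.1 (-β.1) = 1 := by rw [ip_neg_right, h']; norm_num
  have n1 : ip C (-β.1) (-β.1) = 2 := by rw [ip_neg_left, ip_neg_right, neg_neg, β.2]
  have n2 : ip C (-γ.1) (-γ.1) = 2 := by rw [ip_neg_left, ip_neg_right, neg_neg, γ.2]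
  have d1 : ip C δ.1 β.1 = 1 := by rw [iδ, β.2, h']; norm_num
  have b2 : ip C β.1 (-γ.1) = 1 := by rw [ip_neg_right, h]; norm_num
  have e1 : -β.1 - γ.1 = -δ.1 := by rw [hδ]; abel
  have e2 : β.1 - δ.1 = -γ.1 := by rw [hδ]; abel
  have e3 : -γ.1 - β.1 = -δ.1 := by rw [hδ]; abel
  unfold CF
  rw [crd_self, crd_le γ b v _ (by omega), pr_rootMap, h', crd_one γ b v _ n1 g1, e1,
    crd_le γ b _ β.1 (by omega), crd_one δ _ _ β.1 β.2 d1, e2, crd_self,
    crd_one β a v _ n2 b2, e3]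
  simp only [eps_sub_right, hδ, eps_add_right, eps_add_left, eps_neg_right, hC.eps_self, hsw]
  rcases eps_cases (C := C) β.1 γ.1 with h3 | h3 <;> rw [h3] <;> push_cast <;> ring

/-- `x = γ`. -/
theorem relB_g (hC : SimplyLaced C) (β γ δ : Rt C) (a b : R) (h : ip C β.1 γ.1 = -1)
    (hδ : δ.1 = β.1 + γ.1) (v : LieV C R) : CF β γ δ a b v γ.1 := by
  have h' : ip C γ.1 β.1 = -1 := by rw [hC.ip_comm]; exact h
  have hsw := swap_neg hC β γ h
  have iδ : ∀ x, ip C δ.1 x = ip C β.1 x + ip C γ.1 x := fun x => by rw [hδ, ip_add_left]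
  have n2 : ip C (-γ.1) (-γ.1) = 2 := by rw [ip_neg_left, ip_neg_right, neg_neg, γ.2]
  have d1 : ip C δ.1 γ.1 = 1 := by rw [iδ, γ.2, h]; norm_num
  have d2 : ip C δ.1 (-γ.1) ≤ 0 := by rw [ip_neg_right, d1]; norm_num
  have b2 : ip C β.1 (-γ.1) = 1 := by rw [ip_neg_right, h]; norm_num
  have b3 : ip C β.1 (-β.1) ≤ 0 := by rw [ip_neg_right, β.2]; norm_num
  have b4 : ip C β.1 (-δ.1) ≤ 0 := by rw [ip_neg_right, hδ, ip_add_right, h, β.2]; norm_num
  have e2 : γ.1 - δ.1 = -β.1 := by rw [hδ]; abel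
  have e3 : -γ.1 - β.1 = -δ.1 := by rw [hδ]; abel
  unfold CF
  rw [crd_le β a _ _ (by omega), crd_self, crd_self, crd_one δ _ _ γ.1 γ.2 d1, e2,
    crd_le β a v γ.1 (by omega), crd_le β a v _ b3, pr_rootMap, pr_rootMap, d1, h,
    crd_le δ _ _ _ d2, crd_le β a v _ b4, crd_one β a v _ n2 b2, e3]
  simp only [eps_sub_right, hδ, eps_add_right, eps_add_left, eps_neg_right, hC.eps_self, hsw]
  rcases eps_cases (C := C) β.1 γ.1 with h3 | h3 <;> rw [h3] <;> push_cast <;> ring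

/-- `x = -β`. -/
theorem relB_nb (hC : SimplyLaced C) (β γ δ : Rt C) (a b : R) (h : ip C β.1 γ.1 = -1)
    (hδ : δ.1 = β.1 + γ.1) (v : LieV C R) : CF β γ δ a b v (-β.1) := by
  have h' : ip C γ.1 β.1 = -1 := by rw [hC.ip_comm]; exact h
  have iδ : ∀ x, ip C δ.1 x = ip C β.1 x + ip C γ.1 x := fun x => by rw [hδ, ip_add_left]
  have g1 : ip C γ.1 (-β.1) = 1 := by rw [ip_neg_right, h']; norm_num
  have n1 : ip C (-β.1) (-β.1) = 2 := by rw [ip_neg_left, ip_neg_right, neg_neg, β.2]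
  have b3 : ip C β.1 (-β.1) ≤ 0 := by rw [ip_neg_right, β.2]; norm_num
  have b4 : ip C β.1 (-δ.1) ≤ 0 := by rw [ip_neg_right, hδ, ip_add_right, h, β.2]; norm_num
  have d1 : ip C δ.1 (-β.1) ≤ 0 := by rw [iδ, g1, ip_neg_right, β.2]; norm_num
  have d2 : ip C δ.1 (-δ.1) ≤ 0 := by rw [ip_neg_right, δ.2]; norm_num
  have e1 : -β.1 - γ.1 = -δ.1 := by rw [hδ]; abel
  unfold CF
  rw [crd_le β a _ _ b3, crd_one γ b v _ n1 g1, crd_one γ b _ _ n1 g1, e1, crd_le δ _ _ _ d1,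
    crd_le β a v _ b3, crd_le δ _ _ _ d2, crd_le β a v _ b4]

/-- `x = -γ`. -/
theorem relB_ng (hC : SimplyLaced C) (β γ δ : Rt C) (a b : R) (h : ip C β.1 γ.1 = -1)
    (hδ : δ.1 = β.1 + γ.1) (v : LieV C R) : CF β γ δ a b v (-γ.1) := by
  have h' : ip C γ.1 β.1 = -1 := by rw [hC.ip_comm]; exact h
  have iδ : ∀ x, ip C δ.1 x = ip C β.1 x + ip C γ.1 x := fun x => by rw [hδ, ip_add_left]
  have n2 : ip C (-γ.1) (-γ.1) = 2 := by rw [ip_neg_left, ip_neg_right, neg_neg, γ.2]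
  have b2 : ip C β.1 (-γ.1) = 1 := by rw [ip_neg_right, h]; norm_num
  have g2 : ip C γ.1 (-γ.1) ≤ 0 := by rw [ip_neg_right, γ.2]; norm_num
  have g3 : ip C γ.1 (-δ.1) ≤ 0 := by rw [ip_neg_right, hδ, ip_add_right, h', γ.2]; norm_num
  have d1 : ip C δ.1 (-γ.1) ≤ 0 := by rw [iδ, b2, ip_neg_right, γ.2]; norm_num
  have e1 : -γ.1 - β.1 = -δ.1 := by rw [hδ]; abel
  unfold CF
  rw [crd_one β a _ _ n2 b2, crd_le γ b v _ g2, e1, crd_le γ b v _ g3, crd_le γ b _ _ g2,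
    crd_le δ _ _ _ d1, crd_one β a v _ n2 b2, e1]

/-- `x = δ`. -/
theorem relB_d (hC : SimplyLaced C) (β γ δ : Rt C) (a b : R) (h : ip C β.1 γ.1 = -1)
    (hδ : δ.1 = β.1 + γ.1) (v : LieV C R) : CF β γ δ a b v δ.1 := by
  have h' : ip C γ.1 β.1 = -1 := by rw [hC.ip_comm]; exact h
  have hsw := swap_neg hC β γ h
  have iδ : ∀ x, ip C δ.1 x = ip C β.1 x + ip C γ.1 x := fun x => by rw [hδ, ip_add_left]
  have n2 : ip C (-γ.1) (-γ.1) = 2 := by rw [ip_neg_left, ip_neg_right, neg_neg, γ.2]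
  have b1 : ip C β.1 δ.1 = 1 := by rw [hδ, ip_add_right, h, β.2]; norm_num
  have g1 : ip C γ.1 δ.1 = 1 := by rw [hδ, ip_add_right, h', γ.2]; norm_num
  have d1 : ip C δ.1 β.1 = 1 := by rw [iδ, β.2, h']; norm_num
  have b2 : ip C β.1 (-γ.1) = 1 := by rw [ip_neg_right, h]; norm_num
  have b4 : ip C β.1 (-δ.1) ≤ 0 := by rw [ip_neg_right, b1]; norm_num
  have e1 : δ.1 - β.1 = γ.1 := by rw [hδ]; abel
  have e2 : δ.1 - γ.1 = β.1 := by rw [hδ]; abel
  have e3 : β.1 - δ.1 = -γ.1 := by rw [hδ]; abel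
  have e4 : -γ.1 - β.1 = -δ.1 := by rw [hδ]; abel
  have prδ : pr v δ.1 = pr v β.1 + pr v γ.1 := by
    rw [hδ]
    simp only [pr, Pi.add_apply, Int.cast_add, mul_add, Finset.sum_add_distrib]
  unfold CF
  rw [crd_one β a _ _ δ.2 b1, crd_one γ b v _ δ.2 g1, e1, e2, crd_self γ b v,
    crd_one γ b _ _ δ.2 g1, e2, crd_self δ, crd_one β a v _ δ.2 b1, e1, pr_rootMap, b1,
    crd_le β a v _ b4, crd_one δ _ _ β.1 β.2 d1, e3, crd_self, crd_one β a v _ n2 b2, e4, prδ]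
  simp only [eps_sub_right, hδ, eps_add_right, eps_add_left, eps_neg_right, hC.eps_self, hsw]
  rcases eps_cases (C := C) β.1 γ.1 with h3 | h3 <;> rw [h3] <;> push_cast <;> ring

theorem relB_aux (hC : SimplyLaced C) (β γ δ : Rt C) (a b : R) (h : ip C β.1 γ.1 = -1)
    (hδ : δ.1 = β.1 + γ.1) (v : LieV C R) :
    rootMap β a (rootMap γ b v) =
      rootMap γ b (rootMap δ (((eps C β.1 γ.1 : ℤ) : R) * a * b) (rootMap β a v)) := by
  have h' : ip C γ.1 β.1 = -1 := by rw [hC.ip_comm]; exact h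
  have iδ : ∀ x, ip C δ.1 x = ip C β.1 x + ip C γ.1 x := fun x => by rw [hδ, ip_add_left]
  refine vec_ext (relB_fst hC β γ δ a b h hδ v) ?_
  intro x hx
  show CF β γ δ a b v x
  have hp := bound' hC β hx
  have hq := bound' hC γ hx
  have hpq := bound' hC δ hx
  rw [iδ] at hpq
  by_cases h1 : ip C β.1 x = 2
  · rw [ip_eq_two' hC hx h1]
    exact relB_b hC β γ δ a b h hδ v
  by_cases h2 : ip C γ.1 x = 2
  · rw [ip_eq_two' hC hx h2]
    exact relB_g hC β γ δ a b h hδ v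
  by_cases h3 : ip C β.1 x = -2
  · have : ip C β.neg.1 x = 2 := by rw [Rt.neg_val, ip_neg_left, h3]; norm_num
    rw [ip_eq_two' hC hx this]
    exact relB_nb hC β γ δ a b h hδ v
  by_cases h4 : ip C γ.1 x = -2
  · have : ip C γ.neg.1 x = 2 := by rw [Rt.neg_val, ip_neg_left, h4]; norm_num
    rw [ip_eq_two' hC hx this]
    exact relB_ng hC β γ δ a b h hδ v
  by_cases h5 : ip C δ.1 x = 2
  · rw [ip_eq_two' hC hx h5]
    exact relB_d hC β γ δ a b h hδ v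
  rw [iδ] at h5
  by_cases h6 : ip C β.1 x = 1
  · by_cases h7 : ip C γ.1 x = 0
    · exact relB_10 hC β γ δ a b h hδ v x hx h6 h7
    · exact relB_1m hC β γ δ a b h hδ v x hx h6 (by omega)
  by_cases h8 : ip C γ.1 x = 1
  · by_cases h9 : ip C β.1 x = 0
    · exact relB_01 hC β γ δ a b h hδ v x hx h9 h8
    · exact relB_m1 hC β γ δ a b h hδ v x hx (by omega) h8
  unfold CF
  rw [crd_le β a _ x (by omega), crd_le γ b v x (by omega), crd_le γ b _ x (by omega),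
    crd_le δ _ _ x (by rw [iδ]; omega), crd_le β a v x (by omega)]

theorem relB : RelBStmt := by
  intro r C hC R _ β γ δ a b h hδ
  ext1 v
  exact relB_aux hC β γ δ a b h hδ v

end

end Pool.Agent.DEN.H22
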