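import Pool.Agent.Helper22_DEN.Rel

open scoped BigOperators

namespace Pool.Agent.DEN.H22

open Pool.Agent.DEN

section
variable {r : ℕ} {C : Matrix (Fin r) (Fin r) ℤ} {F : Type} [Field F]

/-- The action of `w_β(c)`. -/
def wmap (β : Rt C) (c : F) (v : LieV C F) : LieV C F :=
  rootMap β c (rootMap β.neg c⁻¹ (rootMap β c v))

theorem pr_neg (v : LieV C F) (x : Fin r → ℤ) : pr v (-x) = - pr v x := by
  simp only [pr, Pi.neg_apply, Int.cast_neg, mul_neg, Finset.sum_neg_distrib]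

theorem w_mid (β : Rt C) (c : F) (hc : c ≠ 0) (v : LieV C F) :
    crd (rootMap β.neg c⁻¹ (rootMap β c v)) (-β.1) = (c ^ 2)⁻¹ * crd v β.1 := by
  have h1 : ip C β.1 (-β.1) ≤ 0 := by rw [ip_neg_right, β.2]; norm_num
  have e : -(-β.1) = β.1 := neg_neg _
  rw [← Rt.neg_val, crd_self, Rt.neg_val, e, crd_le β c v _ h1, crd_self, pr_neg, pr_rootMap, β.2]
  push_cast
  field_simp
  ring

theorem w_fst (β : Rt C) (c : F) (hc : c ≠ 0) (v : LieV C F) (i : Fin r) :
    (wmap β c v).1 i = v.1 i - pr v β.1 * ((β.1 i : ℤ) : F) := by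
  have e : -(-β.1) = β.1 := neg_neg _
  unfold wmap
  rw [fst_eq, w_mid β c hc v, fst_eq, fst_eq, Rt.neg_val, e, crd_self]
  simp only [Pi.neg_apply, Int.cast_neg]
  field_simp
  ring

theorem w_self (β : Rt C) (c : F) (hc : c ≠ 0) (v : LieV C F) :
    crd (wmap β c v) β.1 = c ^ 2 * crd v (-β.1) := by
  have h1 : ip C β.neg.1 β.1 ≤ 0 := by rw [Rt.neg_val, ip_neg_left, β.2]; norm_num
  have e : -(-β.1) = β.1 := neg_neg _
  unfold wmap
  rw [crd_self, w_mid β c hc v, crd_le β.neg _ _ _ h1, pr_rootMap, Rt.neg_val, e, pr_rootMap,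
    ip_neg_left, β.2, crd_self]
  push_cast
  field_simp
  ring

theorem w_neg (β : Rt C) (c : F) (hc : c ≠ 0) (v : LieV C F) :
    crd (wmap β c v) (-β.1) = (c ^ 2)⁻¹ * crd v β.1 := by
  have h1 : ip C β.1 (-β.1) ≤ 0 := by rw [ip_neg_right, β.2]; norm_num
  unfold wmap
  rw [crd_le β c _ _ h1, w_mid β c hc v]

theorem w_one (hC : SimplyLaced C) (β : Rt C) (c : F) (hc : c ≠ 0) (v : LieV C F)
    (x : Fin r → ℤ) (hx : ip C x x = 2) (h : ip C β.1 x = 1) :
    crd (wmap β c v) x = c * ((eps C β.1 (x - β.1) : ℤ) : F) * crd v (x - β.1) := by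
  have n1 := nsub'' hC β hx h
  have h1 : ip C β.neg.1 x ≤ 0 := by rw [Rt.neg_val, ip_neg_left, h]; norm_num
  have h2 : ip C β.neg.1 (x - β.1) = 1 := by
    rw [Rt.neg_val, ip_neg_left, ip_sub_right, h, β.2]; norm_num
  have h3 : ip C β.1 (x - β.1) ≤ 0 := by rw [ip_sub_right, h, β.2]; norm_num
  have e1 : x - β.1 - -β.1 = x := by abel
  unfold wmap
  rw [crd_one β c _ x hx h, crd_le β.neg _ _ x h1, crd_one β.neg _ _ _ n1 h2, Rt.neg_val, e1,
    crd_one β c v x hx h, crd_le β c v _ h3]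
  simp only [eps_sub_right, eps_neg_left, hC.eps_self]
  rcases eps_cases (C := C) β.1 x with h3 | h3 <;> rw [h3] <;> push_cast <;> field_simp <;> ring

theorem w_mone (hC : SimplyLaced C) (β : Rt C) (c : F) (hc : c ≠ 0) (v : LieV C F)
    (x : Fin r → ℤ) (hx : ip C x x = 2) (h : ip C β.1 x = -1) :
    crd (wmap β c v) x = c⁻¹ * ((eps C β.1 (x + β.1) : ℤ) : F) * crd v (x + β.1) := by
  have n1 : ip C (x + β.1) (x + β.1) = 2 := by
    simp only [ip_add_left, ip_add_right, hC.ip_comm x β.1, hx, β.2, h]; norm_num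
  have h1 : ip C β.neg.1 x = 1 := by rw [Rt.neg_val, ip_neg_left, h]; norm_num
  have h2 : ip C β.1 (x + β.1) = 1 := by
    rw [ip_add_right, h, β.2]; norm_num
  have e1 : x - -β.1 = x + β.1 := by abel
  have e2 : x + β.1 - β.1 = x := by abel
  unfold wmap
  rw [crd_le β c _ x (by omega), crd_one β.neg _ _ x hx h1, Rt.neg_val, e1,
    crd_le β c v x (by omega), crd_one β c v _ n1 h2, e2]
  simp only [eps_add_right, eps_neg_left, hC.eps_self]
  rcases eps_cases (C := C) β.1 x with h3 | h3 <;> rw [h3] <;> push_cast <;> field_simp <;> ring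

theorem w_zero (β : Rt C) (c : F) (v : LieV C F)
    (x : Fin r → ℤ) (h : ip C β.1 x = 0) :
    crd (wmap β c v) x = crd v x := by
  have h1 : ip C β.neg.1 x ≤ 0 := by rw [Rt.neg_val, ip_neg_left, h]; norm_num
  unfold wmap
  rw [crd_le β c _ x h.le, crd_le β.neg _ _ x h1, crd_le β c v x h.le]

end

theorem relW : RelWStmt := by
  intro r C hC K _ β c hc v
  have hw : (wg hC β c).1 v = wmap β c v := rfl
  rw [hw]
  refine ⟨w_fst β c hc v, ?_, ?_, ?_, ?_, ?_⟩
  · rw [← crd_root, w_self β c hc v, ← Rt.neg_val, crd_root]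
  · rw [← crd_root, Rt.neg_val, w_neg β c hc v, crd_root]
  · intro γ hγ
    rw [← crd_root]
    exact w_one hC β c hc v γ.1 γ.2 hγ
  · intro γ hγ
    rw [← crd_root]
    exact w_mone hC β c hc v γ.1 γ.2 hγ
  · intro γ hγ
    rw [← crd_root, w_zero β c v γ.1 hγ, crd_root]

end Pool.Agent.DEN.H22
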