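import Pool.Agent.Helper22_DEN.RelB
import Pool.Agent.Helper22_DEN.RelW

open scoped BigOperators

namespace Pool.Agent.DEN.H22

open Pool.Agent.DEN

section
variable {r : ℕ} {C : Matrix (Fin r) (Fin r) ℤ} {F : Type} [Field F]

theorem cases5 (hC : SimplyLaced C) (β : Rt C) {x : Fin r → ℤ} (hx : ip C x x = 2) :
    x = β.1 ∨ x = -β.1 ∨ ip C β.1 x = 1 ∨ ip C β.1 x = -1 ∨ ip C β.1 x = 0 := by
  have h := bound' hC β hx
  by_cases h1 : ip C β.1 x = 2
  · exact Or.inl (ip_eq_two' hC hx h1)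
  by_cases h2 : ip C β.1 x = -2
  · have : ip C β.neg.1 x = 2 := by rw [Rt.neg_val, ip_neg_left, h2]; norm_num
    exact Or.inr (Or.inl (ip_eq_two' hC hx this))
  omega

theorem pr_w (β : Rt C) (c : F) (hc : c ≠ 0) (v : LieV C F) (x : Fin r → ℤ) :
    pr (wmap β c v) x = pr v x - pr v β.1 * ((ip C β.1 x : ℤ) : F) := by
  unfold pr
  simp only [w_fst β c hc, sub_mul, Finset.sum_sub_distrib, ip, Int.cast_sum, Int.cast_mul,
    Finset.mul_sum, mul_assoc]
  congr 1
  unfold pr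
  simp only [Finset.sum_mul, mul_assoc, Finset.mul_sum]

theorem w_conj_self (hC : SimplyLaced C) (β : Rt C) (c : F) (hc : c ≠ 0) (b : F)
    (v : LieV C F) :
    wmap β c (rootMap β b v) = rootMap β.neg ((c ^ 2)⁻¹ * b) (wmap β c v) := by
  have nn : -(-β.1) = β.1 := neg_neg _
  have hb1 : ip C β.1 (-β.1) ≤ 0 := by rw [ip_neg_right, β.2]; norm_num
  have hb2 : ip C β.neg.1 β.1 ≤ 0 := by rw [Rt.neg_val, ip_neg_left, β.2]; norm_num
  refine vec_ext ?_ ?_
  · intro i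
    rw [w_fst β c hc, fst_eq, fst_eq, w_fst β c hc, pr_rootMap, β.2, Rt.neg_val, nn,
      w_self β c hc]
    simp only [Pi.neg_apply, Int.cast_neg]
    push_cast
    field_simp
    ring
  · intro x hx
    rcases cases5 hC β hx with h | h | h | h | h
    · subst h
      rw [w_self β c hc, crd_le β b v _ hb1, crd_le β.neg _ _ _ hb2, w_self β c hc]
    · subst h
      rw [w_neg β c hc, crd_self, ← Rt.neg_val, crd_self, Rt.neg_val, nn, w_neg β c hc,
        w_self β c hc, pr_neg, pr_w β c hc, β.2]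
      push_cast
      field_simp
      ring
    · have h1 : ip C β.1 (x - β.1) ≤ 0 := by rw [ip_sub_right, h, β.2]; norm_num
      have h2 : ip C β.neg.1 x ≤ 0 := by rw [Rt.neg_val, ip_neg_left, h]; norm_num
      rw [w_one hC β c hc _ x hx h, crd_le β b v _ h1, crd_le β.neg _ _ x h2,
        w_one hC β c hc _ x hx h]
    · have n1 : ip C (x + β.1) (x + β.1) = 2 := by
        simp only [ip_add_left, ip_add_right, hC.ip_comm x β.1, hx, β.2, h]; norm_num
      have h1 : ip C β.neg.1 x = 1 := by rw [Rt.neg_val, ip_neg_left, h]; norm_num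
      have h2 : ip C β.1 (x + β.1) = 1 := by rw [ip_add_right, h, β.2]; norm_num
      have e1 : x - -β.1 = x + β.1 := by abel
      have e2 : x + β.1 - β.1 = x := by abel
      rw [w_mone hC β c hc _ x hx h, crd_one β b v _ n1 h2, e2, crd_one β.neg _ _ x hx h1,
        Rt.neg_val, e1, w_mone hC β c hc _ x hx h, w_one hC β c hc _ _ n1 h2, e2]
      simp only [eps_add_right, eps_neg_left, hC.eps_self]
      rcases eps_cases (C := C) β.1 x with h3 | h3 <;> rw [h3] <;> push_cast <;> field_simp <;>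
        ring
    · have h1 : ip C β.neg.1 x ≤ 0 := by rw [Rt.neg_val, ip_neg_left, h]; norm_num
      rw [w_zero β c _ x h, crd_le β b v x h.le, crd_le β.neg _ _ x h1, w_zero β c _ x h]

theorem w_conj_neg (hC : SimplyLaced C) (β : Rt C) (c : F) (hc : c ≠ 0) (b : F)
    (v : LieV C F) :
    wmap β c (rootMap β.neg b v) = rootMap β (c ^ 2 * b) (wmap β c v) := by
  have nn : -(-β.1) = β.1 := neg_neg _
  have hb1 : ip C β.1 (-β.1) ≤ 0 := by rw [ip_neg_right, β.2]; norm_num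
  have hb2 : ip C β.neg.1 β.1 ≤ 0 := by rw [Rt.neg_val, ip_neg_left, β.2]; norm_num
  refine vec_ext ?_ ?_
  · intro i
    rw [w_fst β c hc, fst_eq, fst_eq, w_fst β c hc, pr_rootMap, Rt.neg_val, nn, ip_neg_left, β.2,
      w_neg β c hc]
    simp only [Pi.neg_apply, Int.cast_neg]
    push_cast
    field_simp
    ring
  · intro x hx
    rcases cases5 hC β hx with h | h | h | h | h
    · subst h
      have key : crd (rootMap β.neg b v) (-β.1) =
          crd v (-β.1) - b * pr v (-β.1) + b ^ 2 * crd v β.1 := by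
        have := crd_self β.neg b v
        rwa [Rt.neg_val, nn] at this
      rw [w_self β c hc, key, crd_self, w_self β c hc, w_neg β c hc, pr_neg, pr_w β c hc, β.2]
      push_cast
      field_simp
      ring
    · subst h
      rw [w_neg β c hc, crd_le β.neg _ _ _ hb2, crd_le β _ _ _ hb1, w_neg β c hc]
    · have n1 := nsub'' hC β hx h
      have h1 : ip C β.neg.1 (x - β.1) = 1 := by
        rw [Rt.neg_val, ip_neg_left, ip_sub_right, h, β.2]; norm_num
      have h2 : ip C β.1 (x - β.1) = -1 := by rw [ip_sub_right, h, β.2]; norm_num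
      have e1 : x - β.1 - -β.1 = x := by abel
      have e2 : x - β.1 + β.1 = x := by abel
      rw [w_one hC β c hc _ x hx h, crd_one β.neg _ _ _ n1 h1, Rt.neg_val, e1,
        crd_one β _ _ x hx h, w_one hC β c hc _ x hx h, w_mone hC β c hc _ _ n1 h2, e2]
      simp only [eps_sub_right, eps_neg_left, hC.eps_self]
      rcases eps_cases (C := C) β.1 x with h3 | h3 <;> rw [h3] <;> push_cast <;> field_simp <;>
        ring
    · have h1 : ip C β.neg.1 (x + β.1) ≤ 0 := by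
        rw [Rt.neg_val, ip_neg_left, ip_add_right, h, β.2]; norm_num
      rw [w_mone hC β c hc _ x hx h, crd_le β.neg _ _ _ h1, crd_le β _ _ x (by omega),
        w_mone hC β c hc _ x hx h]
    · have h1 : ip C β.neg.1 x ≤ 0 := by rw [Rt.neg_val, ip_neg_left, h]; norm_num
      rw [w_zero β c _ x h, crd_le β.neg b v x h1, crd_le β _ _ x h.le, w_zero β c _ x h]

end

section
variable {r : ℕ} {C : Matrix (Fin r) (Fin r) ℤ} {K : Type} [Field K]

theorem xg_comm (hC : SimplyLaced C) (β γ : Rt C) (a b : FF K) (h : 0 ≤ ip C β.1 γ.1) :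
    xg hC β a * xg hC γ b * (xg hC β a)⁻¹ = xg hC γ b := by
  have : xg hC β a * xg hC γ b = xg hC γ b * xg hC β a :=
    Subtype.ext (relA r C hC (FF K) β γ a b h)
  rw [this]; group

theorem xg_conj (hC : SimplyLaced C) (β γ δ : Rt C) (a b : FF K) (h : ip C β.1 γ.1 = -1)
    (hδ : δ.1 = β.1 + γ.1) :
    xg hC β a * xg hC γ b * (xg hC β a)⁻¹ =
      xg hC γ b * xg hC δ (((eps C β.1 γ.1 : ℤ) : FF K) * a * b) := by
  have : xg hC β a * xg hC γ b =
      xg hC γ b * xg hC δ (((eps C β.1 γ.1 : ℤ) : FF K) * a * b) * xg hC β a :=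
    Subtype.ext (relB r C hC (FF K) β γ δ a b h hδ)
  rw [this]; group

theorem conj_case1 {G : Type*} [Group G] (x y g d g' : G) (h1 : x * g * x⁻¹ = g)
    (h2 : y * g * y⁻¹ = g * d) (h3 : x * d * x⁻¹ = d * g') (h4 : g * d * g⁻¹ = d)
    (h5 : g * g' = 1) : (x * y * x) * g * (x * y * x)⁻¹ = d := by
  have e1 : (x * y * x) * g * (x * y * x)⁻¹ = x * (y * (x * g * x⁻¹) * y⁻¹) * x⁻¹ := by group
  have e2 : x * (g * d) * x⁻¹ = (x * g * x⁻¹) * (x * d * x⁻¹) := by group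
  rw [e1, h1, h2, e2, h1, h3, ← mul_assoc]
  have h4' : g * d = d * g := by rwa [mul_inv_eq_iff_eq_mul] at h4
  rw [h4', mul_assoc, h5, mul_one]

theorem conj_case2 {G : Type*} [Group G] (x y g d g' : G) (h1 : x * g * x⁻¹ = g * d)
    (h2 : y * g * y⁻¹ = g) (h3 : y * d * y⁻¹ = d * g') (h4 : g * d * g⁻¹ = d)
    (h5 : g * g' = 1) (h6 : x * d * x⁻¹ = d) : (x * y * x) * g * (x * y * x)⁻¹ = d := by
  have e1 : (x * y * x) * g * (x * y * x)⁻¹ = x * (y * (x * g * x⁻¹) * y⁻¹) * x⁻¹ := by group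
  have e2 : y * (g * d) * y⁻¹ = (y * g * y⁻¹) * (y * d * y⁻¹) := by group
  have h4' : g * d = d * g := by rwa [mul_inv_eq_iff_eq_mul] at h4
  have e3 : g * (d * g') = d := by rw [← mul_assoc, h4', mul_assoc, h5, mul_one]
  rw [e1, h1, e2, h2, h3, e3, h6]

theorem conj_case3 {G : Type*} [Group G] (x y g : G) (h1 : x * g * x⁻¹ = g)
    (h2 : y * g * y⁻¹ = g) : (x * y * x) * g * (x * y * x)⁻¹ = g := by
  have e1 : (x * y * x) * g * (x * y * x)⁻¹ = x * (y * (x * g * x⁻¹) * y⁻¹) * x⁻¹ := by group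
  rw [e1, h1, h2, h1]

theorem xg_mul_one (hC : SimplyLaced C) (γ : Rt C) (a b : FF K) (h : a + b = 0) :
    xg hC γ a * xg hC γ b = 1 := by
  rw [← xg_add, h, xg_zero]

theorem relC1 (hC : SimplyLaced C) (β γ δ : Rt C) (c : FF K) (hc : c ≠ 0) (b : FF K)
    (h : ip C β.1 γ.1 = 1) (hδ : δ.1 = γ.1 - β.1) :
    wg hC β c * xg hC γ b * (wg hC β c)⁻¹ =
      xg hC δ (c⁻¹ * ((eps C β.1 γ.1 : ℤ) : FF K) * b) := by
  have h1 : ip C β.neg.1 γ.1 = -1 := by rw [Rt.neg_val, ip_neg_left, h]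
  have h2 : ip C β.1 δ.1 = -1 := by rw [hδ, ip_sub_right, h, β.2]; norm_num
  have h3 : 0 ≤ ip C γ.1 δ.1 := by
    rw [hδ, ip_sub_right, γ.2, hC.ip_comm γ.1 β.1, h]; norm_num
  have e0 : c⁻¹ * ((eps C β.1 γ.1 : ℤ) : FF K) * b =
      ((eps C β.neg.1 γ.1 : ℤ) : FF K) * c⁻¹ * b := by
    rw [Rt.neg_val, eps_neg_left]; ring
  rw [e0]
  refine conj_case1 (xg hC β c) (xg hC β.neg c⁻¹) (xg hC γ b) _
    (xg hC γ (((eps C β.1 δ.1 : ℤ) : FF K) * c * (((eps C β.neg.1 γ.1 : ℤ) : FF K) * c⁻¹ * b)))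
    (xg_comm hC β γ c b (by omega))
    (xg_conj hC β.neg γ δ c⁻¹ b h1 (by rw [hδ, Rt.neg_val]; abel))
    (xg_conj hC β δ γ c _ h2 (by rw [hδ]; abel)) (xg_comm hC γ δ b _ h3) ?_
  apply xg_mul_one
  rw [hδ, Rt.neg_val, eps_sub_right, eps_neg_left, hC.eps_self]
  rcases eps_cases (C := C) β.1 γ.1 with h3 | h3 <;> rw [h3] <;> push_cast <;> field_simp <;>
    ring

theorem relC2 (hC : SimplyLaced C) (β γ δ : Rt C) (c : FF K) (hc : c ≠ 0) (b : FF K)
    (h : ip C β.1 γ.1 = -1) (hδ : δ.1 = γ.1 + β.1) :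
    wg hC β c * xg hC γ b * (wg hC β c)⁻¹ =
      xg hC δ (c * ((eps C β.1 γ.1 : ℤ) : FF K) * b) := by
  have h1 : ip C β.neg.1 γ.1 = 1 := by rw [Rt.neg_val, ip_neg_left, h]; norm_num
  have h2 : ip C β.neg.1 δ.1 = -1 := by
    rw [hδ, Rt.neg_val, ip_neg_left, ip_add_right, h, β.2]; norm_num
  have h2' : 0 ≤ ip C β.1 δ.1 := by
    rw [hδ, ip_add_right, h, β.2]; norm_num
  have h3 : 0 ≤ ip C γ.1 δ.1 := by
    rw [hδ, ip_add_right, γ.2, hC.ip_comm γ.1 β.1, h]; norm_num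
  have e0 : c * ((eps C β.1 γ.1 : ℤ) : FF K) * b = ((eps C β.1 γ.1 : ℤ) : FF K) * c * b := by
    ring
  rw [e0]
  refine conj_case2 (xg hC β c) (xg hC β.neg c⁻¹) (xg hC γ b) _
    (xg hC γ (((eps C β.neg.1 δ.1 : ℤ) : FF K) * c⁻¹ * (((eps C β.1 γ.1 : ℤ) : FF K) * c * b)))
    (xg_conj hC β γ δ c b h (by rw [hδ]; abel))
    (xg_comm hC β.neg γ c⁻¹ b (by omega))
    (xg_conj hC β.neg δ γ c⁻¹ _ h2 (by rw [hδ, Rt.neg_val]; abel))
    (xg_comm hC γ δ b _ h3) ?_ (xg_comm hC β δ c _ h2')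
  apply xg_mul_one
  rw [hδ, Rt.neg_val, eps_add_right, eps_neg_left, eps_neg_left, hC.eps_self]
  rcases eps_cases (C := C) β.1 γ.1 with h3 | h3 <;> rw [h3] <;> push_cast <;> field_simp <;>
    ring

theorem mul_app (g h : grp C K) (v : LieV C (FF K)) : (g * h).1 v = g.1 (h.1 v) := rfl

theorem wg_app (hC : SimplyLaced C) (β : Rt C) (c : FF K) (v : LieV C (FF K)) :
    (wg hC β c).1 v = wmap β c v := rfl

theorem relC : RelCStmt := by
  intro r C hC K _ β c hc b
  refine ⟨?_, ?_, fun γ δ h hδ => relC1 hC β γ δ c hc b h hδ,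
    fun γ δ h hδ => relC2 hC β γ δ c hc b h hδ, ?_⟩
  · refine mul_inv_eq_iff_eq_mul.mpr (grp_ext fun v => ?_)
    rw [mul_app, mul_app, wg_app, wg_app, xg_apply, xg_apply]
    exact w_conj_self hC β c hc b v
  · refine mul_inv_eq_iff_eq_mul.mpr (grp_ext fun v => ?_)
    rw [mul_app, mul_app, wg_app, wg_app, xg_apply, xg_apply]
    exact w_conj_neg hC β c hc b v
  · intro γ h
    have h1 : 0 ≤ ip C β.neg.1 γ.1 := by rw [Rt.neg_val, ip_neg_left, h]; norm_num
    exact conj_case3 (xg hC β c) (xg hC β.neg c⁻¹) (xg hC γ b) (xg_comm hC β γ c b h.ge)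
      (xg_comm hC β.neg γ c⁻¹ b h1)

theorem relH : RelHStmt := by
  intro r C hC K _ β c hc v
  have key : ∀ v : LieV C (FF K), wmap β c v =
      ((wmap β 1 v).1, fun γ => c ^ (ip C β.1 γ.1) * (wmap β 1 v).2 γ) := by
    intro v
    have h1 : (1 : FF K) ≠ 0 := one_ne_zero
    refine vec_ext ?_ ?_
    · intro i
      rw [w_fst β c hc]
      show _ = (wmap β 1 v).1 i
      rw [w_fst β 1 h1]
    · intro x hx
      have e : ∀ w : LieV C (FF K), crd (w.1, fun γ : Rt C => c ^ (ip C β.1 γ.1) * w.2 γ) x =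
          c ^ (ip C β.1 x) * crd w x := by
        intro w
        rw [crd_of _ hx, crd_of _ hx]
      rw [e]
      rcases cases5 hC β hx with h | h | h | h | h
      · subst h
        rw [w_self β c hc, w_self β 1 h1, β.2, zpow_two]
        ring
      · subst h
        rw [w_neg β c hc, w_neg β 1 h1, ip_neg_right, β.2, zpow_neg, zpow_two]
        field_simp
      · rw [w_one hC β c hc _ x hx h, w_one hC β 1 h1 _ x hx h, h, zpow_one]
        ring
      · rw [w_mone hC β c hc _ x hx h, w_mone hC β 1 h1 _ x hx h, h, zpow_neg, zpow_one]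
        field_simp
      · rw [w_zero β c _ x h, w_zero β 1 _ x h, h, zpow_zero, one_mul]
  have h2 : (wg hC β c * (wg hC β (1 : FF K))⁻¹).1 v =
      wmap β c (((wg hC β (1 : FF K))⁻¹).1 v) := rfl
  have h3 : wmap β 1 (((wg hC β (1 : FF K))⁻¹).1 v) = v := by
    have : (wg hC β (1 : FF K) * (wg hC β (1 : FF K))⁻¹).1 v = v := by
      rw [mul_inv_cancel]; rfl
    exact this
  rw [h2, key, h3]

end

end Pool.Agent.DEN.H22
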