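import Pool.Agent.Helper22_DEN.Defs

open scoped BigOperators

namespace Pool.Agent.DEN

section
variable {r : ℕ} (C : Matrix (Fin r) (Fin r) ℤ)

theorem ip_add_left (x y z : Fin r → ℤ) : ip C (x + y) z = ip C x z + ip C y z := by
  simp only [ip, Pi.add_apply, add_mul, Finset.sum_add_distrib]

theorem ip_add_right (x y z : Fin r → ℤ) : ip C x (y + z) = ip C x y + ip C x z := by
  simp only [ip, Pi.add_apply, mul_add, Finset.sum_add_distrib]

theorem ip_neg_left (x y : Fin r → ℤ) : ip C (-x) y = -ip C x y := by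
  simp only [ip, Pi.neg_apply, neg_mul, Finset.sum_neg_distrib]

theorem ip_neg_right (x y : Fin r → ℤ) : ip C x (-y) = -ip C x y := by
  simp only [ip, Pi.neg_apply, mul_neg, Finset.sum_neg_distrib]

theorem ip_sub_left (x y z : Fin r → ℤ) : ip C (x - y) z = ip C x z - ip C y z := by
  rw [sub_eq_add_neg, ip_add_left, ip_neg_left, sub_eq_add_neg]

theorem ip_sub_right (x y z : Fin r → ℤ) : ip C x (y - z) = ip C x y - ip C x z := by
  rw [sub_eq_add_neg, ip_add_right, ip_neg_right, sub_eq_add_neg]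

theorem ip_zero_left (x : Fin r → ℤ) : ip C 0 x = 0 := by simp [ip]

theorem ip_zero_right (x : Fin r → ℤ) : ip C x 0 = 0 := by simp [ip]

theorem ip_smul_left (a : ℤ) (x y : Fin r → ℤ) : ip C (a • x) y = a * ip C x y := by
  simp only [ip, Pi.smul_apply, smul_eq_mul, Finset.mul_sum, mul_assoc]

theorem ip_smul_right (a : ℤ) (x y : Fin r → ℤ) : ip C x (a • y) = a * ip C x y := by
  simp only [ip, Pi.smul_apply, smul_eq_mul, Finset.mul_sum]
  refine Finset.sum_congr rfl fun i _ => Finset.sum_congr rfl fun j _ => by ring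

variable {C}

theorem SimplyLaced.ip_comm (hC : SimplyLaced C) (x y : Fin r → ℤ) : ip C x y = ip C y x := by
  unfold ip
  rw [Finset.sum_comm]
  refine Finset.sum_congr rfl fun i _ => Finset.sum_congr rfl fun j _ => ?_
  rw [hC.symm j i]; ring

theorem SimplyLaced.ip_pos (hC : SimplyLaced C) (x : Fin r → ℤ) (hx : x ≠ 0) : 0 < ip C x x := by
  have h := hC.pos (fun i => (x i : ℝ)) (by
    intro h
    apply hx
    funext i
    have := congrFun h i
    simpa using this)
  have h2 : ((ip C x x : ℤ) : ℝ) = ∑ i, ∑ j, (x i : ℝ) * (C i j : ℝ) * (x j : ℝ) := by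
    simp [ip]
  rw [← h2] at h
  exact_mod_cast h

theorem cexp_add_left (x y z : Fin r → ℤ) : cexp C (x + y) z = cexp C x z + cexp C y z := by
  simp only [cexp, Pi.add_apply, add_mul, Finset.sum_add_distrib]
  have : ∀ i j : Fin r, (if i < j then x i * C i j * z j + y i * C i j * z j else 0)
      = (if i < j then x i * C i j * z j else 0) + (if i < j then y i * C i j * z j else 0) := by
    intro i j; split_ifs <;> simp
  simp only [this, Finset.sum_add_distrib]
  ring

theorem cexp_add_right (x y z : Fin r → ℤ) : cexp C x (y + z) = cexp C x y + cexp C x z := by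
  simp only [cexp, Pi.add_apply, mul_add, Finset.sum_add_distrib]
  have : ∀ i j : Fin r, (if i < j then x i * C i j * y j + x i * C i j * z j else 0)
      = (if i < j then x i * C i j * y j else 0) + (if i < j then x i * C i j * z j else 0) := by
    intro i j; split_ifs <;> simp
  simp only [this, Finset.sum_add_distrib]
  ring

theorem eps_mul_self (x y : Fin r → ℤ) : eps C x y * eps C x y = 1 := by
  unfold eps; split_ifs <;> simp

theorem eps_cases (x y : Fin r → ℤ) : eps C x y = 1 ∨ eps C x y = -1 := by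
  unfold eps; split_ifs <;> simp

theorem eps_of_add {x y x' y' x'' y'' : Fin r → ℤ}
    (h : cexp C x y = cexp C x' y' + cexp C x'' y'') :
    eps C x y = eps C x' y' * eps C x'' y'' := by
  unfold eps
  rw [h]
  by_cases h1 : Even (cexp C x' y') <;> by_cases h2 : Even (cexp C x'' y'') <;>
    simp [Int.even_add, h1, h2]

theorem eps_add_left (x y z : Fin r → ℤ) : eps C (x + y) z = eps C x z * eps C y z :=
  eps_of_add (cexp_add_left x y z)

theorem eps_add_right (x y z : Fin r → ℤ) : eps C x (y + z) = eps C x y * eps C x z :=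
  eps_of_add (cexp_add_right x y z)

theorem cexp_zero_left (z : Fin r → ℤ) : cexp C 0 z = 0 := by
  simp [cexp]

theorem cexp_zero_right (z : Fin r → ℤ) : cexp C z 0 = 0 := by
  simp [cexp]

theorem eps_zero_left (z : Fin r → ℤ) : eps C 0 z = 1 := by
  simp [eps, cexp_zero_left]

theorem eps_zero_right (z : Fin r → ℤ) : eps C z 0 = 1 := by
  simp [eps, cexp_zero_right]

theorem eps_neg_left (x z : Fin r → ℤ) : eps C (-x) z = eps C x z := by
  have h := eps_add_left (C := C) (-x) x z
  rw [neg_add_cancel, eps_zero_left] at h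
  rcases eps_cases (C := C) x z with h1 | h1 <;> rcases eps_cases (C := C) (-x) z with h2 | h2 <;>
    rw [h1, h2] at h <;> simp_all

theorem eps_neg_right (x z : Fin r → ℤ) : eps C x (-z) = eps C x z := by
  have h := eps_add_right (C := C) x (-z) z
  rw [neg_add_cancel, eps_zero_right] at h
  rcases eps_cases (C := C) x z with h1 | h1 <;> rcases eps_cases (C := C) x (-z) with h2 | h2 <;>
    rw [h1, h2] at h <;> simp_all

theorem eps_sub_left (x y z : Fin r → ℤ) : eps C (x - y) z = eps C x z * eps C y z := by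
  rw [sub_eq_add_neg, eps_add_left, eps_neg_left]

theorem eps_sub_right (x y z : Fin r → ℤ) : eps C x (y - z) = eps C x y * eps C x z := by
  rw [sub_eq_add_neg, eps_add_right, eps_neg_right]

theorem SimplyLaced.cexp_swap (hC : SimplyLaced C) (x y : Fin r → ℤ) :
    cexp C x y + cexp C y x = ip C x y := by
  have key : ∀ i j : Fin r, x i * C i j * y j =
      (if i < j then x i * C i j * y j else 0) + (if j < i then y j * C j i * x i else 0)
        + (if i = j then 2 * (x i * y j) else 0) := by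
    intro i j
    rcases lt_trichotomy i j with h | h | h
    · simp [h, h.not_gt, h.ne]
    · subst h; simp [hC.diag]; ring
    · simp [h, h.not_gt, h.ne', hC.symm i j]; ring
  have : ip C x y = (∑ i, ∑ j, (if i < j then x i * C i j * y j else 0))
      + (∑ i, ∑ j, (if j < i then y j * C j i * x i else 0))
        + (∑ i : Fin r, ∑ j, (if i = j then 2 * (x i * y j) else 0)) := by
    unfold ip
    simp only [← Finset.sum_add_distrib]
    exact Finset.sum_congr rfl fun i _ => Finset.sum_congr rfl fun j _ => key i j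
  rw [this]
  have h2 : (∑ i : Fin r, ∑ j, (if i = j then 2 * (x i * y j) else 0))
      = 2 * ∑ i, x i * y i := by
    simp [Finset.mul_sum]
  have h3 : (∑ i, ∑ j, (if j < i then y j * C j i * x i else 0))
      = ∑ i, ∑ j, (if i < j then y i * C i j * x j else 0) := by
    rw [Finset.sum_comm]
  rw [h2, h3]
  unfold cexp
  have h4 : ∑ i, y i * x i = ∑ i, x i * y i := Finset.sum_congr rfl fun i _ => mul_comm _ _
  rw [h4]
  ring

/-- `ε(x, y) ε(y, x) = (-1)^(x, y)`. -/
theorem SimplyLaced.eps_swap (hC : SimplyLaced C) (x y : Fin r → ℤ) :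
    eps C x y * eps C y x = if Even (ip C x y) then 1 else -1 := by
  rw [← hC.cexp_swap x y]
  unfold eps
  by_cases h1 : Even (cexp C x y) <;> by_cases h2 : Even (cexp C y x) <;>
    simp [Int.even_add, h1, h2]

/-- `ε(β, β) = -1` for a root `β`. -/
theorem SimplyLaced.eps_self (hC : SimplyLaced C) (β : Rt C) : eps C β.1 β.1 = -1 := by
  have h := hC.cexp_swap β.1 β.1
  rw [β.2] at h
  have : cexp C β.1 β.1 = 1 := by omega
  simp [eps, this]

/-- The opposite root. -/
def Rt.neg (β : Rt C) : Rt C := ⟨-β.1, by rw [ip_neg_left, ip_neg_right, neg_neg]; exact β.2⟩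

@[simp] theorem Rt.neg_val (β : Rt C) : β.neg.1 = -β.1 := rfl

@[simp] theorem Rt.neg_neg (β : Rt C) : β.neg.neg = β := Subtype.ext (by simp)

/-- The simple root `α_i` as a vector. -/
def al (i : Fin r) : Fin r → ℤ := Pi.single i 1

theorem ip_al_al (i j : Fin r) : ip C (al i) (al j) = C i j := by
  simp [ip, al, Pi.single_apply]

/-- The simple root `α_i`. -/
def SimplyLaced.sr (hC : SimplyLaced C) (i : Fin r) : Rt C :=
  ⟨al i, by rw [ip_al_al, hC.diag]⟩

@[simp] theorem SimplyLaced.sr_val (hC : SimplyLaced C) (i : Fin r) : (hC.sr i).1 = al i := rfl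

/-- Bounds on the inner product of two roots. -/
theorem SimplyLaced.ip_bound (hC : SimplyLaced C) (β γ : Rt C) :
    -2 ≤ ip C β.1 γ.1 ∧ ip C β.1 γ.1 ≤ 2 := by
  have h1 : 0 ≤ ip C (β.1 - γ.1) (β.1 - γ.1) := by
    by_cases h : β.1 - γ.1 = 0
    · rw [h, ip_zero_left]
    · exact (hC.ip_pos _ h).le
  have h2 : 0 ≤ ip C (β.1 + γ.1) (β.1 + γ.1) := by
    by_cases h : β.1 + γ.1 = 0
    · rw [h, ip_zero_left]
    · exact (hC.ip_pos _ h).le
  simp only [ip_sub_left, ip_sub_right, ip_add_left, ip_add_right, β.2, γ.2,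
    hC.ip_comm γ.1 β.1] at h1 h2
  constructor <;> linarith

theorem SimplyLaced.ip_eq_two (hC : SimplyLaced C) {β γ : Rt C} (h : ip C β.1 γ.1 = 2) :
    β = γ := by
  by_contra hne
  have h0 : β.1 - γ.1 ≠ 0 := fun h0 => hne (Subtype.ext (sub_eq_zero.mp h0))
  have h1 := hC.ip_pos _ h0
  simp only [ip_sub_left, ip_sub_right, β.2, γ.2, hC.ip_comm γ.1 β.1, h] at h1
  norm_num at h1

theorem SimplyLaced.ip_eq_neg_two (hC : SimplyLaced C) {β γ : Rt C} (h : ip C β.1 γ.1 = -2) :
    γ = β.neg := by
  have : ip C β.neg.1 γ.1 = 2 := by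
    rw [Rt.neg_val, ip_neg_left, h]; rfl
  exact (hC.ip_eq_two this).symm

theorem SimplyLaced.ip_add_self (hC : SimplyLaced C) {β γ : Rt C} (h : ip C β.1 γ.1 = -1) :
    ip C (β.1 + γ.1) (β.1 + γ.1) = 2 := by
  simp only [ip_add_left, ip_add_right, β.2, γ.2, hC.ip_comm γ.1 β.1, h]
  norm_num

theorem SimplyLaced.ip_sub_self (hC : SimplyLaced C) {β γ : Rt C} (h : ip C β.1 γ.1 = 1) :
    ip C (β.1 - γ.1) (β.1 - γ.1) = 2 := by
  simp only [ip_sub_left, ip_sub_right, β.2, γ.2, hC.ip_comm γ.1 β.1, h]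
  norm_num

end

section
variable {r : ℕ} {C : Matrix (Fin r) (Fin r) ℤ} {R : Type} [CommRing R]

theorem crd_root (v : LieV C R) (γ : Rt C) : crd v γ.1 = v.2 γ := by
  unfold crd
  rw [dif_pos γ.2]

theorem crd_of (v : LieV C R) {x : Fin r → ℤ} (h : ip C x x = 2) : crd v x = v.2 ⟨x, h⟩ := by
  unfold crd
  rw [dif_pos h]

theorem crd_add (v w : LieV C R) (x : Fin r → ℤ) : crd (v + w) x = crd v x + crd w x := by
  unfold crd; split_ifs <;> simp

theorem crd_smul (c : R) (v : LieV C R) (x : Fin r → ℤ) : crd (c • v) x = c * crd v x := by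
  unfold crd; split_ifs <;> simp

/-- The pairing `(v, β)` of the coroot part of `v` with `β`. -/
def pr (v : LieV C R) (β : Fin r → ℤ) : R :=
  ∑ i, ∑ j, v.1 i * ((C i j : ℤ) : R) * ((β j : ℤ) : R)

theorem pr_add (v w : LieV C R) (x : Fin r → ℤ) : pr (v + w) x = pr v x + pr w x := by
  simp only [pr, Prod.fst_add, Pi.add_apply, add_mul, Finset.sum_add_distrib]

theorem pr_smul (c : R) (v : LieV C R) (x : Fin r → ℤ) : pr (c • v) x = c * pr v x := by
  simp only [pr, Prod.smul_fst, Pi.smul_apply, smul_eq_mul, Finset.mul_sum, mul_assoc]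

theorem rootMap_fst (β : Rt C) (a : R) (v : LieV C R) (i : Fin r) :
    (rootMap β a v).1 i = v.1 i - a * v.2 β.neg * ((β.1 i : ℤ) : R) := by
  have : crd v (-β.1) = v.2 β.neg := crd_root v β.neg
  simp only [rootMap, this]

theorem rootMap_snd_self (β : Rt C) (a : R) (v : LieV C R) :
    (rootMap β a v).2 β = v.2 β - a * pr v β.1 + a ^ 2 * v.2 β.neg := by
  have : crd v (-β.1) = v.2 β.neg := crd_root v β.neg
  simp only [rootMap, if_true, this, pr]
  ring

theorem rootMap_snd_one (β : Rt C) (a : R) (v : LieV C R) (γ : Rt C) (h : ip C β.1 γ.1 = 1) :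
    (rootMap β a v).2 γ =
      v.2 γ + a * ((eps C β.1 (γ.1 - β.1) : ℤ) : R) * crd v (γ.1 - β.1) := by
  have hne : γ ≠ β := by
    rintro rfl
    rw [γ.2] at h; norm_num at h
  simp only [rootMap, if_neg hne, if_pos h]

theorem rootMap_snd_other (β : Rt C) (a : R) (v : LieV C R) (γ : Rt C) (h1 : γ ≠ β)
    (h : ip C β.1 γ.1 ≠ 1) : (rootMap β a v).2 γ = v.2 γ := by
  simp only [rootMap, if_neg h1, if_neg h, add_zero]

theorem pr_root (hC : SimplyLaced C) (β γ : Rt C) (c : R) (v w : LieV C R)
    (h : ∀ i, w.1 i = v.1 i - c * ((β.1 i : ℤ) : R)) :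
    pr w γ.1 = pr v γ.1 - c * ((ip C β.1 γ.1 : ℤ) : R) := by
  simp only [pr, h, sub_mul, Finset.sum_sub_distrib, ip, Int.cast_sum, Int.cast_mul,
    Finset.mul_sum, mul_assoc]

/-- The group law of the root elements. -/
theorem rootMap_rootMap (hC : SimplyLaced C) (β : Rt C) (a b : R) (v : LieV C R) :
    rootMap β a (rootMap β b v) = rootMap β (a + b) v := by
  have hneg1 : ip C β.1 β.neg.1 = -2 := by rw [Rt.neg_val, ip_neg_right, β.2]
  have hne : β.neg ≠ β := by
    intro h
    have := congrArg (fun γ : Rt C => ip C β.1 γ.1) h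
    simp only [hneg1, β.2] at this
    norm_num at this
  have hneg : ∀ c : R, ∀ w : LieV C R, (rootMap β c w).2 β.neg = w.2 β.neg := by
    intro c w
    exact rootMap_snd_other β c w _ hne (by rw [hneg1]; norm_num)
  refine Prod.ext ?_ ?_
  · funext i
    rw [rootMap_fst, rootMap_fst, rootMap_fst, hneg]
    ring
  · funext γ
    by_cases h1 : γ = β
    · subst h1
      rw [rootMap_snd_self, rootMap_snd_self, rootMap_snd_self, hneg,
        pr_root hC γ γ (b * v.2 γ.neg) v _ (fun i => rootMap_fst γ b v i), γ.2]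
      push_cast
      ring
    · by_cases h2 : ip C β.1 γ.1 = 1
      · have h3 : ip C (γ.1 - β.1) (γ.1 - β.1) = 2 := by
          apply hC.ip_sub_self
          rw [hC.ip_comm]; exact h2
        have h4 : ip C β.1 (γ.1 - β.1) = -1 := by
          rw [ip_sub_right, h2, β.2]; norm_num
        have h5 : (rootMap β b v).2 ⟨γ.1 - β.1, h3⟩ = v.2 ⟨γ.1 - β.1, h3⟩ := by
          apply rootMap_snd_other
          · intro h
            have := congrArg (fun δ : Rt C => ip C β.1 δ.1) h
            simp only [h4, β.2] at this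
            norm_num at this
          · rw [h4]; norm_num
        rw [rootMap_snd_one _ _ _ _ h2, rootMap_snd_one _ _ _ _ h2, rootMap_snd_one _ _ _ _ h2,
          crd_of _ h3, crd_of _ h3, h5]
        ring
      · rw [rootMap_snd_other _ _ _ _ h1 h2, rootMap_snd_other _ _ _ _ h1 h2,
          rootMap_snd_other _ _ _ _ h1 h2]

theorem rootMap_zero (β : Rt C) (v : LieV C R) : rootMap β (0 : R) v = v := by
  refine Prod.ext ?_ ?_
  · funext i
    rw [rootMap_fst]; simp
  · funext γ
    by_cases h1 : γ = β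
    · subst h1
      rw [rootMap_snd_self]; ring
    · by_cases h2 : ip C β.1 γ.1 = 1
      · rw [rootMap_snd_one _ _ _ _ h2]; ring
      · rw [rootMap_snd_other _ _ _ _ h1 h2]

theorem rootMap_add (β : Rt C) (a : R) (v w : LieV C R) :
    rootMap β a (v + w) = rootMap β a v + rootMap β a w := by
  refine Prod.ext ?_ ?_
  · funext i
    simp only [Prod.fst_add, Pi.add_apply, rootMap_fst, Prod.snd_add]
    ring
  · funext γ
    by_cases h1 : γ = β
    · subst h1
      simp only [Prod.snd_add, Pi.add_apply, rootMap_snd_self, pr_add]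
      ring
    · by_cases h2 : ip C β.1 γ.1 = 1
      · simp only [Prod.snd_add, Pi.add_apply, rootMap_snd_one _ _ _ _ h2, crd_add]
        ring
      · simp only [Prod.snd_add, Pi.add_apply, rootMap_snd_other _ _ _ _ h1 h2]

theorem rootMap_smul (β : Rt C) (a c : R) (v : LieV C R) :
    rootMap β a (c • v) = c • rootMap β a v := by
  refine Prod.ext ?_ ?_
  · funext i
    simp only [Prod.smul_fst, Pi.smul_apply, rootMap_fst, Prod.smul_snd, smul_eq_mul]
    ring
  · funext γ
    by_cases h1 : γ = β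
    · subst h1
      simp only [Prod.smul_snd, Pi.smul_apply, rootMap_snd_self, pr_smul, smul_eq_mul]
      ring
    · by_cases h2 : ip C β.1 γ.1 = 1
      · simp only [Prod.smul_snd, Pi.smul_apply, rootMap_snd_one _ _ _ _ h2, crd_smul, smul_eq_mul]
        ring
      · simp only [Prod.smul_snd, Pi.smul_apply, rootMap_snd_other _ _ _ _ h1 h2]

/-- The root element as a linear automorphism. -/
def xr (hC : SimplyLaced C) (β : Rt C) (a : R) : LieV C R ≃ₗ[R] LieV C R where
  toFun := rootMap β a
  invFun := rootMap β (-a)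
  map_add' := rootMap_add β a
  map_smul' := rootMap_smul β a
  left_inv := fun v => by rw [rootMap_rootMap hC, neg_add_cancel, rootMap_zero]
  right_inv := fun v => by rw [rootMap_rootMap hC, add_neg_cancel, rootMap_zero]

@[simp] theorem xr_apply (hC : SimplyLaced C) (β : Rt C) (a : R) (v : LieV C R) :
    xr hC β a v = rootMap β a v := rfl

theorem xr_add (hC : SimplyLaced C) (β : Rt C) (a b : R) :
    xr hC β (a + b) = xr hC β a * xr hC β b := by
  ext1 v
  exact (rootMap_rootMap hC β a b v).symm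

theorem xr_zero (hC : SimplyLaced C) (β : Rt C) : xr hC β (0 : R) = 1 := by
  ext1 v
  exact rootMap_zero β v

theorem xr_inv (hC : SimplyLaced C) (β : Rt C) (a : R) : (xr hC β a)⁻¹ = xr hC β (-a) := by
  rw [inv_eq_iff_mul_eq_one, ← xr_add, add_neg_cancel, xr_zero]

end

section
variable {r : ℕ} {C : Matrix (Fin r) (Fin r) ℤ} {K : Type} [Field K]

/-- The root element of the group `G`. -/
noncomputable def xg (hC : SimplyLaced C) (β : Rt C) (a : FF K) : grp C K :=
  ⟨xr hC β a, Subgroup.subset_closure ⟨β, a, fun _ => rfl⟩⟩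

@[simp] theorem xg_apply (hC : SimplyLaced C) (β : Rt C) (a : FF K) (v : LieV C (FF K)) :
    (xg hC β a).1 v = rootMap β a v := rfl

theorem xg_add (hC : SimplyLaced C) (β : Rt C) (a b : FF K) :
    xg hC β (a + b) = xg hC β a * xg hC β b := Subtype.ext (xr_add hC β a b)

theorem xg_zero (hC : SimplyLaced C) (β : Rt C) : xg hC β (0 : FF K) = 1 :=
  Subtype.ext (xr_zero hC β)

theorem xg_inv (hC : SimplyLaced C) (β : Rt C) (a : FF K) : (xg hC β a)⁻¹ = xg hC β (-a) :=
  Subtype.ext (xr_inv hC β a)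

/-- An element of `G` acting as the root element is the root element. -/
theorem eq_xg (hC : SimplyLaced C) (β : Rt C) (a : FF K) (g : grp C K)
    (h : ∀ v, g.1 v = rootMap β a v) : g = xg hC β a :=
  Subtype.ext (LinearEquiv.ext h)

/-- Two elements of `G` with the same action are equal. -/
theorem grp_ext {g h : grp C K} (H : ∀ v, g.1 v = h.1 v) : g = h :=
  Subtype.ext (LinearEquiv.ext H)

/-- `G` is generated by the root elements. -/
theorem grp_closure (hC : SimplyLaced C) :
    Subgroup.closure {g : grp C K | ∃ (β : Rt C) (a : FF K), g = xg hC β a} = ⊤ := by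
  rw [eq_top_iff]
  rintro ⟨g, hg⟩ -
  have key : ∀ x (hx : x ∈ Subgroup.closure {g : LieV C (FF K) ≃ₗ[FF K] LieV C (FF K) |
      ∃ (β : Rt C) (a : FF K), ∀ v, g v = rootMap β a v}),
      (⟨x, hx⟩ : grp C K) ∈ Subgroup.closure {g : grp C K | ∃ (β : Rt C) (a : FF K),
        g = xg hC β a} := by
    intro x hx
    induction hx using Subgroup.closure_induction with
    | mem x hx =>
      obtain ⟨β, a, h⟩ := hx
      exact Subgroup.subset_closure ⟨β, a, Subtype.ext (LinearEquiv.ext h)⟩
    | one => exact one_mem _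
    | mul x y hx hy h1 h2 => exact mul_mem h1 h2
    | inv x hx h1 => exact inv_mem h1
  exact key g hg

theorem arith_eq (hC : SimplyLaced C) (P : Polynomial K) : arith C K P =
    Subgroup.closure {g : grp C K | ∃ (β : Rt C) (a : FF K), a ∈ ringA K P ∧ g = xg hC β a} := by
  unfold arith
  congr 1
  ext g
  constructor
  · rintro ⟨β, a, ha, h⟩
    exact ⟨β, a, ha, eq_xg hC β a g h⟩
  · rintro ⟨β, a, ha, rfl⟩
    exact ⟨β, a, ha, fun v => rfl⟩

theorem rad_eq (hC : SimplyLaced C) (i : Fin r) : rad C K i =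
    Subgroup.closure {g : grp C K | ∃ (β : Rt C) (a : FF K), 0 < β.1 i ∧ g = xg hC β a} := by
  unfold rad
  congr 1
  ext g
  constructor
  · rintro ⟨β, a, ha, h⟩
    exact ⟨β, a, ha, eq_xg hC β a g h⟩
  · rintro ⟨β, a, ha, rfl⟩
    exact ⟨β, a, ha, fun v => rfl⟩

theorem xg_mem_arith (hC : SimplyLaced C) (P : Polynomial K) (β : Rt C) {a : FF K}
    (ha : a ∈ ringA K P) : xg hC β a ∈ arith C K P :=
  Subgroup.subset_closure ⟨β, a, ha, fun _ => rfl⟩

end

end Pool.Agent.DEN
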