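import Pool.Agent.Helper22_DEN.Setup

open scoped BigOperators

namespace Pool.Agent.DEN

/-! ## Working definitions -/

section
variable {r : ℕ} {C : Matrix (Fin r) (Fin r) ℤ} {K : Type} [Field K]

/-- `g` is the torus element `t^l`. -/
def IsTor (l : Fin r → ℤ) (g : grp C K) : Prop :=
  ∀ v : LieV C (FF K), g.1 v = (v.1, fun γ => tt K ^ (ip C γ.1 l) * v.2 γ)

variable (C) in
/-- `l` is dominant. -/
def IsDom (l : Fin r → ℤ) : Prop := ∀ i, 0 ≤ ip C (al i) l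

/-- The root `β` is positive. -/
def Rt.Pos (β : Rt C) : Prop := ∀ i, 0 ≤ β.1 i

/-- The vertex `g K` of `X`. -/
noncomputable def pt (g : grp C K) : XX C K := QuotientGroup.mk g

/-- `g` maps the Chevalley order over `𝒪` in `t^m` times it. -/
def bnd (m : ℤ) (g : grp C K) : Prop :=
  ∀ v : LieV C (FF K), Cd (Bd K 0) v → Cd (Bd K m) (g.1 v)

/-- The element `w_β(c) = x_β(c) x_{-β}(c⁻¹) x_β(c)`. -/
noncomputable def wg (hC : SimplyLaced C) (β : Rt C) (c : FF K) : grp C K :=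
  xg hC β c * xg hC β.neg c⁻¹ * xg hC β c

variable (C K) in
/-- The unipotent group generated by the positive root elements. -/
noncomputable def Ug : Subgroup (grp C K) :=
  Subgroup.closure {g | ∃ (β : Rt C) (a : FF K), β.Pos ∧ ∀ v, g.1 v = rootMap β a v}

variable (C K) in
/-- The unipotent group generated by the positive root elements for the roots `≠ α_i`. -/
noncomputable def Un (i : Fin r) : Subgroup (grp C K) :=
  Subgroup.closure {g | ∃ (β : Rt C) (a : FF K), β.Pos ∧ β.1 ≠ al i ∧ ∀ v, g.1 v = rootMap β a v}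

/-- `v` has only components of degree at least `k` for the grading by `l`. -/
def Fil (l : Fin r → ℤ) (k : ℤ) (v : LieV C (FF K)) : Prop :=
  (0 < k → v.1 = 0) ∧ ∀ β : Rt C, ip C β.1 l < k → v.2 β = 0

/-- The height of a root. -/
def ht (β : Rt C) : ℤ := ∑ i, β.1 i

variable (C K) in
/-- The group generated by the root elements for the roots `β` with `(β, l) > 0` and height at
least `k`. -/
noncomputable def Ul (l : Fin r → ℤ) (k : ℕ) : Subgroup (grp C K) :=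
  Subgroup.closure {g | ∃ (β : Rt C) (a : FF K), 0 < ip C β.1 l ∧ (k : ℤ) ≤ ht β ∧
    ∀ v, g.1 v = rootMap β a v}

/-- The root vector `e_β`. -/
noncomputable def EE (β : Rt C) : LieV C (FF K) := by
  classical exact (0, fun γ => if γ = β then 1 else 0)

variable (C) in
/-- `dep l` is the sum of the `(β, l)` over the roots `β` with `(β, l) > 0`; it is `(2ρ, l)` for a
dominant `l`. -/
noncomputable def dep (l : Fin r → ℤ) : ℕ := ∑ᶠ β : Rt C, (ip C β.1 l).toNat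

/-- `n` is a monomial element of `G`. -/
def IsMono (hC : SimplyLaced C) (n : grp C K) : Prop :=
  ∃ (s : Equiv.Perm (Rt C)) (c d : Rt C → FF K),
    (∀ β, c β ≠ 0 ∧ d β ≠ 0) ∧ (∀ β, s β.neg = (s β).neg) ∧
    (∀ β a, n * xg hC β a * n⁻¹ = xg hC (s β) (c β * a)) ∧
    (∀ v β, (n.1 v).2 (s β) = d β * v.2 β) ∧
    (∀ v : LieV C (FF K), v.1 = 0 → (n.1 v).1 = 0)

end

/-! ## ROOT: root systems -/

/-- ROOTF: there are finitely many roots. -/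
def RootFinStmt : Prop :=
  ∀ (r : ℕ) (C : Matrix (Fin r) (Fin r) ℤ), SimplyLaced C → Finite (Rt C)

/-- ROOTS: a root is positive or negative; `(x, x)` is even; vectors are determined by their
pairings with the simple roots; pairing of a dominant vector with a positive vector. -/
def RootSignStmt : Prop :=
  ∀ (r : ℕ) (C : Matrix (Fin r) (Fin r) ℤ), SimplyLaced C →
    (∀ β : Rt C, β.Pos ∨ β.neg.Pos) ∧
    (∀ x, Even (ip C x x)) ∧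
    (∀ x y, (∀ i, ip C (al i) x = ip C (al i) y) → x = y) ∧
    (∀ x l, IsDom C l → (∀ i, 0 ≤ x i) → ∀ i, x i * ip C (al i) l ≤ ip C x l)

/-- ROOTD: descent to the simple roots, and simple reflections permute the other positive roots. -/
def RootDescStmt : Prop :=
  ∀ (r : ℕ) (C : Matrix (Fin r) (Fin r) ℤ) (hC : SimplyLaced C),
    (∀ β : Rt C, β.Pos → (∃ i, β = hC.sr i) ∨
      ∃ i, ip C β.1 (al i) = 1 ∧ ∀ j, 0 ≤ (β.1 - al i) j) ∧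
    (∀ (i : Fin r) (β γ : Rt C), β.Pos → β ≠ hC.sr i → γ.1 = β.1 - ip C β.1 (al i) • al i →
      γ.Pos ∧ γ ≠ hC.sr i) ∧
    (∀ i, ∑ᶠ β : {β : Rt C // β.Pos}, ip C β.1.1 (al i) = 2)

/-! ## REL: relations between root elements, over any commutative ring -/

/-- RELA: commutation if `(β, γ) ≥ 0`. -/
def RelAStmt : Prop :=
  ∀ (r : ℕ) (C : Matrix (Fin r) (Fin r) ℤ) (hC : SimplyLaced C) (R : Type) [CommRing R]
    (β γ : Rt C) (a b : R), 0 ≤ ip C β.1 γ.1 →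
    xr hC β a * xr hC γ b = xr hC γ b * xr hC β a

/-- RELB: the commutator formula if `(β, γ) = -1`. -/
def RelBStmt : Prop :=
  ∀ (r : ℕ) (C : Matrix (Fin r) (Fin r) ℤ) (hC : SimplyLaced C) (R : Type) [CommRing R]
    (β γ δ : Rt C) (a b : R), ip C β.1 γ.1 = -1 → δ.1 = β.1 + γ.1 →
    xr hC β a * xr hC γ b =
      xr hC γ b * xr hC δ (((eps C β.1 γ.1 : ℤ) : R) * a * b) * xr hC β a

/-- RELW: the action of `w_β(c)` (monomial). -/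
def RelWStmt : Prop :=
  ∀ (r : ℕ) (C : Matrix (Fin r) (Fin r) ℤ) (hC : SimplyLaced C) (K : Type) [Field K]
    (β : Rt C) (c : FF K), c ≠ 0 → ∀ v : LieV C (FF K),
    (∀ i, ((wg hC β c).1 v).1 i = v.1 i - pr v β.1 * ((β.1 i : ℤ) : FF K)) ∧
    ((wg hC β c).1 v).2 β = c ^ 2 * v.2 β.neg ∧
    ((wg hC β c).1 v).2 β.neg = (c ^ 2)⁻¹ * v.2 β ∧
    (∀ γ : Rt C, ip C β.1 γ.1 = 1 → ((wg hC β c).1 v).2 γ =
      c * ((eps C β.1 (γ.1 - β.1) : ℤ) : FF K) * crd v (γ.1 - β.1)) ∧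
    (∀ γ : Rt C, ip C β.1 γ.1 = -1 → ((wg hC β c).1 v).2 γ =
      c⁻¹ * ((eps C β.1 (γ.1 + β.1) : ℤ) : FF K) * crd v (γ.1 + β.1)) ∧
    (∀ γ : Rt C, ip C β.1 γ.1 = 0 → ((wg hC β c).1 v).2 γ = v.2 γ)

/-- RELC: conjugation of root elements by `w_β(c)` (from RELA, RELB, RELW). -/
def RelCStmt : Prop :=
  ∀ (r : ℕ) (C : Matrix (Fin r) (Fin r) ℤ) (hC : SimplyLaced C) (K : Type) [Field K]
    (β : Rt C) (c : FF K), c ≠ 0 → ∀ b : FF K,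
    (wg hC β c * xg hC β b * (wg hC β c)⁻¹ = xg hC β.neg ((c ^ 2)⁻¹ * b)) ∧
    (wg hC β c * xg hC β.neg b * (wg hC β c)⁻¹ = xg hC β (c ^ 2 * b)) ∧
    (∀ γ δ : Rt C, ip C β.1 γ.1 = 1 → δ.1 = γ.1 - β.1 →
      wg hC β c * xg hC γ b * (wg hC β c)⁻¹ =
        xg hC δ (c⁻¹ * ((eps C β.1 γ.1 : ℤ) : FF K) * b)) ∧
    (∀ γ δ : Rt C, ip C β.1 γ.1 = -1 → δ.1 = γ.1 + β.1 →
      wg hC β c * xg hC γ b * (wg hC β c)⁻¹ =
        xg hC δ (c * ((eps C β.1 γ.1 : ℤ) : FF K) * b)) ∧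
    (∀ γ : Rt C, ip C β.1 γ.1 = 0 →
      wg hC β c * xg hC γ b * (wg hC β c)⁻¹ = xg hC γ b)

/-- RELH: `h_β(c) = w_β(c) w_β(1)⁻¹` is diagonal (from RELW). -/
def RelHStmt : Prop :=
  ∀ (r : ℕ) (C : Matrix (Fin r) (Fin r) ℤ) (hC : SimplyLaced C) (K : Type) [Field K]
    (β : Rt C) (c : FF K), c ≠ 0 → ∀ v : LieV C (FF K),
    (wg hC β c * (wg hC β (1 : FF K))⁻¹).1 v = (v.1, fun γ => c ^ (ip C β.1 γ.1) * v.2 γ)

/-- TOR: the torus elements `t^l`: existence, product, inverse, conjugation of root elements and of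
the `w_{α_i}(1)` (from RELH; RELW). -/
def TorStmt : Prop :=
  ∀ (r : ℕ) (C : Matrix (Fin r) (Fin r) ℤ) (hC : SimplyLaced C) (K : Type) [Field K],
    (∀ l : Fin r → ℤ, ∃ g : grp C K, IsTor l g) ∧
    (∀ (l l' : Fin r → ℤ) (g g' : grp C K), IsTor l g → IsTor l' g' → IsTor (l + l') (g * g')) ∧
    (∀ (l : Fin r → ℤ) (g : grp C K), IsTor l g → IsTor (-l) g⁻¹) ∧
    (∀ (l : Fin r → ℤ) (g : grp C K), IsTor l g → ∀ (β : Rt C) (a : FF K),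
      g * xg hC β a * g⁻¹ = xg hC β (tt K ^ (ip C β.1 l) * a)) ∧
    (∀ (l : Fin r → ℤ) (g g' : grp C K) (β : Rt C), IsTor l g →
      IsTor (l - ip C l β.1 • β.1) g' →
      wg hC β (1 : FF K) * g = g' * wg hC β (1 : FF K))

/-! ## FIELD: the field `F` -/

/-- FLD1: the sets `Bd m`. -/
def Fld1Stmt : Prop :=
  ∀ (K : Type) [Field K],
    (∀ m : ℤ, (0 : FF K) ∈ Bd K m) ∧
    (∀ (m : ℤ) (a b : FF K), a ∈ Bd K m → b ∈ Bd K m → a + b ∈ Bd K m) ∧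
    (∀ (m : ℤ) (a : FF K), a ∈ Bd K m → -a ∈ Bd K m) ∧
    (∀ (m n : ℤ) (a b : FF K), a ∈ Bd K m → b ∈ Bd K n → a * b ∈ Bd K (m + n)) ∧
    (∀ (m n : ℤ) (a : FF K), m ≤ n → a ∈ Bd K m → a ∈ Bd K n) ∧
    (∀ n : ℤ, ((n : ℤ) : FF K) ∈ Bd K 0) ∧
    (tt K ≠ 0) ∧
    (∀ (m : ℤ) (a : FF K), tt K ^ m * a ∈ Bd K m ↔ a ∈ Bd K 0) ∧
    (∀ a : FF K, a ≠ 0 → ∃ (m : ℤ) (u : FF K), a = tt K ^ m * u ∧ u ∈ Bd K 0 ∧ u⁻¹ ∈ Bd K 0 ∧
      u ≠ 0 ∧ a ∉ Bd K (m - 1))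

/-- FLD2: polynomials in `F`. -/
def Fld2Stmt : Prop :=
  ∀ (K : Type) [Field K],
    Function.Injective (polyL K) ∧
    (∀ p : Polynomial K, polyL K p ∈ Bd K p.natDegree) ∧
    (∀ (p : Polynomial K) (m : ℤ), p ≠ 0 → polyL K p ∈ Bd K m → (p.natDegree : ℤ) ≤ m) ∧
    (∀ (N : Polynomial K), N ≠ 0 → ∀ a : FF K, ∃ b : Polynomial K,
      a - polyL K N * polyL K b ∈ Bd K (N.natDegree - 1)) ∧
    (ringA K 1 : Set (FF K)) = Set.range (polyL K)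

/-- FLD3: the ring `A[1/P]`, coprimality and strong approximation. -/
def Fld3Stmt : Prop :=
  ∀ (K : Type) [Field K] (P N : Polynomial K), P ≠ 0 →
    (∀ a : FF K, a ∈ ringA K P ↔ ∃ (n : ℕ) (p : Polynomial K), polyL K P ^ n * a = polyL K p) ∧
    (IsCoprime P N → ∀ a : FF K, a ∈ ringA K P → polyL K N * a ∈ ringA K 1 → a ∈ ringA K 1) ∧
    (IsCoprime P N → ∀ a : FF K, a ∈ ringA K P →
      ∃ a0 ∈ ringA K 1, ∃ b ∈ ringA K P, a = a0 + polyL K N * b)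

/-! ## GRP: elementary facts on the groups -/

/-- MAX: integral root elements and `w_β(1)` lie in `K`; `w_β(1)` is arithmetic; diagonal elements
with unit entries lie in `K`. -/
def MaxStmt : Prop :=
  ∀ (r : ℕ) (C : Matrix (Fin r) (Fin r) ℤ) (hC : SimplyLaced C) (K : Type) [Field K],
    (∀ (β : Rt C) (a : FF K), a ∈ Bd K 0 → xg hC β a ∈ maxK C K) ∧
    (∀ β : Rt C, wg hC β (1 : FF K) ∈ maxK C K ∧ wg hC β (1 : FF K) ∈ arith C K 1) ∧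
    (∀ (β : Rt C) (u : FF K), u ≠ 0 → u ∈ Bd K 0 → u⁻¹ ∈ Bd K 0 →
      wg hC β u * (wg hC β (1 : FF K))⁻¹ ∈ maxK C K) ∧
    (∀ (l : Fin r → ℤ) (g : grp C K), IsTor l g → ∀ (β : Rt C) (a : FF K),
      a ∈ Bd K (ip C β.1 l) → xg hC β a • pt g = pt g)

/-- BDG: every element of `G` is bounded; boundedness is submultiplicative; `K` is bounded. -/
def BdgStmt : Prop :=
  ∀ (r : ℕ) (C : Matrix (Fin r) (Fin r) ℤ) (_ : SimplyLaced C) (K : Type) [Field K],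
    (∀ g : grp C K, ∃ m : ℕ, bnd m g ∧ bnd m g⁻¹) ∧
    (∀ (m n : ℤ) (g h : grp C K), bnd m g → bnd n h → bnd (m + n) (g * h)) ∧
    (∀ g : grp C K, g ∈ maxK C K ↔ bnd 0 g ∧ bnd 0 g⁻¹)

/-- UPS: structure of the unipotent group relative to the simple root `α_i`. -/
def UpsStmt : Prop :=
  ∀ (r : ℕ) (C : Matrix (Fin r) (Fin r) ℤ) (hC : SimplyLaced C) (K : Type) [Field K] (i : Fin r),
    (∀ u ∈ Ug C K, ∃ b : FF K, ∃ u' ∈ Un C K i, u = u' * xg hC (hC.sr i) b) ∧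
    (∀ u ∈ Un C K i,
      wg hC (hC.sr i) (1 : FF K) * u * (wg hC (hC.sr i) (1 : FF K))⁻¹ ∈ Un C K i) ∧
    (∀ u ∈ Un C K i, ∀ a : FF K, xg hC (hC.sr i) a * u * (xg hC (hC.sr i) a)⁻¹ ∈ Un C K i)

/-- GEN: `G` is generated by the `x_{α_i}(a)` and the `w_{α_i}(1)`; the same for `arith` over
`A[1/P]` is not needed. -/
def GenStmt : Prop :=
  ∀ (r : ℕ) (C : Matrix (Fin r) (Fin r) ℤ) (hC : SimplyLaced C) (K : Type) [Field K],
    Subgroup.closure ({g : grp C K | ∃ (i : Fin r) (a : FF K), g = xg hC (hC.sr i) a} ∪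
      {g : grp C K | ∃ i : Fin r, g = wg hC (hC.sr i) (1 : FF K)}) = ⊤

/-- RK1: the rank one computation. -/
def Rk1Stmt : Prop :=
  ∀ (r : ℕ) (C : Matrix (Fin r) (Fin r) ℤ) (hC : SimplyLaced C) (K : Type) [Field K]
    (i : Fin r) (b : FF K) (l : Fin r → ℤ) (g : grp C K), IsTor l g →
    (b ∈ Bd K (ip C (al i) l) ∧ xg hC (hC.sr i) b • pt g = pt g ∧
      ∃ g', IsTor (l - ip C (al i) l • al i) g' ∧
        wg hC (hC.sr i) (1 : FF K) • pt g = pt g') ∨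
    (∃ m : ℤ, ip C (al i) l < m ∧ b ∈ Bd K m ∧ b ∉ Bd K (m - 1) ∧
      ∃ g', IsTor (l - m • al i) g' ∧
        wg hC (hC.sr i) (1 : FF K) • xg hC (hC.sr i) b • pt g =
          xg hC (hC.sr i) (-b⁻¹) • pt g')

/-- IWA: Iwasawa decomposition. -/
def IwaStmt : Prop :=
  ∀ (r : ℕ) (C : Matrix (Fin r) (Fin r) ℤ) (_ : SimplyLaced C) (K : Type) [Field K]
    (x : XX C K), ∃ u ∈ Ug C K, ∃ (l : Fin r → ℤ) (g : grp C K), IsTor l g ∧ x = u • pt g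

/-- MIN: a matrix with a left inverse has a nonzero maximal minor. -/
def MinStmt : Prop :=
  ∀ (F : Type) [Field F] (ι κ : Type) [Fintype ι] [Fintype κ] [DecidableEq ι] [DecidableEq κ]
    (B : Matrix ι κ F) (B' : Matrix κ ι F), B' * B = 1 →
    ∃ s : κ → ι, (B.submatrix s id).det ≠ 0

/-- BND: the height `(2ρ, l)` is bounded above on the orbit `Γ x`. -/
def BndStmt : Prop :=
  ∀ (r : ℕ) (C : Matrix (Fin r) (Fin r) ℤ) (_ : SimplyLaced C) (K : Type) [Field K]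
    (x : XX C K), ∃ M : ℤ, ∀ γ ∈ arith C K 1, ∀ u ∈ Ug C K, ∀ (l : Fin r → ℤ) (g : grp C K),
      IsTor l g → γ • x = u • pt g → ∑ᶠ β : {β : Rt C // β.Pos}, ip C β.1.1 l ≤ M

/-- BIR: `G = Γ t^{dominant} K` (Birkhoff-Harder). -/
def BirStmt : Prop :=
  ∀ (r : ℕ) (C : Matrix (Fin r) (Fin r) ℤ) (_ : SimplyLaced C) (K : Type) [Field K]
    (x : XX C K), ∃ γ ∈ arith C K 1, ∃ (l : Fin r → ℤ) (g : grp C K),
      IsTor l g ∧ IsDom C l ∧ x = γ • pt g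

/-- VAN: cusp forms of level `N` vanish at `γ t^l` if some simple height is `≥ deg N - 1`. -/
def VanStmt : Prop :=
  ∀ (r : ℕ) (C : Matrix (Fin r) (Fin r) ℤ) (_ : SimplyLaced C) (K : Type) [Field K]
    (N : Polynomial K), N ≠ 0 → ∀ f : XX C K → ℂ, IsCusp N f → ∀ γ ∈ arith C K 1,
    ∀ (l : Fin r → ℤ) (g : grp C K), IsTor l g → IsDom C l →
    ∀ i, (N.natDegree : ℤ) - 1 ≤ ip C (al i) l → f (γ • pt g) = 0

/-- BRU: Bruhat decomposition `G = U 𝒩 U`. -/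
def BruStmt : Prop :=
  ∀ (r : ℕ) (C : Matrix (Fin r) (Fin r) ℤ) (hC : SimplyLaced C) (K : Type) [Field K]
    (g : grp C K), ∃ u ∈ Ug C K, ∃ n, IsMono hC n ∧ ∃ u' ∈ Ug C K, g = u * n * u'

/-- LEV: an element of `G` which is unipotent for the grading of a dominant `l` lies in the group
generated by the root elements for the roots `β` with `(β, l) > 0`. -/
def LevStmt : Prop :=
  ∀ (r : ℕ) (C : Matrix (Fin r) (Fin r) ℤ) (_ : SimplyLaced C) (K : Type) [Field K]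
    (l : Fin r → ℤ), IsDom C l → ∀ g : grp C K,
    (∀ (k : ℤ) (v : LieV C (FF K)), Fil l k v → Fil l (k + 1) (g.1 v - v)) → g ∈ Ul C K l 0

/-- CAR: the Cartan component of `u e_{-β}` for `u ∈ U_l` of height at least `ht β`. -/
def CarStmt : Prop :=
  ∀ (r : ℕ) (C : Matrix (Fin r) (Fin r) ℤ) (_ : SimplyLaced C) (K : Type) [Field K]
    (l : Fin r → ℤ), IsDom C l → ∀ k : ℕ,
    (∀ u ∈ Ul C K l k, ∀ β : Rt C, 0 < ip C β.1 l → ht β = k →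
      ∃ c : FF K, (u.1 (EE β.neg)).1 = fun i => -(c * ((β.1 i : ℤ) : FF K))) ∧
    (∀ u ∈ Ul C K l k, (∀ β : Rt C, 0 < ip C β.1 l → ht β = k → (u.1 (EE β.neg)).1 = 0) →
      u ∈ Ul C K l (k + 1)) ∧
    (∀ s ∈ Ul C K l 0, ∀ u ∈ Ul C K l k, ∀ β : Rt C, 0 < ip C β.1 l → ht β = k →
      ((s * u).1 (EE β.neg)).1 = (s.1 (EE β.neg)).1 + (u.1 (EE β.neg)).1)

/-- SCT: counting elements of `U_l` by their Cartan components (from CAR). -/
def SctStmt : Prop :=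
  ∀ (r : ℕ) (C : Matrix (Fin r) (Fin r) ℤ) (_ : SimplyLaced C) (K : Type) [Field K]
    (l : Fin r → ℤ), IsDom C l → ∀ (q : ℕ) (Λ : Rt C → AddSubgroup (FF K)), 0 < q →
    (∀ β : Rt C, 0 < ip C β.1 l →
      (Λ β : Set (FF K)).Finite ∧ Nat.card (Λ β) ≤ q ^ (ip C β.1 l).toNat) →
    ∀ S : Finset (grp C K), (∀ s ∈ S, s ∈ Ul C K l 0) →
    (∀ s ∈ S, ∀ β : Rt C, 0 < ip C β.1 l → ∀ i, (s.1 (EE β.neg)).1 i ∈ Λ β) →
    S.card ≤ q ^ dep C l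

/-- SCS: the number of elements of `Γ_P(N)` moving `t^l` by a small distance (from LEV, SCT). -/
def ScsStmt : Prop :=
  ∀ (r : ℕ) (C : Matrix (Fin r) (Fin r) ℤ) (_ : SimplyLaced C) (K : Type) [Field K] [Finite K]
    (P N : Polynomial K), P ≠ 0 → N ≠ 0 → IsCoprime P N →
    ∀ (l : Fin r → ℤ) (g : grp C K), IsTor l g → IsDom C l → ∀ (M₁ M₂ : ℕ),
    M₁ + M₂ * P.natDegree < N.natDegree →
    ∀ S : Finset (grp C K), (∀ s ∈ S, s ∈ cong C K P N) → (∀ s ∈ S, bnd M₁ (g⁻¹ * s * g)) →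
    (∀ s ∈ S, ∀ v : LieV C (FF K), Cd (ringA K 1) v →
      Cd (ringA K 1) (polyL K P ^ M₂ • (s.1 v))) →
    S.card ≤ Nat.card K ^ dep C l

/-- STL: the stabilizer of `t^l` in `Γ` is large (from CAR, MAX, FLD). -/
def StlStmt : Prop :=
  ∀ (r : ℕ) (C : Matrix (Fin r) (Fin r) ℤ) (_ : SimplyLaced C) (K : Type) [Field K] [Finite K]
    (l : Fin r → ℤ) (g : grp C K), IsTor l g → IsDom C l →
    Nat.card K ^ dep C l ≤ Nat.card (MulAction.stabilizer (arith C K 1) (pt g))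

/-- NRM: the congruence subgroups are normal, and compatible; integrality. -/
def NrmStmt : Prop :=
  ∀ (r : ℕ) (C : Matrix (Fin r) (Fin r) ℤ) (_ : SimplyLaced C) (K : Type) [Field K]
    (P N : Polynomial K), P ≠ 0 → N ≠ 0 → IsCoprime P N →
    (∀ g ∈ arith C K P, ∀ γ ∈ cong C K P N, g * γ * g⁻¹ ∈ cong C K P N) ∧
    (arith C K 1 ≤ arith C K P) ∧ (cong C K 1 N ≤ cong C K P N) ∧
    (∀ γ ∈ cong C K P N, γ ∈ arith C K 1 → γ ∈ cong C K 1 N) ∧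
    (∀ g ∈ arith C K P, ∃ γ ∈ cong C K P N, ∃ g0 ∈ arith C K 1, g = γ * g0) ∧
    (∀ g ∈ arith C K P, ∀ v : LieV C (FF K), Cd (ringA K P) v → Cd (ringA K P) (g.1 v))

/-- FIN: finiteness of the stabilizers in `Γ` and of the index of `Γ(N)`. -/
def FinStmt : Prop :=
  ∀ (r : ℕ) (C : Matrix (Fin r) (Fin r) ℤ) (_ : SimplyLaced C) (K : Type) [Field K] [Finite K],
    (∀ x : XX C K, Finite (MulAction.stabilizer (arith C K 1) x)) ∧
    (∀ (N : Polynomial K) (x : XX C K), Finite (MulAction.stabilizer (cong C K 1 N) x)) ∧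
    (∀ (N : Polynomial K), N ≠ 0 → (cong C K 1 N).relIndex (arith C K 1) ≠ 0)

/-- FSP: a cusp form has finite support modulo `Γ(N)` (from BIR, VAN, MAS, FIN, ROOT). -/
def FspStmt : Prop :=
  ∀ (r : ℕ) (C : Matrix (Fin r) (Fin r) ℤ) (_ : SimplyLaced C) (K : Type) [Field K] [Finite K]
    (N : Polynomial K), N ≠ 0 → ∀ f : XX C K → ℂ, IsCusp N f →
    {o : MulAction.orbitRel.Quotient (cong C K 1 N) (XX C K) | f o.out ≠ 0}.Finite

/-- TRF: transfer of a Hecke function at `P` to the congruence subgroup of level `N` (from NRM). -/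
def TrfStmt : Prop :=
  ∀ (r : ℕ) (C : Matrix (Fin r) (Fin r) ℤ) (_ : SimplyLaced C) (K : Type) [Field K]
    (P N : Polynomial K), P ≠ 0 → N ≠ 0 → IsCoprime P N →
    ∀ (κ : arith C K P → ℂ) (R : ℕ), HeckeFin P κ R →
    (∀ k ∈ (cong C K 1 N).subgroupOf (cong C K P N), ∀ g : cong C K P N,
      κ ⟨(k * g).1, (k * g).2.1⟩ = κ ⟨g.1, g.2.1⟩ ∧ κ ⟨(g * k).1, (g * k).2.1⟩ = κ ⟨g.1, g.2.1⟩) ∧
    {y : (cong C K P N) ⧸ (cong C K 1 N).subgroupOf (cong C K P N) |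
      κ ⟨y.out.1, y.out.2.1⟩ ≠ 0}.Finite ∧
    normSq ((cong C K 1 N).subgroupOf (cong C K P N)) (fun δ => κ ⟨δ.1, δ.2.1⟩) =
      normSq ((arith C K 1).subgroupOf (arith C K P)) κ ∧
    ∀ τ : ℝ, NormLE ((arith C K 1).subgroupOf (arith C K P)) κ τ →
      NormLE ((cong C K 1 N).subgroupOf (cong C K P N))
        (fun δ : cong C K P N => κ ⟨δ.1, δ.2.1⟩) τ

/-! ## Abstract lemmas -/

/-- KER: powers of an invariant kernel. -/
def KerStmt : Prop :=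
  ∀ (H : Type) [Group H] (L : Subgroup H) (κ : H → ℂ) (τ : ℝ), 0 ≤ τ →
    (∀ k ∈ L, ∀ g, κ (k * g) = κ g ∧ κ (g * k) = κ g) → {y : H ⧸ L | κ y.out ≠ 0}.Finite →
    NormLE L κ τ → ∀ m : ℕ, ∃ c : H ⧸ L → ℂ, (Function.support c).Finite ∧
      (∀ y, c y ≠ 0 → ∃ gs : List H, gs.length = m ∧ (∀ g ∈ gs, κ g ≠ 0) ∧
        y = QuotientGroup.mk gs.prod) ∧
      ∑ᶠ y, ‖c y‖ ^ 2 ≤ τ ^ (2 * m) ∧
      ∀ (F : H ⧸ L → ℂ) (lam : ℂ), (∀ x, ∑ᶠ y, κ (x.out⁻¹ * y.out) * F y = lam * F x) →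
        ∑ᶠ y, c y * F y = lam ^ m * F (QuotientGroup.mk 1)

/-- BES: Bessel's inequality on a quotient, with Schur's test. -/
def BesStmt : Prop :=
  ∀ (Δ X : Type) [Group Δ] [MulAction Δ X], (∀ x : X, Finite (MulAction.stabilizer Δ x)) →
    ∀ (n : ℕ) (f : Fin n → X → ℂ), (∀ j (γ : Δ) x, f j (γ • x) = f j x) →
    (∀ j, {o : MulAction.orbitRel.Quotient Δ X | f j o.out ≠ 0}.Finite) →
    (∀ i j, ∑ᶠ o : MulAction.orbitRel.Quotient Δ X,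
      (starRingEnd ℂ) (f i o.out) * f j o.out / Nat.card (MulAction.stabilizer Δ o.out)
        = if i = j then 1 else 0) →
    ∀ (I : Type) (S : Finset I) (z : I → X) (c : I → ℂ) (M : ℕ),
      (∀ i ∈ S, ∀ Q : Finset (Δ × I), (∀ p ∈ Q, p.2 ∈ S ∧ p.1 • z i = z p.2) → Q.card ≤ M) →
      ∑ j, ‖∑ i ∈ S, c i * f j (z i)‖ ^ 2 ≤ M * ∑ i ∈ S, ‖c i‖ ^ 2

/-- MAS: the mass of the `Δ`-orbits in an orbit of `Γ`. -/
def MasStmt : Prop :=
  ∀ (G X : Type) [Group G] [MulAction G X] (Γ Δ : Subgroup G), Δ ≤ Γ →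
    (∀ g ∈ Γ, ∀ γ ∈ Δ, g * γ * g⁻¹ ∈ Δ) → Δ.relIndex Γ ≠ 0 → ∀ x : X,
    Finite (MulAction.stabilizer Γ x) →
    ∀ O : Finset X, (∀ y ∈ O, ∃ γ ∈ Γ, y = γ • x) →
    (∀ y ∈ O, ∀ y' ∈ O, (∃ δ ∈ Δ, δ • y = y') → y = y') →
    ∑ y ∈ O, (Nat.card (MulAction.stabilizer Γ x) : ℝ) / Nat.card (MulAction.stabilizer Δ y) ≤
      Δ.relIndex Γ

/-! ## Assembly -/

/-- CNT: the count, given a pointwise bound (from BIR, VAN, STL, MAS, FIN, FSP, ROOT). -/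
def CntStmt : Prop :=
  ∀ (r : ℕ) (C : Matrix (Fin r) (Fin r) ℤ) (_ : SimplyLaced C) (K : Type) [Field K] [Finite K]
    (_ : 0 < r) (N : Polynomial K) (_ : N ≠ 0) (n : ℕ) (f : Fin n → XX C K → ℂ)
    (_ : ∀ j, IsCusp N (f j)) (_ : ∀ j, petersson N (f j) (f j) = 1)
    (w : Fin n → ℝ) (_ : ∀ j, 0 ≤ w j) (B : ℝ) (_ : 0 ≤ B)
    (_ : ∀ γ ∈ arith C K 1, ∀ (l : Fin r → ℤ) (g : grp C K), IsTor l g → IsDom C l →
      ∑ j, w j * ‖f j (γ • pt g)‖ ^ 2 ≤ B * (Nat.card K : ℝ) ^ dep C l),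
    ∑ j, w j ≤ (N.natDegree : ℝ) ^ r * (cong C K 1 N).relIndex (arith C K 1) * B

/-- THI: the pointwise bound for a kernel at `∞` (from BES, SCS, BDG, NRM, FIN, FSP). -/
def ThiStmt : Prop :=
  ∀ (r : ℕ) (C : Matrix (Fin r) (Fin r) ℤ) (_ : SimplyLaced C) (K : Type) [Field K] [Finite K]
    (N : Polynomial K) (_ : N ≠ 0) (n : ℕ) (f : Fin n → XX C K → ℂ)
    (_ : ∀ j, IsCusp N (f j)) (_ : ∀ i j, petersson N (f i) (f j) = if i = j then 1 else 0)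
    (ρ : ℕ) (_ : 2 * ρ < N.natDegree) (c : XX C K → ℂ) (_ : (Function.support c).Finite)
    (_ : ∀ y, c y ≠ 0 → ∃ a : grp C K, y = pt a ∧ bnd ρ a ∧ bnd ρ a⁻¹) (mu : Fin n → ℂ)
    (_ : ∀ j (g : grp C K), ∑ᶠ y, c y * f j (g • y) = mu j * f j (pt g)),
    ∀ γ ∈ arith C K 1, ∀ (l : Fin r → ℤ) (g : grp C K), IsTor l g → IsDom C l →
      ∑ j, ‖mu j‖ ^ 2 * ‖f j (γ • pt g)‖ ^ 2 ≤
        (∑ᶠ y, ‖c y‖ ^ 2) * (Nat.card K : ℝ) ^ dep C l

/-- THF: the pointwise bound for a kernel at `P` (from BES, SCS, BDG, NRM, FIN, FSP). -/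
def ThfStmt : Prop :=
  ∀ (r : ℕ) (C : Matrix (Fin r) (Fin r) ℤ) (_ : SimplyLaced C) (K : Type) [Field K] [Finite K]
    (N : Polynomial K) (_ : N ≠ 0) (n : ℕ) (f : Fin n → XX C K → ℂ)
    (_ : ∀ j, IsCusp N (f j)) (_ : ∀ i j, petersson N (f i) (f j) = if i = j then 1 else 0)
    (P : Polynomial K) (_ : P ≠ 0) (_ : IsCoprime P N)
    (ρ : ℕ) (_ : 2 * ρ * P.natDegree < N.natDegree)
    (c : (cong C K P N) ⧸ (cong C K 1 N).subgroupOf (cong C K P N) → ℂ)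
    (_ : (Function.support c).Finite)
    (_ : ∀ y, c y ≠ 0 → ∃ a : cong C K P N, y = QuotientGroup.mk a ∧
      ∀ v : LieV C (FF K), Cd (ringA K 1) v →
        Cd (ringA K 1) (polyL K P ^ ρ • (a.1.1 v)) ∧
        Cd (ringA K 1) (polyL K P ^ ρ • ((a⁻¹).1.1 v)))
    (mu : Fin n → ℂ) (_ : ∀ j x, ∑ᶠ δ, c δ * f j ((δ.out.1)⁻¹ • x) = mu j * f j x),
    ∀ γ ∈ arith C K 1, ∀ (l : Fin r → ℤ) (g : grp C K), IsTor l g → IsDom C l →
      ∑ j, ‖mu j‖ ^ 2 * ‖f j (γ • pt g)‖ ^ 2 ≤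
        (∑ᶠ y, ‖c y‖ ^ 2) * (Nat.card K : ℝ) ^ dep C l

end Pool.Agent.DEN
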