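import Pool.Agent.Helper22_DEN.RelC

open scoped BigOperators

namespace Pool.Agent.DEN.H22

open Pool.Agent.DEN

section
variable {r : ℕ} {C : Matrix (Fin r) (Fin r) ℤ} {K : Type} [Field K]

theorem tt_ne : tt K ≠ 0 := by
  unfold tt
  rw [Ne, HahnSeries.single_eq_zero_iff]
  exact one_ne_zero

/-- The diagonal map. -/
noncomputable def tmap (l : Fin r → ℤ) (v : LieV C (FF K)) : LieV C (FF K) :=
  (v.1, fun γ => tt K ^ (ip C γ.1 l) * v.2 γ)

theorem crd_tmap (l : Fin r → ℤ) (v : LieV C (FF K)) (x : Fin r → ℤ) :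
    crd (tmap l v) x = tt K ^ (ip C x l) * crd v x := by
  unfold crd
  split_ifs with h
  · rfl
  · simp

theorem isTor_mul {l l' : Fin r → ℤ} {g g' : grp C K} (h : IsTor l g) (h' : IsTor l' g') :
    IsTor (l + l') (g * g') := by
  intro v
  have e : (g * g').1 v = g.1 (g'.1 v) := rfl
  rw [e, h, h']
  refine Prod.ext rfl (funext fun γ => ?_)
  show tt K ^ ip C γ.1 l * (tt K ^ ip C γ.1 l' * v.2 γ) = tt K ^ ip C γ.1 (l + l') * v.2 γ
  rw [ip_add_right, zpow_add₀ tt_ne]
  ring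

theorem isTor_inv {l : Fin r → ℤ} {g : grp C K} (h : IsTor l g) : IsTor (-l) g⁻¹ := by
  intro v
  have key : g.1 ((g⁻¹).1 v) = v := by
    have : (g * g⁻¹).1 v = v := by rw [mul_inv_cancel]; rfl
    exact this
  rw [h] at key
  have h1 : ((g⁻¹).1 v).1 = v.1 := (Prod.ext_iff.mp key).1
  have h2 : ∀ γ : Rt C, tt K ^ ip C γ.1 l * ((g⁻¹).1 v).2 γ = v.2 γ := fun γ =>
    congrFun (Prod.ext_iff.mp key).2 γ
  refine Prod.ext h1 (funext fun γ => ?_)
  show ((g⁻¹).1 v).2 γ = tt K ^ ip C γ.1 (-l) * v.2 γ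
  rw [← h2 γ, ip_neg_right, zpow_neg]
  field_simp [tt_ne]

theorem isTor_one : IsTor (C := C) (K := K) 0 1 := by
  intro v
  refine Prod.ext rfl (funext fun γ => ?_)
  show v.2 γ = tt K ^ ip C γ.1 0 * v.2 γ
  rw [ip_zero_right, zpow_zero, one_mul]

theorem isTor_root (hC : SimplyLaced C) (β : Rt C) :
    IsTor β.1 (wg hC β (tt K) * (wg hC β (1 : FF K))⁻¹) := by
  intro v
  rw [relH r C hC K β (tt K) tt_ne v]
  refine Prod.ext rfl (funext fun γ => ?_)
  show tt K ^ ip C β.1 γ.1 * v.2 γ = tt K ^ ip C γ.1 β.1 * v.2 γ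
  rw [hC.ip_comm]

theorem isTor_exists (hC : SimplyLaced C) (l : Fin r → ℤ) : ∃ g : grp C K, IsTor l g := by
  let S : AddSubgroup (Fin r → ℤ) :=
    { carrier := {l | ∃ g : grp C K, IsTor l g}
      add_mem' := by
        rintro a b ⟨g, hg⟩ ⟨g', hg'⟩
        exact ⟨_, isTor_mul hg hg'⟩
      zero_mem' := ⟨1, isTor_one⟩
      neg_mem' := by
        rintro a ⟨g, hg⟩
        exact ⟨_, isTor_inv hg⟩ }
  have h1 : ∀ i, al i ∈ S := fun i => ⟨_, isTor_root hC (hC.sr i)⟩
  have h2 : l = ∑ i, l i • al i := by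
    funext j
    simp [al, Finset.sum_apply, Pi.single_apply]
  have h3 : l ∈ S := by
    rw [h2]
    exact S.sum_mem fun i _ => S.zsmul_mem (h1 i) _
  exact h3

theorem isTor_conj (hC : SimplyLaced C) {l : Fin r → ℤ} {g : grp C K} (h : IsTor l g)
    (β : Rt C) (a : FF K) : g * xg hC β a * g⁻¹ = xg hC β (tt K ^ (ip C β.1 l) * a) := by
  refine mul_inv_eq_iff_eq_mul.mpr (grp_ext fun v => ?_)
  rw [mul_app, mul_app, xg_apply, xg_apply, h, h]
  show tmap l (rootMap β a v) = rootMap β (tt K ^ (ip C β.1 l) * a) (tmap l v)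
  have t0 := tt_ne (K := K)
  refine vec_ext ?_ ?_
  · intro i
    rw [fst_eq, crd_tmap, ip_neg_left, zpow_neg]
    show (rootMap β a v).1 i = v.1 i - _
    rw [fst_eq]
    field_simp
  · intro x hx
    have prt : pr (tmap l v) β.1 = pr v β.1 := rfl
    rw [crd_tmap]
    rcases cases5 hC β hx with hh | hh | hh | hh | hh
    · subst hh
      rw [crd_self, crd_self, crd_tmap, crd_tmap, prt, ip_neg_left, zpow_neg]
      field_simp
    · subst hh
      have h1 : ip C β.1 (-β.1) ≤ 0 := by rw [ip_neg_right, β.2]; norm_num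
      rw [crd_le β _ _ _ h1, crd_le β _ _ _ h1, crd_tmap]
    · rw [crd_one β _ _ x hx hh, crd_one β _ _ x hx hh, crd_tmap, crd_tmap, ip_sub_left,
        zpow_sub₀ t0]
      field_simp
    · rw [crd_le β _ _ x (by omega), crd_le β _ _ x (by omega), crd_tmap]
    · rw [crd_le β _ _ x (by omega), crd_le β _ _ x (by omega), crd_tmap]

theorem isTor_w (hC : SimplyLaced C) {l : Fin r → ℤ} {g g' : grp C K} (β : Rt C)
    (h : IsTor l g) (h' : IsTor (l - ip C l β.1 • β.1) g') :
    wg hC β (1 : FF K) * g = g' * wg hC β (1 : FF K) := by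
  refine grp_ext fun v => ?_
  rw [mul_app, mul_app, wg_app, wg_app, h, h']
  show wmap β 1 (tmap l v) = tmap (l - ip C l β.1 • β.1) (wmap β 1 v)
  have h1 : (1 : FF K) ≠ 0 := one_ne_zero
  have t0 := tt_ne (K := K)
  have hl : ip C l β.1 = ip C β.1 l := hC.ip_comm _ _
  refine vec_ext ?_ ?_
  · intro i
    rw [w_fst β 1 h1]
    show _ = (wmap β 1 v).1 i
    rw [w_fst β 1 h1]
    rfl
  · intro x hx
    rw [crd_tmap]
    rcases cases5 hC β hx with hh | hh | hh | hh | hh
    · subst hh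
      rw [w_self β 1 h1, w_self β 1 h1, crd_tmap, ip_sub_right, ip_smul_right, β.2, hl,
        ip_neg_left]
      have : ip C β.1 l - ip C β.1 l * 2 = - ip C β.1 l := by ring
      rw [this]
      ring
    · subst hh
      rw [w_neg β 1 h1, w_neg β 1 h1, crd_tmap, ip_sub_right, ip_smul_right, ip_neg_left,
        ip_neg_left, β.2, hl]
      have : -ip C β.1 l - ip C β.1 l * (-2) = ip C β.1 l := by ring
      rw [this]
      ring
    · rw [w_one hC β 1 h1 _ x hx hh, w_one hC β 1 h1 _ x hx hh, crd_tmap, ip_sub_right,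
        ip_smul_right, hC.ip_comm x β.1, hh, hl, ip_sub_left, mul_one]
      ring
    · rw [w_mone hC β 1 h1 _ x hx hh, w_mone hC β 1 h1 _ x hx hh, crd_tmap, ip_sub_right,
        ip_smul_right, hC.ip_comm x β.1, hh, hl, ip_add_left]
      have : ip C x l - ip C β.1 l * (-1) = ip C x l + ip C β.1 l := by ring
      rw [this]
      ring
    · rw [w_zero β 1 _ x hh, w_zero β 1 _ x hh, crd_tmap, ip_sub_right,
        ip_smul_right, hC.ip_comm x β.1, hh]
      simp

end

theorem tor : TorStmt := by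
  intro r C hC K _
  exact ⟨fun l => isTor_exists hC l, fun l l' g g' h h' => isTor_mul h h',
    fun l g h => isTor_inv h, fun l g h β a => isTor_conj hC h β a,
    fun l g g' β h h' => isTor_w hC β h h'⟩

end Pool.Agent.DEN.H22
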